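import Pool.Agent.H122R2.FdF.Defs2

/-! # Definitions: oriented graphs with marked induced paths

A `K_4^3`-free sub-3-graph of the Fon-der-Flaass 3-graph of an oriented graph is described by the
oriented graph `R` and the ternary relation `K` of the deleted triples; the deleted triples may be
assumed to be induced paths, and every induced oriented 4-cycle contains one of them. -/

set_option autoImplicit false
open Finset
open scoped Classical

namespace Pool.Agent.Helper35.FdM

open Pool.Agent.H122R2.FdF

/-- `a → b → c` with `a`, `c` not adjacent -/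
def Path3 {V : Type} (R : V → V → Prop) (a b c : V) : Prop := R a b ∧ R b c ∧ ¬ R a c ∧ ¬ R c a

/-- the triple `a, b, c` is an induced path, in some order -/
def PT {V : Type} (R : V → V → Prop) (a b c : V) : Prop :=
  Path3 R a b c ∨ Path3 R a c b ∨ Path3 R b a c ∨ Path3 R b c a ∨ Path3 R c a b ∨ Path3 R c b a

/-- `K` is a symmetric set of induced paths which meets every induced oriented 4-cycle -/
structure Marks {V : Type} (R : V → V → Prop) (K : V → V → V → Prop) : Prop where
  s12 : ∀ a b c, K a b c → K b a c
  s23 : ∀ a b c, K a b c → K a c b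
  path : ∀ a b c, K a b c → PT R a b c
  cov : ∀ a b c d, R a b → R b c → R c d → R d a → ¬ R a c → ¬ R c a → ¬ R b d → ¬ R d b →
    (K a b c ∨ K b c d ∨ K c d a ∨ K d a b)

/-- indicator of a marked triple -/
noncomputable def kk {V : Type} (K : V → V → V → Prop) (a b c : V) : ℝ := if K a b c then 1 else 0

variable {V : Type} [Fintype V] (R : V → V → Prop) (K : V → V → V → Prop) (w : V → ℝ)

/-- density of the marked triples -/
noncomputable def Mk : ℝ := ∑ a, ∑ b, ∑ c, w a * w b * w c * kk K a b c

/-- density of the marked triples at `v` -/
noncomputable def mu (v : V) : ℝ := ∑ b, ∑ c, w b * w c * kk K v b c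

/-- density of the marked triples at the pair `u`, `v` -/
noncomputable def nu (u v : V) : ℝ := ∑ c, w c * kk K u v c

/-- local optimality of the weights -/
structure OptM : Prop where
  pos : ∀ v, 0 < w v
  sum : ∑ v, w v = 1
  kkt : ∀ v, L R w v + mu K w v = T R w + Mk K w
  soc : ∀ u v, 0 ≤ Qd R w u u + nu K w u u + (Qd R w v v + nu K w v v)
    - 2 * (Qd R w u v + nu K w u v)

end Pool.Agent.Helper35.FdM
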