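import Pool.Agent.Helper35.FdM.Tab1

/-! Enumeration of the marked structures, certificate 1, part 0. -/

set_option autoImplicit false
set_option maxRecDepth 100000

namespace Pool.Agent.Helper35.FdM.C1

theorem ck000 : chkm q3 q1 28065243204196437 0 0 0 0 0 0 = true := by decide +kernel
theorem ck001 : chkm q3 q1 28065243204196437 0 0 0 0 1 2 = true := by decide +kernel
theorem ck002 : chkm q3 q1 28065243204196437 0 0 0 0 2 1 = true := by decide +kernel
theorem ck010 : chkm q3 q1 28065243204196437 0 0 1 2 0 0 = true := by decide +kernel
theorem ck011 : chkm q3 q1 28065243204196437 0 0 1 2 1 2 = true := by decide +kernel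
theorem ck012 : chkm q3 q1 28065243204196437 0 0 1 2 2 1 = true := by decide +kernel
theorem ck020 : chkm q3 q1 28065243204196437 0 0 2 1 0 0 = true := by decide +kernel
theorem ck021 : chkm q3 q1 28065243204196437 0 0 2 1 1 2 = true := by decide +kernel
theorem ck022 : chkm q3 q1 28065243204196437 0 0 2 1 2 1 = true := by decide +kernel

end Pool.Agent.Helper35.FdM.C1
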