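import Pool.Agent.Helper35.FdM.Kern
import Pool.Agent.H122R2.FdF.FlagAux

/-! Checks of the canonical index tables. -/

set_option autoImplicit false
set_option maxRecDepth 100000

namespace Pool.Agent.Helper35.FdM

open Pool.Agent.H122R2.FdF

def kchk : Bool := nall 54 fun c => and (Nat.ble (ty c) 7) (nall 216 fun i =>
  and (Nat.ble (ix c i) 50) (Nat.beq (k4c (Nat.mod c 27) (Nat.mod i 27)) (gk (ty c) (ix c i))))

theorem hkchk : kchk = true := by decide +kernel

theorem kchk_all (c : ℕ) (hc : c < 54) : ty c ≤ 7 ∧ ∀ i < 216, ix c i ≤ 50 ∧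
    k4c (c % 27) (i % 27) = gk (ty c) (ix c i) := by
  have h := nall_true hkchk c hc
  rw [show and = Bool.and from rfl, Bool.and_eq_true] at h
  refine ⟨Nat.le_of_ble_eq_true h.1, fun i hi => ?_⟩
  have h2 := nall_true h.2 i hi
  rw [show and = Bool.and from rfl, Bool.and_eq_true] at h2
  exact ⟨Nat.le_of_ble_eq_true h2.1, Nat.eq_of_beq_eq_true h2.2⟩

theorem ty_lt (c : ℕ) (hc : c < 54) : ty c < 8 := Nat.lt_succ_of_le (kchk_all c hc).1
theorem ix_lt (c i : ℕ) (hc : c < 54) (hi : i < 216) : ix c i < 51 :=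
  Nat.lt_succ_of_le ((kchk_all c hc).2 i hi).1
theorem k4_eq (c i : ℕ) (hc : c < 54) (hi : i < 216) :
    k4c (c % 27) (i % 27) = gk (ty c) (ix c i) := ((kchk_all c hc).2 i hi).2

end Pool.Agent.Helper35.FdM
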