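import Pool.Agent.Helper35.FdM.Kern
import Pool.Agent.H122R2.FdF.FlagAux

/-! The five-vertex total of a marked structure is bounded by the enumeration. -/

set_option autoImplicit false
set_option maxRecDepth 100000
open Finset
open scoped Classical

namespace Pool.Agent.Helper35.FdM

open Pool.Agent.H122R2.FdF

/-- admissible values of a mark -/
def Mv (p m : ℕ) : Prop := m = 0 ∨ (m = 1 ∧ p = 1)

theorem M2_true {p m : ℕ} {f : ℕ → Bool} (h : M2 p f = true) (hm : Mv p m) : f m = true := by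
  have h' : (f 0 && (Nat.beq p 0 || f 1)) = true := h
  rw [Bool.and_eq_true, Bool.or_eq_true] at h'
  rcases hm with rfl | ⟨rfl, rfl⟩
  · exact h'.1
  · rcases h'.2 with h | h
    · exact absurd (Nat.eq_of_beq_eq_true h) (by norm_num)
    · exact h

theorem B3_true {f : ℕ → ℕ → Bool} (h : B3 f = true) {d e : ℕ} (hd : Pr d e) : f d e = true := by
  have h' : (f 0 0 && (f 1 2 && f 2 1)) = true := h
  simp only [Bool.and_eq_true] at h'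
  rcases hd with ⟨rfl, rfl⟩ | ⟨rfl, rfl⟩ | ⟨rfl, rfl⟩
  exacts [h'.1, h'.2.1, h'.2.2]

theorem bad_aux {c a : ℕ} (h : c = 0 ∨ 1 ≤ a) : Nat.mul c (Nat.sub 1 a) = 0 := by
  show c * (1 - a) = 0
  rcases h with h | h
  · rw [h, Nat.zero_mul]
  · rw [Nat.sub_eq_zero_of_le h, Nat.mul_zero]

theorem leafm_le (q3 : ℕ → ℕ → ℕ → ℕ) (q1 : ℕ → ℕ → ℕ) (C : ℕ)
    (hchk : ∀ d01 e01 d02 e02 d12 e12, Pr d01 e01 → Pr d02 e02 → Pr d12 e12 →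
      chkm q3 q1 C d01 e01 d02 e02 d12 e12 = true)
    (d01 e01 d02 e02 d03 e03 d04 e04 d12 e12 d13 e13 d14 e14 d23 e23 d24 e24 d34 e34 m012 m013 m014 m023 m024 m034 m123 m124 m134 m234 : ℕ)
    (h01 : Pr d01 e01) (h02 : Pr d02 e02) (h03 : Pr d03 e03) (h04 : Pr d04 e04) (h12 : Pr d12 e12) (h13 : Pr d13 e13) (h14 : Pr d14 e14) (h23 : Pr d23 e23) (h24 : Pr d24 e24) (h34 : Pr d34 e34)
    (k012 : Mv (pth (cd d01 d02 d12)) m012) (k013 : Mv (pth (cd d01 d03 d13)) m013) (k014 : Mv (pth (cd d01 d04 d14)) m014) (k023 : Mv (pth (cd d02 d03 d23)) m023) (k024 : Mv (pth (cd d02 d04 d24)) m024) (k034 : Mv (pth (cd d03 d04 d34)) m034) (k123 : Mv (pth (cd d12 d13 d23)) m123) (k124 : Mv (pth (cd d12 d14 d24)) m124) (k134 : Mv (pth (cd d13 d14 d34)) m134) (k234 : Mv (pth (cd d23 d24 d34)) m234)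
    (hz : badm d01 d02 d03 d04 d12 d13 d14 d23 d24 d34 m012 m013 m014 m023 m024 m034 m123 m124 m134 m234 = 0) :
    leafm q3 (f1s q1 d01 e01 d02 e02 d03 e03 d04 e04 d12 e12 d13 e13 d14 e14 d23 e23 d24 e24 d34 e34) d01 e01 d02 e02 d03 e03 d04 e04 d12 e12 d13 e13 d14 e14 d23 e23 d24 e24 d34 e34 m012 m013 m014 m023 m024 m034 m123 m124 m134 m234 ≤ C := by
  have hc := hchk d01 e01 d02 e02 d12 e12 h01 h02 h12
  have hm : mchk q3 q1 C d01 e01 d02 e02 d03 e03 d04 e04 d12 e12 d13 e13 d14 e14 d23 e23 d24 e24 d34 e34 = true :=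
    (B3_true (B3_true (B3_true (B3_true (B3_true (B3_true (B3_true hc h03) h04) h13) h14) h23) h24) h34)
  have h : lchk q3 (f1s q1 d01 e01 d02 e02 d03 e03 d04 e04 d12 e12 d13 e13 d14 e14 d23 e23 d24 e24 d34 e34) C d01 e01 d02 e02 d03 e03 d04 e04 d12 e12 d13 e13 d14 e14 d23 e23 d24 e24 d34 e34 m012 m013 m014 m023 m024 m034 m123 m124 m134 m234 = true :=
    (M2_true (M2_true (M2_true (M2_true (M2_true (M2_true (M2_true (M2_true (M2_true (M2_true hm k012) k013) k014) k023) k024) k034) k123) k124) k134) k234)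
  rcases (Bool.or_eq_true _ _).mp h with h | h
  · have h2 : 1 ≤ badm d01 d02 d03 d04 d12 d13 d14 d23 d24 d34 m012 m013 m014 m023 m024 m034 m123 m124 m134 m234 := Nat.le_of_ble_eq_true h
    rw [hz] at h2
    omega
  · exact Nat.le_of_ble_eq_true h

section
variable {V : Type} (rel : V → V → ℕ) (mk : V → V → V → ℕ)

/-- code of a marked triple -/
def C3 (a b c : V) : ℕ := cdm (rel a b) (rel a c) (rel b c) (mk a b c)
/-- code of the attachment of `d` to the triple `a b c` -/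
def C4 (a b c d : V) : ℕ := ca (rel a d) (rel b d) (rel c d) (mk a b d) (mk a c d) (mk b c d)

def F3m (q3 : ℕ → ℕ → ℕ → ℕ) (a b c d e : V) : ℕ :=
  q3 (C3 rel mk a b c) (C4 rel mk a b c d) (C4 rel mk a b c e)

/-- the total over the 10 triples and the 15 splittings of five vertices -/
def LeafM (q3 : ℕ → ℕ → ℕ → ℕ) (q1 : ℕ → ℕ → ℕ) (x : Fin 5 → V) : ℕ :=
  (F3m rel mk q3 (x 0) (x 1) (x 2) (x 3) (x 4) +
      (F3m rel mk q3 (x 0) (x 1) (x 3) (x 2) (x 4) +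
      (F3m rel mk q3 (x 0) (x 1) (x 4) (x 2) (x 3) +
      (F3m rel mk q3 (x 0) (x 2) (x 3) (x 1) (x 4) +
      (F3m rel mk q3 (x 0) (x 2) (x 4) (x 1) (x 3) +
      (F3m rel mk q3 (x 0) (x 3) (x 4) (x 1) (x 2) +
      (F3m rel mk q3 (x 1) (x 2) (x 3) (x 0) (x 4) +
      (F3m rel mk q3 (x 1) (x 2) (x 4) (x 0) (x 3) +
      (F3m rel mk q3 (x 1) (x 3) (x 4) (x 0) (x 2) +
      F3m rel mk q3 (x 2) (x 3) (x 4) (x 0) (x 1))))))))))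
    + (F1 rel q1 (x 0) (x 1) (x 2) (x 3) (x 4) +
      (F1 rel q1 (x 0) (x 1) (x 3) (x 2) (x 4) +
      (F1 rel q1 (x 0) (x 1) (x 4) (x 2) (x 3) +
      (F1 rel q1 (x 1) (x 0) (x 2) (x 3) (x 4) +
      (F1 rel q1 (x 1) (x 0) (x 3) (x 2) (x 4) +
      (F1 rel q1 (x 1) (x 0) (x 4) (x 2) (x 3) +
      (F1 rel q1 (x 2) (x 0) (x 1) (x 3) (x 4) +
      (F1 rel q1 (x 2) (x 0) (x 3) (x 1) (x 4) +
      (F1 rel q1 (x 2) (x 0) (x 4) (x 1) (x 3) +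
      (F1 rel q1 (x 3) (x 0) (x 1) (x 2) (x 4) +
      (F1 rel q1 (x 3) (x 0) (x 2) (x 1) (x 4) +
      (F1 rel q1 (x 3) (x 0) (x 4) (x 1) (x 2) +
      (F1 rel q1 (x 4) (x 0) (x 1) (x 2) (x 3) +
      (F1 rel q1 (x 4) (x 0) (x 2) (x 1) (x 3) +
      F1 rel q1 (x 4) (x 0) (x 3) (x 1) (x 2)))))))))))))))

variable {rel mk}

theorem LeafM_eq (s12 : ∀ a b c, mk a b c = mk b a c) (s23 : ∀ a b c, mk a b c = mk a c b)
    (q3 : ℕ → ℕ → ℕ → ℕ) (q1 : ℕ → ℕ → ℕ) (x : Fin 5 → V) :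
    LeafM rel mk q3 q1 x = leafm q3 (f1s q1 (rel (x 0) (x 1)) (rel (x 1) (x 0)) (rel (x 0) (x 2)) (rel (x 2) (x 0)) (rel (x 0) (x 3)) (rel (x 3) (x 0)) (rel (x 0) (x 4)) (rel (x 4) (x 0)) (rel (x 1) (x 2)) (rel (x 2) (x 1)) (rel (x 1) (x 3)) (rel (x 3) (x 1)) (rel (x 1) (x 4)) (rel (x 4) (x 1)) (rel (x 2) (x 3)) (rel (x 3) (x 2)) (rel (x 2) (x 4)) (rel (x 4) (x 2)) (rel (x 3) (x 4)) (rel (x 4) (x 3))) (rel (x 0) (x 1)) (rel (x 1) (x 0)) (rel (x 0) (x 2)) (rel (x 2) (x 0)) (rel (x 0) (x 3)) (rel (x 3) (x 0)) (rel (x 0) (x 4)) (rel (x 4) (x 0)) (rel (x 1) (x 2)) (rel (x 2) (x 1)) (rel (x 1) (x 3)) (rel (x 3) (x 1)) (rel (x 1) (x 4)) (rel (x 4) (x 1)) (rel (x 2) (x 3)) (rel (x 3) (x 2)) (rel (x 2) (x 4)) (rel (x 4) (x 2)) (rel (x 3) (x 4)) (rel (x 4) (x 3)) (mk (x 0) (x 1) (x 2)) (mk (x 0) (x 1) (x 3)) (mk (x 0) (x 1) (x 4)) (mk (x 0) (x 2)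 (x 3)) (mk (x 0) (x 2) (x 4)) (mk (x 0) (x 3) (x 4)) (mk (x 1) (x 2) (x 3)) (mk (x 1) (x 2) (x 4)) (mk (x 1) (x 3) (x 4)) (mk (x 2) (x 3) (x 4)) := by
  have r021 : mk (x 0) (x 2) (x 1) = mk (x 0) (x 1) (x 2) := by
    rw [s23]
  have r031 : mk (x 0) (x 3) (x 1) = mk (x 0) (x 1) (x 3) := by
    rw [s23]
  have r032 : mk (x 0) (x 3) (x 2) = mk (x 0) (x 2) (x 3) := by
    rw [s23]
  have r041 : mk (x 0) (x 4) (x 1) = mk (x 0) (x 1) (x 4) := by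
    rw [s23]
  have r042 : mk (x 0) (x 4) (x 2) = mk (x 0) (x 2) (x 4) := by
    rw [s23]
  have r043 : mk (x 0) (x 4) (x 3) = mk (x 0) (x 3) (x 4) := by
    rw [s23]
  have r120 : mk (x 1) (x 2) (x 0) = mk (x 0) (x 1) (x 2) := by
    rw [s23, s12]
  have r130 : mk (x 1) (x 3) (x 0) = mk (x 0) (x 1) (x 3) := by
    rw [s23, s12]
  have r132 : mk (x 1) (x 3) (x 2) = mk (x 1) (x 2) (x 3) := by
    rw [s23]
  have r140 : mk (x 1) (x 4) (x 0) = mk (x 0) (x 1) (x 4) := by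
    rw [s23, s12]
  have r142 : mk (x 1) (x 4) (x 2) = mk (x 1) (x 2) (x 4) := by
    rw [s23]
  have r143 : mk (x 1) (x 4) (x 3) = mk (x 1) (x 3) (x 4) := by
    rw [s23]
  have r230 : mk (x 2) (x 3) (x 0) = mk (x 0) (x 2) (x 3) := by
    rw [s23, s12]
  have r231 : mk (x 2) (x 3) (x 1) = mk (x 1) (x 2) (x 3) := by
    rw [s23, s12]
  have r240 : mk (x 2) (x 4) (x 0) = mk (x 0) (x 2) (x 4) := by
    rw [s23, s12]
  have r241 : mk (x 2) (x 4) (x 1) = mk (x 1) (x 2) (x 4) := by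
    rw [s23, s12]
  have r243 : mk (x 2) (x 4) (x 3) = mk (x 2) (x 3) (x 4) := by
    rw [s23]
  have r340 : mk (x 3) (x 4) (x 0) = mk (x 0) (x 3) (x 4) := by
    rw [s23, s12]
  have r341 : mk (x 3) (x 4) (x 1) = mk (x 1) (x 3) (x 4) := by
    rw [s23, s12]
  have r342 : mk (x 3) (x 4) (x 2) = mk (x 2) (x 3) (x 4) := by
    rw [s23, s12]
  unfold LeafM F3m F1 C3 C4 leafm f1s
  rw [r021, r031, r032, r041, r042, r043, r120, r130, r132, r140, r142, r143, r230, r231, r240, r241, r243, r340, r341, r342]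
  rfl

/-- marks only on induced paths -/
def MkOk (rel : V → V → ℕ) (mk : V → V → V → ℕ) : Prop := ∀ a b c,
  Mv (pth (cd (rel a b) (rel a c) (rel b c))) (mk a b c)

/-- every induced oriented 4-cycle contains a mark -/
def CovOk (rel : V → V → ℕ) (mk : V → V → V → ℕ) : Prop := ∀ a b c d,
  cy4 (rel a b) (rel a c) (rel a d) (rel b c) (rel b d) (rel c d) = 0 ∨
    1 ≤ mk a b c + (mk a b d + (mk a c d + mk b c d))

theorem badm_zero (hcov : CovOk rel mk) (x : Fin 5 → V) : badm (rel (x 0) (x 1)) (rel (x 0) (x 2)) (rel (x 0) (x 3)) (rel (x 0) (x 4)) (rel (x 1) (x 2)) (rel (x 1) (x 3)) (rel (x 1) (x 4)) (rel (x 2) (x 3)) (rel (x 2) (x 4)) (rel (x 3) (x 4)) (mk (x 0) (x 1) (x 2)) (mk (x 0) (x 1) (x 3)) (mk (x 0) (x 1) (x 4)) (mk (x 0) (x 2) (x 3)) (mk (x 0) (x 2) (x 4)) (mk (x 0) (x 3) (x 4)) (mk (x 1) (x 2) (x 3)) (mk (x 1) (x 2) (x 4)) (mk (x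 1) (x 3) (x 4)) (mk (x 2) (x 3) (x 4)) = 0 := by
  have z0 := hcov (x 1) (x 2) (x 3) (x 4)
  have z1 := hcov (x 0) (x 2) (x 3) (x 4)
  have z2 := hcov (x 0) (x 1) (x 3) (x 4)
  have z3 := hcov (x 0) (x 1) (x 2) (x 4)
  have z4 := hcov (x 0) (x 1) (x 2) (x 3)
  have y0 : Nat.mul (cy4 (rel (x 1) (x 2)) (rel (x 1) (x 3)) (rel (x 1) (x 4)) (rel (x 2) (x 3)) (rel (x 2) (x 4)) (rel (x 3) (x 4))) (Nat.sub 1 (Nat.add (mk (x 1) (x 2) (x 3)) (Nat.add (mk (x 1) (x 2) (x 4)) (Nat.add (mk (x 1) (x 3) (x 4)) (mk (x 2) (x 3) (x 4)))))) = 0 := bad_aux z0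
  have y1 : Nat.mul (cy4 (rel (x 0) (x 2)) (rel (x 0) (x 3)) (rel (x 0) (x 4)) (rel (x 2) (x 3)) (rel (x 2) (x 4)) (rel (x 3) (x 4))) (Nat.sub 1 (Nat.add (mk (x 0) (x 2) (x 3)) (Nat.add (mk (x 0) (x 2) (x 4)) (Nat.add (mk (x 0) (x 3) (x 4)) (mk (x 2) (x 3) (x 4)))))) = 0 := bad_aux z1
  have y2 : Nat.mul (cy4 (rel (x 0) (x 1)) (rel (x 0) (x 3)) (rel (x 0) (x 4)) (rel (x 1) (x 3)) (rel (x 1) (x 4)) (rel (x 3) (x 4))) (Nat.sub 1 (Nat.add (mk (x 0) (x 1) (x 3)) (Nat.add (mk (x 0) (x 1) (x 4)) (Nat.add (mk (x 0) (x 3) (x 4)) (mk (x 1) (x 3) (x 4)))))) = 0 := bad_aux z2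
  have y3 : Nat.mul (cy4 (rel (x 0) (x 1)) (rel (x 0) (x 2)) (rel (x 0) (x 4)) (rel (x 1) (x 2)) (rel (x 1) (x 4)) (rel (x 2) (x 4))) (Nat.sub 1 (Nat.add (mk (x 0) (x 1) (x 2)) (Nat.add (mk (x 0) (x 1) (x 4)) (Nat.add (mk (x 0) (x 2) (x 4)) (mk (x 1) (x 2) (x 4)))))) = 0 := bad_aux z3
  have y4 : Nat.mul (cy4 (rel (x 0) (x 1)) (rel (x 0) (x 2)) (rel (x 0) (x 3)) (rel (x 1) (x 2)) (rel (x 1) (x 3)) (rel (x 2) (x 3))) (Nat.sub 1 (Nat.add (mk (x 0) (x 1) (x 2)) (Nat.add (mk (x 0) (x 1) (x 3)) (Nat.add (mk (x 0) (x 2) (x 3)) (mk (x 1) (x 2) (x 3)))))) = 0 := bad_aux z4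
  unfold badm
  rw [y0, y1, y2, y3, y4]

theorem leafM_all (q3 : ℕ → ℕ → ℕ → ℕ) (q1 : ℕ → ℕ → ℕ) (C : ℕ)
    (hchk : ∀ d01 e01 d02 e02 d12 e12, Pr d01 e01 → Pr d02 e02 → Pr d12 e12 →
      chkm q3 q1 C d01 e01 d02 e02 d12 e12 = true)
    (h : ∀ x y, Pr (rel x y) (rel y x)) (s12 : ∀ a b c, mk a b c = mk b a c)
    (s23 : ∀ a b c, mk a b c = mk a c b) (hmk : MkOk rel mk) (hcov : CovOk rel mk)
    (x : Fin 5 → V) : LeafM rel mk q3 q1 x ≤ C := by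
  rw [LeafM_eq s12 s23]
  exact leafm_le q3 q1 C hchk (rel (x 0) (x 1)) (rel (x 1) (x 0)) (rel (x 0) (x 2)) (rel (x 2) (x 0)) (rel (x 0) (x 3)) (rel (x 3) (x 0)) (rel (x 0) (x 4)) (rel (x 4) (x 0)) (rel (x 1) (x 2)) (rel (x 2) (x 1)) (rel (x 1) (x 3)) (rel (x 3) (x 1)) (rel (x 1) (x 4)) (rel (x 4) (x 1)) (rel (x 2) (x 3)) (rel (x 3) (x 2)) (rel (x 2) (x 4)) (rel (x 4) (x 2)) (rel (x 3) (x 4)) (rel (x 4) (x 3)) (mk (x 0) (x 1) (x 2)) (mk (x 0) (x 1) (x 3)) (mk (x 0) (x 1) (x 4)) (mk (x 0) (x 2) (x 3)) (mk (x 0) (x 2) (x 4)) (mk (x 0) (x 3) (x 4)) (mk (x 1) (x 2) (x 3)) (mk (x 1) (x 2) (x 4)) (mk (x 1) (x 3) (x 4)) (mk (x 2) (x 3) (x 4))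
    (h _ _) (h _ _) (h _ _) (h _ _) (h _ _) (h _ _) (h _ _) (h _ _) (h _ _) (h _ _)
    (hmk _ _ _) (hmk _ _ _) (hmk _ _ _) (hmk _ _ _) (hmk _ _ _) (hmk _ _ _) (hmk _ _ _) (hmk _ _ _) (hmk _ _ _) (hmk _ _ _)
    (badm_zero hcov x)

end

end Pool.Agent.Helper35.FdM
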