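import Pool.Agent.Helper35.FdM.Gram1
import Pool.Agent.Helper35.FdM.Enum10
import Pool.Agent.Helper35.FdM.Enum11
import Pool.Agent.Helper35.FdM.Enum12
import Pool.Agent.Helper35.FdM.LeafM
import Pool.Agent.Helper35.FdM.KChk

set_option autoImplicit false
set_option maxRecDepth 100000
open Finset
open scoped Classical

namespace Pool.Agent.Helper35.FdM.C1

open Pool.Agent.H122R2.FdF

theorem chk_all (d01 e01 d02 e02 d12 e12 : ℕ) (h01 : Pr d01 e01) (h02 : Pr d02 e02)
    (h12 : Pr d12 e12) : chkm q3 q1 28065243204196437 d01 e01 d02 e02 d12 e12 = true := by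
  rcases h01 with ⟨rfl, rfl⟩ | ⟨rfl, rfl⟩ | ⟨rfl, rfl⟩ <;>
  rcases h02 with ⟨rfl, rfl⟩ | ⟨rfl, rfl⟩ | ⟨rfl, rfl⟩ <;>
  rcases h12 with ⟨rfl, rfl⟩ | ⟨rfl, rfl⟩ | ⟨rfl, rfl⟩
  exacts [ck000, ck001, ck002, ck010, ck011, ck012, ck020, ck021, ck022, ck100, ck101, ck102, ck110, ck111, ck112, ck120, ck121, ck122, ck200, ck201, ck202, ck210, ck211, ck212, ck220, ck221, ck222]

def t (c : ℕ) : ℤ := (4123168604160 : ℤ) * (p1c (c % 27) : ℤ) - (274877906944 * (adjc (c % 27) : ℤ) + 17294511859165 * ((pc (c % 27) : ℤ) + (mkc c : ℤ)))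
def g (c i : ℕ) : ℤ := (0 : ℤ)

theorem row_all (k a : ℕ) (hk : k < 8) (ha : a < 51) : rowchk k a = true := by
  have h : gchk k = true := by
    interval_cases k
    exacts [hgc0, hgc1, hgc2, hgc3, hgc4, hgc5, hgc6, hgc7]
  exact nall_true h a ha

theorem lc_zero (k a j : ℕ) (hk : k < 8) (ha : a < 51) (hj : j < 51) (haj : a < j) :
    lc k a j = 33554432 := by
  have h := row_all k a hk ha
  unfold rowchk at h
  rw [show and = Bool.and from rfl, Bool.and_eq_true] at h
  have h2 := nall_true h.2 j hj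
  rcases (Bool.or_eq_true _ _).mp h2 with h3 | h3
  · have : j ≤ a := Nat.le_of_ble_eq_true h3
    omega
  · exact Nat.eq_of_beq_eq_true h3

theorem qc_low (k a b : ℕ) (hk : k < 8) (ha : a < 51) (hb : b ≤ a) :
    (qc k a b : ℤ) = ∑ j ∈ range 51, ((lc k a j : ℤ) - 33554432) * ((lc k b j : ℤ) - 33554432)
      + 1125899906842624 + ((tp (rp k) : ℤ) - tn (rp k)) + gp k a + gp k b := by
  have h := row_all k a hk ha
  unfold rowchk at h
  rw [show and = Bool.and from rfl, Bool.and_eq_true] at h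
  have h2 := nall_true h.1 b (Nat.lt_succ_of_le hb)
  have h3 := Nat.eq_of_beq_eq_true ((Bool.and_eq_true _ _).mp h2).1
  unfold sp sl at h3
  rw [nsum_eq, nsum_eq, nsum_eq] at h3
  have h4 := congrArg (fun n : ℕ => (n : ℤ)) h3
  simp only [Nat.add_eq, Nat.mul_eq, Nat.succ_eq_add_one] at h4
  push_cast at h4
  have e : ∑ j ∈ range 51, ((lc k a j : ℤ) - 33554432) * ((lc k b j : ℤ) - 33554432)
      = ∑ j ∈ range (b + 1), ((lc k a j : ℤ) - 33554432) * ((lc k b j : ℤ) - 33554432) := by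
    refine (sum_subset (range_subset_range.mpr (by omega)) fun j hj hj2 => ?_).symm
    rw [mem_range] at hj
    have hj3 : b < j := by
      by_contra hc
      exact hj2 (mem_range.mpr (by omega))
    rw [lc_zero k b j hk (by omega) hj hj3]
    push_cast
    ring
  rw [e, expand (range (b + 1)) (fun j => lc k a j) (fun j => lc k b j) 33554432, card_range,
    sum_add_distrib]
  push_cast
  linarith

theorem qc_eq (k a b : ℕ) (hk : k < 8) (ha : a < 51) (hb : b < 51) :
    (qc k a b : ℤ) = ∑ j ∈ range 51, ((lc k a j : ℤ) - 33554432) * ((lc k b j : ℤ) - 33554432)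
      + 1125899906842624 + ((tp (rp k) : ℤ) - tn (rp k)) + gp k a + gp k b := by
  rcases le_total b a with h | h
  · exact qc_low k a b hk ha h
  · have h1 := row_all k b hk hb
    unfold rowchk at h1
    rw [show and = Bool.and from rfl, Bool.and_eq_true] at h1
    have h2 := nall_true h1.1 a (Nat.lt_succ_of_le h)
    have h3 : qc k b a = qc k a b := Nat.eq_of_beq_eq_true ((Bool.and_eq_true _ _).mp h2).2
    rw [← h3, qc_low k b a hk hb h]
    have e : ∑ j ∈ range 51, ((lc k b j : ℤ) - 33554432) * ((lc k a j : ℤ) - 33554432)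
        = ∑ j ∈ range 51, ((lc k a j : ℤ) - 33554432) * ((lc k b j : ℤ) - 33554432) :=
      sum_congr rfl fun j _ => mul_comm _ _
    rw [e]
    ring

theorem t_eq (c : ℕ) (hc : c < 54) : (tp (rp (ty c)) : ℤ) - tn (rp (ty c)) = t c := by
  have h := Nat.eq_of_beq_eq_true (nall_true htc c hc)
  have h4 := congrArg (fun n : ℕ => (n : ℤ)) h
  simp only [Nat.add_eq] at h4
  push_cast at h4
  have e : (tp c : ℤ) - tn c = t c := by
    unfold tp tn t
    simp only [Nat.add_eq, Nat.mul_eq, show ∀ x y : ℕ, Nat.mod x y = x % y from fun _ _ => rfl]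
    push_cast
    ring
  linarith

theorem g_eq (c i : ℕ) (hc : c < 54) (hi : i < 216) : (gp (ty c) (ix c i) : ℤ) = g c i := by
  unfold gp g
  rfl

theorem q3_eq (c i j : ℕ) (hc : c < 54) (hi : i < 216) (hj : j < 216) :
    (q3 c i j : ℤ) = ∑ k ∈ range 51, ((l3 c i k : ℤ) - 33554432) * ((l3 c j k : ℤ) - 33554432)
      + 1125899906842624 + t c + g c i + g c j := by
  have h := qc_eq (ty c) (ix c i) (ix c j) (ty_lt c hc) (ix_lt c i hc hi) (ix_lt c j hc hj)
  rw [t_eq c hc, g_eq c i hc hi, g_eq c j hc hj] at h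
  exact h

theorem q1_eq (i j : ℕ) (hi : i < 27) (hj : j < 27) :
    (q1 i j : ℤ) = ∑ k ∈ range 15, ((l1 i k : ℤ) - 33554432) * ((l1 j k : ℤ) - 33554432) + 1125899906842624 := by
  have h := Nat.eq_of_beq_eq_true (nall_true (nall_true hg1 i hi) j hj)
  rw [nsum_eq, nsum_eq] at h
  have h2 := congrArg (fun n : ℕ => (n : ℤ)) h
  simp only [Nat.add_eq, Nat.mul_eq] at h2
  push_cast at h2
  rw [expand (range 15) (fun k => l1 i k) (fun k => l1 j k) 33554432, card_range]
  push_cast
  linarith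

end Pool.Agent.Helper35.FdM.C1
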