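import Pool.Agent.H122R2.FdF.TaskK1
import Pool.Agent.Helper35.FdM.LeafM

/-! The flag inequality for marked structures. -/

set_option autoImplicit false
open Finset
open scoped Classical

namespace Pool.Agent.Helper35.FdM

open Pool.Agent.H122R2.FdF Pool.Agent.H122R2.FdF.K1

theorem lower3m {V : Type} [Fintype V] (rel : V → V → ℕ) (mk : V → V → V → ℕ)
    (hc3 : ∀ a b c, C3 rel mk a b c < 54) (hc4 : ∀ a b c d, C4 rel mk a b c d < 216) (w : V → ℝ) (hw : ∀ v, 0 ≤ w v) (h1 : ∑ v, w v = 1)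
    (K3 : ℕ) (q3 l3 : ℕ → ℕ → ℕ → ℕ) (B O3 : ℤ)
    (t : ℕ → ℤ) (g : ℕ → ℕ → ℤ)
    (hq3 : ∀ c i j, c < 54 → i < 216 → j < 216 → (q3 c i j : ℤ) =
      ∑ k ∈ range K3, ((l3 c i k : ℤ) - B) * ((l3 c j k : ℤ) - B) + O3 + t c + g c i + g c j) :
    (O3 : ℝ) + (∑ a, ∑ b, ∑ c, w a * w b * w c * (t (C3 rel mk a b c) : ℝ))
      + 2 * (∑ a, ∑ b, ∑ c, ∑ d, w a * w b * w c * w d *
          (g (C3 rel mk a b c) (C4 rel mk a b c d) : ℝ))
      ≤ ∑ x : Fin 5 → V, (∏ i, w (x i)) * (F3m rel mk q3 (x 0) (x 1) (x 2) (x 3) (x 4) : ℝ) := by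
  rw [convw w (fun a b c d e => (F3m rel mk q3 a b c d e : ℝ))]
  have e1 : (O3 : ℝ) + (∑ a, ∑ b, ∑ c, w a * w b * w c * (t (C3 rel mk a b c) : ℝ))
      + 2 * (∑ a, ∑ b, ∑ c, ∑ d, w a * w b * w c * w d *
          (g (C3 rel mk a b c) (C4 rel mk a b c d) : ℝ))
      = ∑ a, ∑ b, ∑ c, w a * (w b * (w c * ((O3 : ℝ) + (t (C3 rel mk a b c) : ℝ)
        + 2 * ∑ d, w d * (g (C3 rel mk a b c) (C4 rel mk a b c d) : ℝ)))) := by
    have hO : (O3 : ℝ) = ∑ a, ∑ b, ∑ c, w a * (w b * (w c * (O3 : ℝ))) := by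
      simp only [← mul_sum, sum1 w h1]
    have ht : (∑ a, ∑ b, ∑ c, w a * w b * w c * (t (C3 rel mk a b c) : ℝ))
        = ∑ a, ∑ b, ∑ c, w a * (w b * (w c * (t (C3 rel mk a b c) : ℝ))) :=
      sum_congr rfl fun a _ => sum_congr rfl fun b _ => sum_congr rfl fun c _ => by ring
    have hg : 2 * (∑ a, ∑ b, ∑ c, ∑ d, w a * w b * w c * w d *
          (g (C3 rel mk a b c) (C4 rel mk a b c d) : ℝ))
        = ∑ a, ∑ b, ∑ c, w a * (w b * (w c * (2 * ∑ d, w d *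
          (g (C3 rel mk a b c) (C4 rel mk a b c d) : ℝ)))) := by
      rw [mul_sum]
      refine sum_congr rfl fun a _ => ?_
      rw [mul_sum]
      refine sum_congr rfl fun b _ => ?_
      rw [mul_sum]
      refine sum_congr rfl fun c _ => ?_
      rw [mul_sum, mul_sum, mul_sum, mul_sum, mul_sum]
      exact sum_congr rfl fun d _ => by ring
    rw [ht, hg]
    nth_rewrite 1 [hO]
    simp only [← sum_add_distrib]
    exact sum_congr rfl fun a _ => sum_congr rfl fun b _ => sum_congr rfl fun c _ => by ring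
  rw [e1]
  refine sum_le_sum fun a _ => sum_le_sum fun b _ => sum_le_sum fun c _ => ?_
  have e2 : ∀ d e : V, (F3m rel mk q3 a b c d e : ℝ) =
      ∑ k ∈ range K3, ((l3 (C3 rel mk a b c) (C4 rel mk a b c d) k : ℝ) - B) *
        ((l3 (C3 rel mk a b c) (C4 rel mk a b c e) k : ℝ) - B)
      + O3 + t (C3 rel mk a b c) + g (C3 rel mk a b c) (C4 rel mk a b c d)
      + g (C3 rel mk a b c) (C4 rel mk a b c e) := by
    intro d e
    have := hq3 (C3 rel mk a b c) (C4 rel mk a b c d) (C4 rel mk a b c e)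
      (hc3 _ _ _) (hc4 _ _ _ _) (hc4 _ _ _ _)
    have h2 : ((F3m rel mk q3 a b c d e : ℤ) : ℝ) = _ := congrArg (fun z : ℤ => (z : ℝ)) this
    push_cast at h2
    exact h2
  have e3 : ∑ d, ∑ e, w a * w b * w c * w d * w e * (F3m rel mk q3 a b c d e : ℝ)
      = w a * (w b * (w c * ((∑ d, ∑ e, w d * w e *
          ∑ k ∈ range K3, ((l3 (C3 rel mk a b c) (C4 rel mk a b c d) k : ℝ) - B) *
            ((l3 (C3 rel mk a b c) (C4 rel mk a b c e) k : ℝ) - B))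
        + ((O3 : ℝ) + (t (C3 rel mk a b c) : ℝ)
        + 2 * ∑ d, w d * (g (C3 rel mk a b c) (C4 rel mk a b c d) : ℝ))))) := by
    have s1 : ∑ d, ∑ e, w d * w e * ((O3 : ℝ) + (t (C3 rel mk a b c) : ℝ))
        = (O3 : ℝ) + (t (C3 rel mk a b c) : ℝ) := by
      simp only [mul_assoc, ← mul_sum, sum1 w h1]
    have s2 : ∑ d, ∑ e, w d * w e * (g (C3 rel mk a b c) (C4 rel mk a b c d) : ℝ)
        = ∑ d, w d * (g (C3 rel mk a b c) (C4 rel mk a b c d) : ℝ) := by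
      simp only [mul_assoc, ← mul_sum, sum1 w h1]
    have s3 : ∑ d, ∑ e, w d * w e * (g (C3 rel mk a b c) (C4 rel mk a b c e) : ℝ)
        = ∑ d, w d * (g (C3 rel mk a b c) (C4 rel mk a b c d) : ℝ) := by
      rw [sum_comm, ← s2]
      exact sum_congr rfl fun d _ => sum_congr rfl fun e _ => by ring
    have s4 : (O3 : ℝ) + (t (C3 rel mk a b c) : ℝ)
        + 2 * ∑ d, w d * (g (C3 rel mk a b c) (C4 rel mk a b c d) : ℝ)
        = ∑ d, ∑ e, (w d * w e * ((O3 : ℝ) + (t (C3 rel mk a b c) : ℝ))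
          + w d * w e * (g (C3 rel mk a b c) (C4 rel mk a b c d) : ℝ)
          + w d * w e * (g (C3 rel mk a b c) (C4 rel mk a b c e) : ℝ)) := by
      simp only [sum_add_distrib]
      rw [s1, s2, s3]
      ring
    rw [s4]
    simp only [← sum_add_distrib]
    simp only [mul_sum (s := (Finset.univ : Finset V))]
    refine sum_congr rfl fun d _ => sum_congr rfl fun e _ => ?_
    rw [e2]
    ring
  rw [e3]
  have p := psdw w (range K3) (fun k d => (l3 (C3 rel mk a b c) (C4 rel mk a b c d) k : ℝ) - B)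
  refine mul_le_mul_of_nonneg_left (mul_le_mul_of_nonneg_left
    (mul_le_mul_of_nonneg_left ?_ (hw c)) (hw b)) (hw a)
  linarith

theorem flag_boundM {V : Type} [Fintype V] (rel : V → V → ℕ) (mk : V → V → V → ℕ)
    (hc3 : ∀ a b c, C3 rel mk a b c < 54) (hc4 : ∀ a b c d, C4 rel mk a b c d < 216)
    (hrel : ∀ x y, Pr (rel x y) (rel y x)) (w : V → ℝ) (hw : ∀ v, 0 ≤ w v) (h1 : ∑ v, w v = 1)
    (K3 K1 C : ℕ) (q3 l3 : ℕ → ℕ → ℕ → ℕ) (q1 l1 : ℕ → ℕ → ℕ) (B O3 O1 : ℤ)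
    (t : ℕ → ℤ) (g : ℕ → ℕ → ℤ)
    (hq3 : ∀ c i j, c < 54 → i < 216 → j < 216 → (q3 c i j : ℤ) =
      ∑ k ∈ range K3, ((l3 c i k : ℤ) - B) * ((l3 c j k : ℤ) - B) + O3 + t c + g c i + g c j)
    (hq1 : ∀ i j, i < 27 → j < 27 → (q1 i j : ℤ) =
      ∑ k ∈ range K1, ((l1 i k : ℤ) - B) * ((l1 j k : ℤ) - B) + O1)
    (hleaf : ∀ x : Fin 5 → V, LeafM rel mk q3 q1 x ≤ C) :
    10 * ((O3 : ℝ) + (∑ a, ∑ b, ∑ c, w a * w b * w c * (t (C3 rel mk a b c) : ℝ))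
      + 2 * (∑ a, ∑ b, ∑ c, ∑ d, w a * w b * w c * w d *
          (g (C3 rel mk a b c) (C4 rel mk a b c d) : ℝ))) + 15 * (O1 : ℝ) ≤ (C : ℝ) := by
  have L3 := lower3m rel mk hc3 hc4 w hw h1 K3 q3 l3 B O3 t g hq3
  have L1 := lower1 rel hrel w hw h1 K1 q1 l1 B O1 hq1
  have f3 : ∀ i0 i1 i2 i3 i4 : Fin 5, Function.Bijective ![i0, i1, i2, i3, i4] →
      ∑ x : Fin 5 → V, (∏ i, w (x i)) * (F3m rel mk q3 (x i0) (x i1) (x i2) (x i3) (x i4) : ℝ)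
      = ∑ x : Fin 5 → V, (∏ i, w (x i)) * (F3m rel mk q3 (x 0) (x 1) (x 2) (x 3) (x 4) : ℝ) :=
    fun i0 i1 i2 i3 i4 hg =>
      psumw w (fun a b c d e => (F3m rel mk q3 a b c d e : ℝ)) ![i0, i1, i2, i3, i4] hg
  have f1 : ∀ i0 i1 i2 i3 i4 : Fin 5, Function.Bijective ![i0, i1, i2, i3, i4] →
      ∑ x : Fin 5 → V, (∏ i, w (x i)) * (F1 rel q1 (x i0) (x i1) (x i2) (x i3) (x i4) : ℝ)
      = ∑ x : Fin 5 → V, (∏ i, w (x i)) * (F1 rel q1 (x 0) (x 1) (x 2) (x 3) (x 4) : ℝ) :=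
    fun i0 i1 i2 i3 i4 hg =>
      psumw w (fun a b c d e => (F1 rel q1 a b c d e : ℝ)) ![i0, i1, i2, i3, i4] hg
  have hW : ∑ x : Fin 5 → V, (∏ i, w (x i)) * (C : ℝ) = C := by
    rw [convw w (fun _ _ _ _ _ => (C : ℝ))]
    simp only [mul_assoc, ← mul_sum, sum1 w h1]
  have key : ∑ x : Fin 5 → V, (∏ i, w (x i)) * (LeafM rel mk q3 q1 x : ℝ) ≤ C := by
    rw [← hW]
    refine sum_le_sum fun x _ => mul_le_mul_of_nonneg_left ?_ (prod_nonneg fun i _ => hw _)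
    exact_mod_cast hleaf x
  have e : ∑ x : Fin 5 → V, (∏ i, w (x i)) * (LeafM rel mk q3 q1 x : ℝ)
      = 10 * (∑ x : Fin 5 → V, (∏ i, w (x i)) * (F3m rel mk q3 (x 0) (x 1) (x 2) (x 3) (x 4) : ℝ))
      + 15 * (∑ x : Fin 5 → V, (∏ i, w (x i)) * (F1 rel q1 (x 0) (x 1) (x 2) (x 3) (x 4) : ℝ)) := by
    simp only [LeafM, Nat.cast_add, mul_add, sum_add_distrib]
    rw [f3 0 1 3 2 4 (by decide), f3 0 1 4 2 3 (by decide), f3 0 2 3 1 4 (by decide),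
      f3 0 2 4 1 3 (by decide), f3 0 3 4 1 2 (by decide), f3 1 2 3 0 4 (by decide),
      f3 1 2 4 0 3 (by decide), f3 1 3 4 0 2 (by decide), f3 2 3 4 0 1 (by decide),
      f1 0 1 3 2 4 (by decide), f1 0 1 4 2 3 (by decide),
      f1 1 0 2 3 4 (by decide), f1 1 0 3 2 4 (by decide), f1 1 0 4 2 3 (by decide),
      f1 2 0 1 3 4 (by decide), f1 2 0 3 1 4 (by decide), f1 2 0 4 1 3 (by decide),
      f1 3 0 1 2 4 (by decide), f1 3 0 2 1 4 (by decide), f1 3 0 4 1 2 (by decide),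
      f1 4 0 1 2 3 (by decide), f1 4 0 2 1 3 (by decide), f1 4 0 3 1 2 (by decide)]
    ring
  rw [e] at key
  linarith

end Pool.Agent.Helper35.FdM
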