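import Pool.Agent.H122R2.FdF.TaskA
import Pool.Agent.H122R2.FdF.TaskB
import Pool.Agent.Helper35.FdM.Defs

/-! Existence of locally optimal weights for marked oriented graphs. -/

set_option autoImplicit false
open Finset
open scoped Classical

namespace Pool.Agent.Helper35.FdM

open Pool.Agent.H122R2.FdF

section
variable {V : Type} (R : V → V → Prop) (K : V → V → V → Prop)

/-- the joint kernel -/
noncomputable def HK (a b c : V) : ℝ := H R a b c + kk K a b c

variable {K}

theorem kk12 (h : ∀ a b c, K a b c → K b a c) (a b c : V) : kk K a b c = kk K b a c := by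
  unfold kk
  exact if_congr ⟨h a b c, h b a c⟩ rfl rfl

theorem kk23 (h : ∀ a b c, K a b c → K a c b) (a b c : V) : kk K a b c = kk K a c b := by
  unfold kk
  exact if_congr ⟨h a b c, h a c b⟩ rfl rfl

theorem kk_nonneg (a b c : V) : 0 ≤ kk K a b c := by
  unfold kk; split_ifs <;> norm_num

theorem HK12 (h : ∀ a b c, K a b c → K b a c) (a b c : V) : HK R K a b c = HK R K b a c := by
  unfold HK; rw [H_swap12, kk12 h]

theorem HK23 (h : ∀ a b c, K a b c → K a c b) (a b c : V) : HK R K a b c = HK R K a c b := by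
  unfold HK; rw [H_swap23, kk23 h]

end

section
variable {V : Type} [Fintype V] (R : V → V → Prop) (K : V → V → V → Prop)

theorem TM_eq (w : V → ℝ) : TT (HK R K) w w w = T R w + Mk K w := by
  unfold TT T Mk HK
  simp only [mul_add, Finset.sum_add_distrib]

theorem LM_sum (x w : V → ℝ) : TT (HK R K) x w w = ∑ a, x a * (L R w a + mu K w a) := by
  unfold TT L mu HK
  refine Finset.sum_congr rfl fun a _ => ?_
  rw [← Finset.sum_add_distrib, Finset.mul_sum]
  refine Finset.sum_congr rfl fun b _ => ?_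
  rw [← Finset.sum_add_distrib, Finset.mul_sum]
  refine Finset.sum_congr rfl fun c _ => by ring

theorem QM_sum (x y w : V → ℝ) :
    TT (HK R K) x y w = ∑ a, ∑ b, x a * y b * (Qd R w a b + nu K w a b) := by
  unfold TT Qd nu HK
  refine Finset.sum_congr rfl fun a _ => Finset.sum_congr rfl fun b _ => ?_
  rw [← Finset.sum_add_distrib, Finset.mul_sum]
  refine Finset.sum_congr rfl fun c _ => by ring

variable {K}

theorem nu_symm (h : ∀ a b c, K a b c → K b a c) (w : V → ℝ) (u v : V) :
    nu K w u v = nu K w v u := by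
  unfold nu
  refine Finset.sum_congr rfl fun c _ => ?_
  rw [kk12 h]

theorem line_TM (h12 : ∀ a b c, K a b c → K b a c) (h23 : ∀ a b c, K a b c → K a c b)
    (w : V → ℝ) (u v : V) (t : ℝ) :
    T R (fun a => w a + t * dir u v a) + Mk K (fun a => w a + t * dir u v a)
      = T R w + Mk K w + (3 * t * ((L R w u + mu K w u) - (L R w v + mu K w v)) +
      3 * t ^ 2 * ((Qd R w u u + nu K w u u) + (Qd R w v v + nu K w v v)
        - 2 * (Qd R w u v + nu K w u v)) +
      t ^ 3 * TT (HK R K) (dir u v) (dir u v) (dir u v)) := by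
  rw [← TM_eq, TT_line (HK12 R h12) (HK23 R h23), LM_sum R K (dir u v) w, sum_dir,
    QM_sum R K (dir u v) (dir u v) w, sum_dir2, TM_eq, Qd_symm R w v u, nu_symm h12 w v u]
  ring

theorem continuous_TM : Continuous (fun w : V → ℝ => T R w + Mk K w) := by
  unfold T Mk
  fun_prop

theorem exists_optM (w : V → ℝ) (h12 : ∀ a b c, K a b c → K b a c)
    (h23 : ∀ a b c, K a b c → K a c b) (hw : ∀ v, 0 ≤ w v) (h1 : ∑ v, w v = 1) :
    ∃ (s : Finset V) (w' : s → ℝ),
      OptM (fun x y : s => R x y) (fun x y z : s => K x y z) w' ∧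
      T (fun x y : s => R x y) w' + Mk (fun x y z : s => K x y z) w' ≤ T R w + Mk K w := by
  obtain ⟨w0, hw0, hmin⟩ := (isCompact_stdSimplex ℝ V).exists_isMinOn ⟨w, hw, h1⟩
    (continuous_TM R (K := K)).continuousOn
  have hmin' : ∀ x ∈ stdSimplex ℝ V, T R w0 + Mk K w0 ≤ T R x + Mk K x := fun x hx => hmin hx
  obtain ⟨h0, hs⟩ := hw0
  set s : Finset V := Finset.univ.filter (fun v => w0 v ≠ 0) with hsdef
  have hpos : ∀ v : s, 0 < w0 v := fun v =>
    lt_of_le_of_ne (h0 v) (Ne.symm (Finset.mem_filter.1 v.2).2)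
  have hsum : ∀ g : V → ℝ, ∑ a : s, w0 a * g a = ∑ a, w0 a * g a := by
    intro g
    rw [Finset.sum_coe_sort s (fun a => w0 a * g a)]
    refine Finset.sum_subset (Finset.subset_univ _) fun a _ ha => ?_
    have : w0 a = 0 := by
      by_contra hne
      exact ha (by rw [hsdef]; simp [hne])
    rw [this, zero_mul]
  have hQ : ∀ u v : s, Qd (fun x y : s => R x y) (fun a : s => w0 a) u v
      + nu (fun x y z : s => K x y z) (fun a : s => w0 a) u v = Qd R w0 u v + nu K w0 u v := by
    intro u v
    have e1 : Qd (fun x y : s => R x y) (fun a : s => w0 a) u v = Qd R w0 u v :=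
      hsum (fun c => H R u v c)
    have e2 : nu (fun x y z : s => K x y z) (fun a : s => w0 a) u v = nu K w0 u v :=
      hsum (fun c => kk K u v c)
    rw [e1, e2]
  have hL : ∀ u : s, L (fun x y : s => R x y) (fun a : s => w0 a) u
      + mu (fun x y z : s => K x y z) (fun a : s => w0 a) u = L R w0 u + mu K w0 u := by
    intro u
    have e1 : L (fun x y : s => R x y) (fun a : s => w0 a) u
        + mu (fun x y z : s => K x y z) (fun a : s => w0 a) u =
        ∑ b : s, w0 b * ∑ c : s, w0 c * HK R K u b c := by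
      unfold L mu
      rw [← Finset.sum_add_distrib]
      refine Finset.sum_congr rfl fun b _ => ?_
      rw [← Finset.sum_add_distrib, Finset.mul_sum]
      refine Finset.sum_congr rfl fun c _ => ?_
      have e3 : H (fun x y : s => R x y) u b c = H R u b c := rfl
      have e4 : kk (fun x y z : s => K x y z) u b c = kk K u b c := rfl
      rw [e3, e4]
      unfold HK
      ring
    have e2 : L R w0 u + mu K w0 u = ∑ b, w0 b * ∑ c, w0 c * HK R K u b c := by
      unfold L mu
      rw [← Finset.sum_add_distrib]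
      refine Finset.sum_congr rfl fun b _ => ?_
      rw [← Finset.sum_add_distrib, Finset.mul_sum]
      refine Finset.sum_congr rfl fun c _ => ?_
      unfold HK
      ring
    rw [e1, e2, ← hsum]
    refine Finset.sum_congr rfl fun b _ => ?_
    rw [hsum (fun c => HK R K u b c)]
  have hT : T (fun x y : s => R x y) (fun a : s => w0 a)
      + Mk (fun x y z : s => K x y z) (fun a : s => w0 a) = T R w0 + Mk K w0 := by
    have e1 : T (fun x y : s => R x y) (fun a : s => w0 a)
        + Mk (fun x y z : s => K x y z) (fun a : s => w0 a) =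
        ∑ a : s, w0 a * (L (fun x y : s => R x y) (fun a : s => w0 a) a
          + mu (fun x y z : s => K x y z) (fun a : s => w0 a) a) := by
      rw [← TM_eq, LM_sum]
    rw [e1, ← TM_eq, LM_sum, ← hsum]
    refine Finset.sum_congr rfl fun b _ => ?_
    rw [hL]
  have hcond : ∀ u v : s, (L R w0 u + mu K w0 u) - (L R w0 v + mu K w0 v) = 0 ∧
      0 ≤ (Qd R w0 u u + nu K w0 u u) + (Qd R w0 v v + nu K w0 v v)
        - 2 * (Qd R w0 u v + nu K w0 u v) := by
    intro u v
    have hε : 0 < min (w0 u) (w0 v) := lt_min (hpos u) (hpos v)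
    refine cubic_cond (γ := TT (HK R K) (dir (u : V) v) (dir (u : V) v) (dir (u : V) v)) hε
      fun t ht => ?_
    have hmem : (fun a => w0 a + t * dir (u : V) v a) ∈ stdSimplex ℝ V := by
      refine ⟨fun a => dir_abs_le _ _ _ _ h0 _ (ht.trans (min_le_left _ _))
        (ht.trans (min_le_right _ _)), ?_⟩
      rw [Finset.sum_add_distrib, ← Finset.mul_sum, sum_dir1, hs]; ring
    have := hmin' _ hmem
    rw [line_TM R h12 h23] at this
    linarith
  refine ⟨s, fun a => w0 a, ⟨hpos, ?_, ?_, ?_⟩, ?_⟩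
  · have := hsum (fun _ => (1 : ℝ))
    simpa [hs] using this
  · intro v
    rw [hL, hT]
    have e : T R w0 + Mk K w0 = ∑ a : s, w0 a * (L R w0 a + mu K w0 a) := by
      rw [← TM_eq, LM_sum, ← hsum]
    have e2 : ∑ a : s, w0 a * (L R w0 a + mu K w0 a)
        = ∑ a : s, w0 a * (L R w0 v + mu K w0 v) := by
      refine Finset.sum_congr rfl fun a _ => ?_
      rw [sub_eq_zero.1 (hcond a v).1]
    rw [e, e2, hsum (fun _ => L R w0 v + mu K w0 v), ← Finset.sum_mul, hs, one_mul]
  · intro u v
    rw [hQ, hQ, hQ]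
    exact (hcond u v).2
  · rw [hT]
    exact hmin' _ ⟨hw, h1⟩

theorem no_path_rep (hO : Oriented R) (hK : Marks R K) (u c : V) : ¬ K u u c := by
  intro h
  have h1 := fun x y => hO x y
  rcases hK.path u u c h with h | h | h | h | h | h <;>
    obtain ⟨a, b, _, _⟩ := h
  · exact hO _ _ a a
  · exact hO _ _ a b
  · exact hO _ _ a a
  · exact hO _ _ a b
  · exact hO _ _ b b
  · exact hO _ _ b b

theorem nu_self (hO : Oriented R) (hK : Marks R K) (w : V → ℝ) (u : V) : nu K w u u = 0 := by
  unfold nu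
  refine Finset.sum_eq_zero fun c _ => ?_
  unfold kk
  rw [if_neg (no_path_rep R hO hK u c), mul_zero]

theorem nu_nonneg (w : V → ℝ) (hw : ∀ v, 0 ≤ w v) (u v : V) : 0 ≤ nu K w u v :=
  Finset.sum_nonneg fun c _ => mul_nonneg (hw c) (kk_nonneg _ _ _)

theorem mu_nonneg (w : V → ℝ) (hw : ∀ v, 0 ≤ w v) (v : V) : 0 ≤ mu K w v :=
  Finset.sum_nonneg fun b _ => Finset.sum_nonneg fun c _ =>
    mul_nonneg (mul_nonneg (hw b) (hw c)) (kk_nonneg _ _ _)

theorem Mk_nonneg (w : V → ℝ) (hw : ∀ v, 0 ≤ w v) : 0 ≤ Mk K w :=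
  Finset.sum_nonneg fun a _ => Finset.sum_nonneg fun b _ => Finset.sum_nonneg fun c _ =>
    mul_nonneg (mul_nonneg (mul_nonneg (hw a) (hw b)) (hw c)) (kk_nonneg _ _ _)

theorem soc_corM (hO : Oriented R) (hK : Marks R K) (w : V → ℝ) (h : OptM R K w) (u v : V)
    (huv : N R u v = 1) :
    f R w u + f R w v ≤ 2 * ∑ y, w y * ((1 - N R u y) * (1 - N R v y)) := by
  have hs := h.soc u v
  rw [nu_self R hO hK, nu_self R hO hK] at hs
  have hn := nu_nonneg (K := K) w (fun v => (h.pos v).le) u v
  have hd : ∀ x, Qd R w x x = 1 - f R w x := by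
    intro x
    unfold Qd f
    rw [← h.sum, ← sum_sub_distrib]
    refine sum_congr rfl fun c _ => ?_
    unfold H
    rw [N_self hO, A_self hO]
    have h3 := AAN hO x c
    have h1 := N_01 R x c
    have h2 := A_01 R c x
    have h4 : A R x c = 1 - N R x c - A R c x := by linarith
    rw [h4]
    rcases h1 with h1 | h1 <;> rcases h2 with h2 | h2 <;> rw [h1, h2] <;> ring
  have hq : 1 - ∑ y, w y * ((1 - N R u y) * (1 - N R v y)) ≤ Qd R w u v := by
    have e0 : 1 - ∑ y, w y * ((1 - N R u y) * (1 - N R v y))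
        = ∑ y, (w y - w y * ((1 - N R u y) * (1 - N R v y))) := by
      rw [sum_sub_distrib, h.sum]
    unfold Qd
    rw [e0]
    refine sum_le_sum fun c _ => ?_
    have hA1 := AAN hO u v
    have p1 := A_nonneg R u v
    have p2 := A_nonneg R v u
    have a1 : A R u v = 0 := by linarith
    have a2 : A R v u = 0 := by linarith
    have e : H R u v c = N R u c + N R v c * (1 - N R u c) + A R c u * A R c v := by
      unfold H
      rw [huv, a1, a2]; ring
    have p3 := mul_nonneg (A_nonneg R c u) (A_nonneg R c v)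
    have hwc := (h.pos c).le
    have := mul_nonneg hwc p3
    rw [e]
    have e2 : w c * (N R u c + N R v c * (1 - N R u c) + A R c u * A R c v)
        = w c - w c * ((1 - N R u c) * (1 - N R v c)) + w c * (A R c u * A R c v) := by ring
    rw [e2]
    linarith
  rw [hd u, hd v] at hs
  linarith

end

end Pool.Agent.Helper35.FdM
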