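import Pool.Agent.H122R2.FdF.TaskK2
import Pool.Agent.Helper35.FdM.Defs
import Pool.Agent.Helper35.FdM.K1M
import Pool.Agent.Helper35.FdM.FinM1
import Pool.Agent.Helper35.FdM.FinM2
import Pool.Agent.Helper35.FdM.OptEx

/-! The two flag certificates for marked structures. -/

set_option autoImplicit false
open Finset
open scoped Classical

namespace Pool.Agent.Helper35.FdM

open Pool.Agent.H122R2.FdF

/-- natural number version of the indicator of a marked triple -/
noncomputable def mkn {V : Type} (K : V → V → V → Prop) (a b c : V) : ℕ := if K a b c then 1 else 0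

section
variable {V : Type} (R : V → V → Prop) (K : V → V → V → Prop)

theorem mkn_cast (a b c : V) : ((mkn K a b c : ℕ) : ℝ) = kk K a b c := by
  unfold mkn kk; split_ifs <;> norm_num

theorem mkn_le (a b c : V) : mkn K a b c ≤ 1 := by
  unfold mkn; split_ifs <;> norm_num

variable {R K}

theorem mkn12 (hK : Marks R K) (a b c : V) : mkn K a b c = mkn K b a c := by
  unfold mkn
  exact if_congr ⟨hK.s12 a b c, hK.s12 b a c⟩ rfl rfl

theorem mkn23 (hK : Marks R K) (a b c : V) : mkn K a b c = mkn K a c b := by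
  unfold mkn
  exact if_congr ⟨hK.s23 a b c, hK.s23 a c b⟩ rfl rfl

/-- relation codes of an oriented graph -/
theorem rl_of (hO : Oriented R) {x y : V} (h : R x y) : rl R x y = 1 ∧ rl R y x = 2 := by
  have h2 := hO x y h
  unfold rl
  rw [if_pos h, if_neg h2, if_pos h]
  exact ⟨rfl, rfl⟩

theorem rl_none {x y : V} (h : ¬ R x y) (h2 : ¬ R y x) : rl R x y = 0 := by
  unfold rl
  rw [if_neg h, if_neg h2]

theorem pth_vals : pth (cd 1 0 1) = 1 ∧ pth (cd 0 1 2) = 1 ∧ pth (cd 2 1 0) = 1 ∧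
    pth (cd 0 2 1) = 1 ∧ pth (cd 1 2 0) = 1 ∧ pth (cd 2 0 2) = 1 := by decide

/-- marks are on paths only, in terms of codes -/
theorem mkOk (hO : Oriented R) (hK : Marks R K) : MkOk (rl R) (mkn K) := by
  intro a b c
  by_cases h : K a b c
  · right
    refine ⟨by unfold mkn; rw [if_pos h], ?_⟩
    obtain ⟨p1, p2, p3, p4, p5, p6⟩ := pth_vals
    rcases hK.path a b c h with h | h | h | h | h | h <;> obtain ⟨r1, r2, n1, n2⟩ := h
    · -- a → b → c
      rw [(rl_of hO r1).1, (rl_of hO r2).1, rl_none n1 n2]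
      exact p1
    · -- a → c → b
      rw [(rl_of hO r1).1, (rl_of hO r2).2, rl_none n1 n2]
      exact p2
    · -- b → a → c
      rw [(rl_of hO r1).2, (rl_of hO r2).1, rl_none n1 n2]
      exact p3
    · -- b → c → a
      rw [(rl_of hO r1).1, (rl_of hO r2).2, rl_none n2 n1]
      exact p4
    · -- c → a → b
      rw [(rl_of hO r1).2, (rl_of hO r2).1, rl_none n2 n1]
      exact p5
    · -- c → b → a
      rw [(rl_of hO r1).2, (rl_of hO r2).2, rl_none n2 n1]
      exact p6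
  · left
    unfold mkn; rw [if_neg h]

/-- every induced 4-cycle has a mark, in terms of codes -/
theorem covOk (hO : Oriented R) (hK : Marks R K) : CovOk (rl R) (mkn K) := by
  intro a b c d
  have key : ∀ a b c d, R a b → R b c → R c d → R d a → ¬ R a c → ¬ R c a → ¬ R b d → ¬ R d b →
      1 ≤ mkn K a b c + (mkn K b c d + (mkn K c d a + mkn K d a b)) := by
    intro a b c d h1 h2 h3 h4 h5 h6 h7 h8
    rcases hK.cov a b c d h1 h2 h3 h4 h5 h6 h7 h8 with h | h | h | h <;>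
    · have e : mkn K _ _ _ = 1 := if_pos h
      omega
  have s12 := mkn12 hK
  have s23 := mkn23 hK
  have perm : ∀ x y z, mkn K y x z = mkn K x y z ∧ mkn K x z y = mkn K x y z ∧
      mkn K z y x = mkn K x y z ∧ mkn K y z x = mkn K x y z ∧ mkn K z x y = mkn K x y z := by
    intro x y z
    have e1 := s12 x y z
    have e2 := s23 x y z
    have e3 := s23 y x z
    have e4 := s12 x z y
    have e5 := s23 z x y
    refine ⟨e1.symm, e2.symm, ?_, ?_, ?_⟩ <;> omega
  have p1 := perm a b c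
  have p2 := perm a b d
  have p3 := perm a c d
  have p4 := perm b c d
  rcases cy4_table (Pool.Agent.H122R2.FdF.rl_lt R a b) (Pool.Agent.H122R2.FdF.rl_lt R a c)
    (Pool.Agent.H122R2.FdF.rl_lt R a d) (Pool.Agent.H122R2.FdF.rl_lt R b c)
    (Pool.Agent.H122R2.FdF.rl_lt R b d) (Pool.Agent.H122R2.FdF.rl_lt R c d) with
    h0 | ⟨h1, h2, h3, h4, h5, h6⟩ | ⟨h1, h2, h3, h4, h5, h6⟩ | ⟨h1, h2, h3, h4, h5, h6⟩ |
      ⟨h1, h2, h3, h4, h5, h6⟩ | ⟨h1, h2, h3, h4, h5, h6⟩ | ⟨h1, h2, h3, h4, h5, h6⟩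
  · exact Or.inl h0
  · right
    have := key a b c d (rl1 h1) (rl1 h4) (rl1 h6) (rl2 h3) (rl0 h2).1 (rl0 h2).2
      (rl0 h5).1 (rl0 h5).2
    omega
  · right
    have := key a d c b (rl1 h3) (rl2 h6) (rl2 h4) (rl2 h1) (rl0 h2).1 (rl0 h2).2
      (rl0 h5).2 (rl0 h5).1
    omega
  · right
    have := key a b d c (rl1 h1) (rl1 h5) (rl2 h6) (rl2 h2) (rl0 h3).1 (rl0 h3).2
      (rl0 h4).1 (rl0 h4).2
    omega
  · right
    have := key a c d b (rl1 h2) (rl1 h6) (rl2 h5) (rl2 h1) (rl0 h3).1 (rl0 h3).2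
      (rl0 h4).2 (rl0 h4).1
    omega
  · right
    have := key a c b d (rl1 h2) (rl2 h4) (rl1 h5) (rl2 h3) (rl0 h1).1 (rl0 h1).2
      (rl0 h6).1 (rl0 h6).2
    omega
  · right
    have := key a d b c (rl1 h3) (rl2 h5) (rl1 h4) (rl2 h2) (rl0 h1).1 (rl0 h1).2
      (rl0 h6).2 (rl0 h6).1
    omega

theorem C3_lt (hO : Oriented R) (a b c : V) : C3 (rl R) (mkn K) a b c < 54 := by
  have h1 := Pool.Agent.H122R2.FdF.rl_lt R a b
  have h2 := Pool.Agent.H122R2.FdF.rl_lt R a c
  have h3 := Pool.Agent.H122R2.FdF.rl_lt R b c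
  have h4 := mkn_le K a b c
  show rl R a b + (3 * rl R a c + 9 * rl R b c) + 27 * mkn K a b c < 54
  omega

theorem C4_lt (hO : Oriented R) (a b c d : V) : C4 (rl R) (mkn K) a b c d < 216 := by
  have h1 := Pool.Agent.H122R2.FdF.rl_lt R a d
  have h2 := Pool.Agent.H122R2.FdF.rl_lt R b d
  have h3 := Pool.Agent.H122R2.FdF.rl_lt R c d
  have h4 := mkn_le K a b d
  have h5 := mkn_le K a c d
  have h6 := mkn_le K b c d
  show rl R a d + (3 * rl R b d + 9 * rl R c d)
    + 27 * (mkn K a b d + (2 * mkn K a c d + 4 * mkn K b c d)) < 216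
  omega

theorem C3_mod (a b c : V) : C3 (rl R) (mkn K) a b c % 27 = c3 (rl R) a b c := by
  have h1 := Pool.Agent.H122R2.FdF.rl_lt R a b
  have h2 := Pool.Agent.H122R2.FdF.rl_lt R a c
  have h3 := Pool.Agent.H122R2.FdF.rl_lt R b c
  show (rl R a b + (3 * rl R a c + 9 * rl R b c) + 27 * mkn K a b c) % 27
    = rl R a b + (3 * rl R a c + 9 * rl R b c)
  omega

theorem C3_div (a b c : V) : C3 (rl R) (mkn K) a b c / 27 = mkn K a b c := by
  have h1 := Pool.Agent.H122R2.FdF.rl_lt R a b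
  have h2 := Pool.Agent.H122R2.FdF.rl_lt R a c
  have h3 := Pool.Agent.H122R2.FdF.rl_lt R b c
  show (rl R a b + (3 * rl R a c + 9 * rl R b c) + 27 * mkn K a b c) / 27 = mkn K a b c
  omega

theorem C4_mod (a b c d : V) : C4 (rl R) (mkn K) a b c d % 27 = c4 (rl R) a b c d := by
  have h1 := Pool.Agent.H122R2.FdF.rl_lt R a d
  have h2 := Pool.Agent.H122R2.FdF.rl_lt R b d
  have h3 := Pool.Agent.H122R2.FdF.rl_lt R c d
  show (rl R a d + (3 * rl R b d + 9 * rl R c d)
    + 27 * (mkn K a b d + (2 * mkn K a c d + 4 * mkn K b c d))) % 27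
    = rl R a d + (3 * rl R b d + 9 * rl R c d)
  omega

theorem mkc_C3 (hO : Oriented R) (hK : Marks R K) (a b c : V) :
    mkc (C3 (rl R) (mkn K) a b c) = mkn K a b c := by
  have h := mkOk hO hK a b c
  show C3 (rl R) (mkn K) a b c / 27 * pth (C3 (rl R) (mkn K) a b c % 27) = mkn K a b c
  rw [C3_div, C3_mod]
  rcases h with h | ⟨h, h2⟩
  · rw [h, zero_mul]
  · unfold c3
    rw [h, h2]

end

theorem lin3m {V : Type} [Fintype V] (w : V → ℝ) (x y z : ℝ) (F G K J : V → V → V → ℝ) :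
    ∑ a, ∑ b, ∑ c, w a * w b * w c * (x * F a b c - (y * G a b c + z * (K a b c + J a b c))) =
      x * (∑ a, ∑ b, ∑ c, w a * w b * w c * F a b c)
        - (y * (∑ a, ∑ b, ∑ c, w a * w b * w c * G a b c)
          + z * ((∑ a, ∑ b, ∑ c, w a * w b * w c * K a b c)
            + ∑ a, ∑ b, ∑ c, w a * w b * w c * J a b c)) := by
  simp only [mul_sum, ← sum_sub_distrib, ← sum_add_distrib]
  refine sum_congr rfl fun a _ => sum_congr rfl fun b _ => sum_congr rfl fun c _ => ?_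
  ring

theorem lin4m {V : Type} [Fintype V] (w : V → ℝ) (x x' y z : ℝ) (F F' G K J : V → V → V → ℝ) :
    ∑ a, ∑ b, ∑ c, w a * w b * w c * (x * F a b c + x' * F' a b c
        - (y * G a b c + z * (K a b c + J a b c))) =
      x * (∑ a, ∑ b, ∑ c, w a * w b * w c * F a b c)
        + x' * (∑ a, ∑ b, ∑ c, w a * w b * w c * F' a b c)
        - (y * (∑ a, ∑ b, ∑ c, w a * w b * w c * G a b c)
          + z * ((∑ a, ∑ b, ∑ c, w a * w b * w c * K a b c)
            + ∑ a, ∑ b, ∑ c, w a * w b * w c * J a b c)) := by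
  simp only [mul_sum, ← sum_sub_distrib, ← sum_add_distrib]
  refine sum_congr rfl fun a _ => sum_congr rfl fun b _ => sum_congr rfl fun c _ => ?_
  ring

section
variable {V : Type} [Fintype V] {R : V → V → Prop} {K : V → V → V → Prop}

theorem cert1M (w : V → ℝ) (hO : Oriented R) (hK : Marks R K) (hw : ∀ v, 0 ≤ w v)
    (h1 : ∑ v, w v = 1) (hT : T R w + Mk K w < 4 / 9) :
    M R w - 1 / 3 + 15 * (Em2 R w - p0 R w) ≤ 0.0131 := by
  have hb := flag_boundM (rl R) (mkn K) (C3_lt hO) (C4_lt hO) (rl_pr R hO) w hw h1 51 15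
    28065243204196437 C1.q3 C1.l3 C1.q1 C1.l1
    33554432 1125899906842624 1125899906842624 C1.t C1.g C1.q3_eq C1.q1_eq
    (leafM_all C1.q3 C1.q1 _ C1.chk_all (rl_pr R hO) (mkn12 hK) (mkn23 hK) (mkOk hO hK)
      (covOk hO hK))
  have ht : ∑ a, ∑ b, ∑ c, w a * w b * w c * (C1.t (C3 (rl R) (mkn K) a b c) : ℝ)
      = 4123168604160 * (3 * (Em2 R w - p0 R w))
        - (274877906944 * (3 * (1 - M R w)) + 17294511859165 * (T R w + Mk K w)) := by
    rw [← sum_p1c R w hO h1, ← sum_adjc R w hO h1, ← sum_pc R w hO h1]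
    unfold Mk
    rw [← lin3m]
    refine sum_congr rfl fun a _ => sum_congr rfl fun b _ => sum_congr rfl fun c _ => ?_
    unfold C1.t
    rw [C3_mod, mkc_C3 hO hK, ← mkn_cast]
    push_cast
    rfl
  have hg : ∑ a, ∑ b, ∑ c, ∑ d, w a * w b * w c * w d *
          (C1.g (C3 (rl R) (mkn K) a b c) (C4 (rl R) (mkn K) a b c d) : ℝ) = 0 := by
    unfold C1.g
    simp
  rw [ht, hg] at hb
  push_cast at hb
  linarith

theorem cert2M (w : V → ℝ) (hO : Oriented R) (hK : Marks R K) (hw : ∀ v, 0 ≤ w v)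
    (h1 : ∑ v, w v = 1) (hT : T R w + Mk K w < 4 / 9) :
    10 * (Ef2 R w - 0.329 * (1 - M R w) + 0.329 ^ 2) + 6 * (Em2 R w - p0 R w) + k4 R w
      ≤ 0.00225 := by
  have hb := flag_boundM (rl R) (mkn K) (C3_lt hO) (C4_lt hO) (rl_pr R hO) w hw h1 51 15
    28120551540926550 C2.q3 C2.l3 C2.q1 C2.l1
    33554432 1125899906842624 1125899906842624 C2.t C2.g C2.q3_eq C2.q1_eq
    (leafM_all C2.q3 C2.q1 _ C2.chk_all (rl_pr R hO) (mkn12 hK) (mkn23 hK) (mkOk hO hK)
      (covOk hO hK))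
  have ht : ∑ a, ∑ b, ∑ c, w a * w b * w c * (C2.t (C3 (rl R) (mkn K) a b c) : ℝ)
      = 2147483648000 * (3 * Ef2 R w) + 1288490188800 * (3 * (Em2 R w - p0 R w))
        - (706522120192 * (3 * (1 - M R w)) + 4497094782080 * (T R w + Mk K w)) := by
    rw [← sum_p1c R w hO h1, ← sum_adjc R w hO h1, ← sum_pc R w hO h1, ← sum_chc R w hO h1]
    unfold Mk
    rw [← lin4m]
    refine sum_congr rfl fun a _ => sum_congr rfl fun b _ => sum_congr rfl fun c _ => ?_
    unfold C2.t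
    rw [C3_mod, mkc_C3 hO hK, ← mkn_cast]
    push_cast
    rfl
  have hg : ∑ a, ∑ b, ∑ c, ∑ d, w a * w b * w c * w d *
          (C2.g (C3 (rl R) (mkn K) a b c) (C4 (rl R) (mkn K) a b c d) : ℝ)
            = 322122547200 * k4 R w := by
    rw [← sum_k4c R w hO h1]
    simp only [mul_sum]
    refine sum_congr rfl fun a _ => sum_congr rfl fun b _ => sum_congr rfl fun c _ =>
      sum_congr rfl fun d _ => ?_
    unfold C2.g
    rw [C3_mod, C4_mod]
    push_cast
    ring
  rw [ht, hg] at hb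
  push_cast at hb
  linarith

end

end Pool.Agent.Helper35.FdM
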