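import Pool.Agent.Helper35.FdM.Deriv

/-! The derivative of the functional in the chosen direction is at least `y ^ 2 / 2`. -/

set_option autoImplicit false
open Finset

namespace Pool.Agent.Helper35.FdM

theorem ratio_exists (m z : ℝ) (hm : 0 ≤ m) (hz : 0 < z) :
    ∃ r : ℝ, 0 ≤ r ∧ r ≤ 1 ∧ r * m = min m z ∧ (m ≤ z → r = 1) := by
  rcases le_or_gt m z with h | h
  · exact ⟨1, by norm_num, le_rfl, by rw [min_eq_left h, one_mul], fun _ => rfl⟩
  · have hm' : 0 < m := hz.trans h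
    refine ⟨z / m, div_nonneg hz.le hm, (div_le_one hm').mpr h.le, ?_, fun h2 => ?_⟩
    · rw [min_eq_right h.le]; field_simp
    · linarith

theorem sc1 (a d p0 ph ρ y z P : ℝ) (h1 : 0 ≤ ph) (h2 : ph ≤ ρ * p0) (h3 : 0 ≤ p0) (h4 : p0 ≤ a)
    (h5 : a ≤ d) (h6 : y - d ≤ P) (h7 : 0 ≤ P) (h8 : y ≤ z) (h9 : ρ * a = min a y)
    (h10 : a ≤ y → ρ = 1) (h11 : 0 ≤ ρ) (h12 : ρ ≤ 1) :
    (y - ρ * a) * ph ≤ ρ * (p0 * P) + min (d - a + p0) z * ph - ρ * (p0 * ph) := by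
  rcases le_or_gt a y with h | h
  · have hr := h10 h
    subst hr
    rcases le_or_gt (d - a + p0) z with h' | h'
    · rw [min_eq_left h']
      nlinarith [mul_nonneg h1 (sub_nonneg.mpr h6), mul_nonneg h7 (sub_nonneg.mpr h2)]
    · rw [min_eq_right h'.le]
      nlinarith [mul_nonneg h1 (sub_nonneg.mpr h8), mul_nonneg h1 (sub_nonneg.mpr h4),
        mul_nonneg h3 h7]
  · rw [min_eq_right h.le] at h9
    have hp : ρ * p0 ≤ y := by
      rw [← h9]; exact mul_le_mul_of_nonneg_left h4 h11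
    have hp2 : ρ * p0 ≤ p0 := mul_le_of_le_one_left h3 h12
    have hm : ρ * p0 ≤ min (d - a + p0) z := le_min (by linarith) (by linarith)
    have := mul_nonneg h1 (sub_nonneg.mpr hm)
    have h13 := mul_nonneg h11 (mul_nonneg h3 h7)
    rw [h9]
    nlinarith

theorem sc2 (y z e Pt θ : ℝ) (hz : 0 < z) (hθ : θ * z = 1) (hyz : y ≤ z) (h : Pt ≤ e * z) :
    y ^ 2 / 2 ≤ 1 / 2 * (y - e) ^ 2 + (e * z - Pt) + θ * ((y - e) * Pt) + θ ^ 2 / 2 * Pt ^ 2 := by
  have hP : Pt = z * (θ * Pt) := by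
    have : z * (θ * Pt) = (θ * z) * Pt := by ring
    rw [this, hθ, one_mul]
  set τ := θ * Pt with hτ
  have he : 0 ≤ e - τ := by
    have h1 : z * τ ≤ z * e := by rw [← hP]; linarith
    have := le_of_mul_le_mul_left h1 hz
    linarith
  have e1 : θ * ((y - e) * Pt) = (y - e) * τ := by rw [hτ]; ring
  have e2 : θ ^ 2 / 2 * Pt ^ 2 = τ ^ 2 / 2 := by rw [hτ]; ring
  rw [e1, e2, hP]
  have h3 := mul_nonneg he (sub_nonneg.mpr hyz)
  nlinarith [sq_nonneg (e - τ)]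

section
variable {α β : Type} [Fintype α] [Fintype β] {t : α → β → ℝ} {adU : α → α → ℝ}
    {adW : β → β → ℝ} {k1 : α → β → β → ℝ} {k2 : β → α → α → ℝ}

theorem dPhi_core [DecidableEq α] (G : Game t adU adW k1 k2) (us : α) (w : α → ℝ) (v : β → ℝ)
    (hw : ∀ u, 0 ≤ w u) (hv : ∀ x, 0 ≤ v x) (C y0 z0 y z : ℝ)
    (hus : ∀ u, 0 < w u → ∑ x, v x * t us x ≤ ∑ x, v x * t u x)
    (hy : y = y0 + ∑ x, v x) (hz : z = z0 + ∑ u, w u) (hy0 : 0 < y) (hyz : y ≤ z) (hC : z < C) :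
    ∃ (q : α → ℝ) (γ : ℝ), 0 ≤ γ ∧ γ ≤ 1 / z ∧ (∀ u, 0 ≤ q u) ∧
      (∃ c : ℝ, 0 ≤ c ∧ ∀ u, q u ≤ c * w u) ∧ ∑ u, q u < 1 / 2 ∧
      γ * (∑ x, v x * t us x) ≤ y / z ∧
      y ^ 2 / 2 ≤ dPhi t adU adW k1 k2 C y0 z0 w v (fun u => (if u = us then 1 else 0) + q u)
        (fun x => γ * (v x * t us x)) := by
  have hz0 : 0 < z := hy0.trans_le hyz
  have hC0 : 0 < C := hz0.trans hC
  have hvt : ∀ x, 0 ≤ v x * t us x := fun x => mul_nonneg (hv x) (G.t0 us x)
  have hvs : ∀ x, 0 ≤ v x * (1 - t us x) := fun x => mul_nonneg (hv x) (G.s0 us x)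
  obtain ⟨a, ha⟩ : ∃ a, a = ∑ x, v x * t us x := ⟨_, rfl⟩
  have ha0 : 0 ≤ a := by rw [ha]; exact sum_nonneg fun x _ => hvt x
  obtain ⟨ρ, hρ0, hρ1, hρa, hρ2⟩ := ratio_exists a y ha0 hy0
  -- out-degrees
  have hD0 : ∀ x, 0 ≤ ∑ u, w u * (1 - t u x) := fun x =>
    sum_nonneg fun u _ => mul_nonneg (hw u) (G.s0 u x)
  choose ω hω0 hω1 hωD _ using fun x => ratio_exists (∑ u, w u * (1 - t u x)) z (hD0 x) hz0
  have hp'0 : ∀ u, 0 ≤ ∑ x, v x * (1 - t us x) * t u x := fun u =>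
    sum_nonneg fun x _ => mul_nonneg (hvs x) (G.t0 u x)
  choose r hr0 hr1 hrp _ using fun u => ratio_exists (∑ x, v x * (1 - t us x) * t u x) z
    (hp'0 u) hz0
  obtain ⟨b, hb⟩ : ∃ b : β → ℝ, ∀ x, b x = ρ * ω x * (v x * t us x) := ⟨_, fun _ => rfl⟩
  have hb0 : ∀ x, 0 ≤ b x := fun x => by
    rw [hb]; exact mul_nonneg (mul_nonneg hρ0 (hω0 x)) (hvt x)
  have hb1 : ∀ x, b x ≤ ρ * (v x * t us x) := fun x => by
    rw [hb]
    have := mul_le_mul_of_nonneg_right (hω1 x) (mul_nonneg hρ0 (hvt x))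
    linarith
  obtain ⟨et, het⟩ : ∃ e, e = ρ * a := ⟨_, rfl⟩
  have het0 : 0 ≤ et := by rw [het]; exact mul_nonneg hρ0 ha0
  have hety : et ≤ y := by rw [het, hρa]; exact min_le_right _ _
  have hp : ∀ u, ∑ x, b x * (1 - t u x) ≤ et := fun u => by
    rw [het, ha, mul_sum]
    refine sum_le_sum fun x _ => ?_
    exact (mul_le_of_le_one_right (hb0 x) (G.s1 u x)).trans (hb1 x)
  have hph0 : ∀ u, 0 ≤ ∑ x, b x * (1 - t u x) := fun u =>
    sum_nonneg fun x _ => mul_nonneg (hb0 x) (G.s0 u x)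
  obtain ⟨θ, hθ⟩ : ∃ θ : ℝ, θ = 1 / z := ⟨_, rfl⟩
  have hθ0 : 0 < θ := by rw [hθ]; positivity
  have hθz : θ * z = 1 := by rw [hθ]; field_simp
  have hbD : ∀ x, b x * (∑ u, w u * (1 - t u x)) = ρ * (v x * t us x) *
      min (∑ u, w u * (1 - t u x)) z := fun x => by
    rw [← hωD x, hb x]; ring
  have hd : ∀ x, b x * (∑ u, w u * (1 - t u x)) ≤ (ρ * z) * (v x * t us x) := fun x => by
    rw [hbD x]
    have := mul_le_mul_of_nonneg_left (min_le_right (∑ u, w u * (1 - t u x)) z)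
      (mul_nonneg hρ0 (hvt x))
    linarith
  have h1 : ∀ u, θ * (r u * ∑ x, v x * (1 - t us x) * t u x) ≤ 1 := fun u => by
    rw [hrp u, ← hθz]
    exact mul_le_mul_of_nonneg_left (min_le_right _ _) hθ0.le
  have h2 : ∀ u, θ * ∑ x, b x * (1 - t u x) ≤ 1 := fun u => by
    have h := mul_le_mul_of_nonneg_left ((hp u).trans (hety.trans hyz)) hθ0.le
    rw [hθz] at h
    exact h
  have h3 : ∀ x, θ * (b x * ∑ u, w u * (1 - t u x)) ≤ ρ * (v x * t us x) := fun x => by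
    have := mul_le_mul_of_nonneg_left (hd x) hθ0.le
    have e : θ * (ρ * z * (v x * t us x)) = (θ * z) * (ρ * (v x * t us x)) := by ring
    rw [e, hθz, one_mul] at this
    exact this
  have h3' : ∀ x, θ * (b x * ∑ u, w u * (1 - t u x)) ≤ v x * t us x := fun x =>
    (h3 x).trans (mul_le_of_le_one_left (hvt x) hρ1)
  have c1 : ∀ u, θ ^ 2 * ∑ x, b x * (1 - t u x) ≤ θ := fun u => by
    have := mul_le_mul_of_nonneg_left (h2 u) hθ0.le
    nlinarith
  have c2 : ∀ x, θ ^ 2 * (b x * ∑ u, w u * (1 - t u x)) ≤ θ * (v x * t us x) := fun x => by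
    have := mul_le_mul_of_nonneg_left (h3' x) hθ0.le
    nlinarith
  -- marks and packings
  have m1 := marks1 G us w v hw hv θ ρ hθ0.le hρ0 hρ1 b r hb0 hb1 hr0 hr1 h1 h2 h3'
  have i1 := ideal1 G us w v hw hv θ ρ et hθ0.le b r hb0 hr0 hr1 h1 hp h3
  have m2 := marks2 G us w v hw hv θ (θ ^ 2) ρ hθ0.le (sq_nonneg θ) b hb0 hb1 c1 c2
  have i2 := ideal2 G us w v hw hv (ρ * z) et (mul_nonneg hρ0 hz0.le) b hb0 hp hd
  -- the direction
  obtain ⟨σ, hσ⟩ : ∃ σ, σ = θ ^ 2 * et / (2 * C) := ⟨_, rfl⟩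
  have hσ0 : 0 ≤ σ := by rw [hσ]; positivity
  have hσC : C * σ = θ ^ 2 * et / 2 := by rw [hσ]; field_simp
  obtain ⟨q, hq⟩ : ∃ q : α → ℝ, ∀ u, q u = σ * (w u * ∑ x, b x * (1 - t u x)) := ⟨_, fun _ => rfl⟩
  have hq0 : ∀ u, 0 ≤ q u := fun u => by
    rw [hq]; exact mul_nonneg hσ0 (mul_nonneg (hw u) (hph0 u))
  have hγ0 : 0 ≤ θ * ρ := mul_nonneg hθ0.le hρ0
  have dg := dPhi_ge G us w v hw hv C y0 z0 (θ * ρ) hγ0 q hq0
  -- sums
  obtain ⟨Pt, hPt⟩ : ∃ X, X = ∑ u, w u * ∑ x, b x * (1 - t u x) := ⟨_, rfl⟩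
  obtain ⟨B, hB⟩ : ∃ B, B = ∑ x, v x * t us x * min (∑ u, w u * (1 - t u x)) z := ⟨_, rfl⟩
  have hPtB : Pt = ρ * B := by
    rw [hPt, hB, mul_sum]
    have : ∀ x, ρ * (v x * t us x * min (∑ u, w u * (1 - t u x)) z)
        = ∑ u, w u * (b x * (1 - t u x)) := by
      intro x
      have e := hbD x
      rw [mul_sum] at e
      rw [show ρ * (v x * t us x * min (∑ u, w u * (1 - t u x)) z)
        = ρ * (v x * t us x) * min (∑ u, w u * (1 - t u x)) z by ring, ← e]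
      exact sum_congr rfl fun u _ => by ring
    simp only [this]
    rw [sum_comm]
    exact sum_congr rfl fun u _ => by rw [mul_sum]
  have hBz : B ≤ z * a := by
    rw [hB, ha, mul_sum]
    refine sum_le_sum fun x _ => ?_
    have := mul_le_mul_of_nonneg_left (min_le_right (∑ u, w u * (1 - t u x)) z) (hvt x)
    linarith
  have hPtz : Pt ≤ et * z := by
    rw [hPtB, het]
    have := mul_le_mul_of_nonneg_left hBz hρ0
    linarith
  have hPt0 : 0 ≤ Pt := by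
    rw [hPt]; exact sum_nonneg fun u _ => mul_nonneg (hw u) (hph0 u)
  have hsumq : ∑ u, q u = σ * Pt := by
    rw [hPt, mul_sum]
    exact sum_congr rfl fun u _ => hq u
  -- out-degree of us
  have hPus : max (y0 + ∑ x, v x * (1 - t us x)) 0 = y - et := by
    have e : y0 + ∑ x, v x * (1 - t us x) = y - a := by
      rw [hy, ha]
      have : ∑ x, v x * (1 - t us x) = (∑ x, v x) - ∑ x, v x * t us x := by
        rw [← sum_sub_distrib]
        exact sum_congr rfl fun x _ => by ring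
      rw [this]; ring
    rw [e, het, hρa]
    rcases le_total a y with h | h
    · rw [min_eq_left h, max_eq_left (by linarith)]
    · rw [min_eq_right h, max_eq_right (by linarith)]; ring
  -- demands of the out-neighbours
  have hQ : et * z - Pt ≤ ∑ x, v x * t us x * max (z0 + ∑ u, w u * t u x) 0 := by
    have e : ∀ x, max (z0 + ∑ u, w u * t u x) 0 = z - min (∑ u, w u * (1 - t u x)) z := by
      intro x
      have e1 : z0 + ∑ u, w u * t u x = z - ∑ u, w u * (1 - t u x) := by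
        rw [hz]
        have : ∑ u, w u * (1 - t u x) = (∑ u, w u) - ∑ u, w u * t u x := by
          rw [← sum_sub_distrib]
          exact sum_congr rfl fun x _ => by ring
        rw [this]; ring
      rw [e1]
      rcases le_total (∑ u, w u * (1 - t u x)) z with h | h
      · rw [min_eq_left h, max_eq_left (by linarith)]
      · rw [min_eq_right h, max_eq_right (by linarith)]; ring
    have e2 : ∑ x, v x * t us x * max (z0 + ∑ u, w u * t u x) 0 = z * a - B := by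
      rw [hB, ha, mul_sum, ← sum_sub_distrib]
      refine sum_congr rfl fun x _ => ?_
      rw [e x]; ring
    rw [e2, hPtB, het]
    nlinarith [mul_nonneg (sub_nonneg.mpr hρ1) (sub_nonneg.mpr hBz)]
  -- pointwise inequality
  have hX : (y - et) * Pt ≤
      ρ * (∑ u, w u * (∑ x, v x * t us x * (1 - t u x)) * max (y0 + ∑ x, v x * (1 - t u x)) 0)
      + (∑ u, w u * (∑ x, b x * (1 - t u x)) * (r u * ∑ x, v x * (1 - t us x) * t u x))
      - ρ * (∑ u, w u * (∑ x, v x * t us x * (1 - t u x)) * ∑ x, b x * (1 - t u x)) := by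
    rw [hPt, mul_sum, mul_sum, mul_sum, ← sum_add_distrib, ← sum_sub_distrib]
    refine sum_le_sum fun u _ => ?_
    rcases eq_or_lt_of_le (hw u) with h0 | hpos
    · rw [← h0]; simp
    · have hdu := hus u hpos
      rw [← ha] at hdu
      have hp0 : 0 ≤ ∑ x, v x * t us x * (1 - t u x) :=
        sum_nonneg fun x _ => mul_nonneg (hvt x) (G.s0 u x)
      have hp0a : ∑ x, v x * t us x * (1 - t u x) ≤ a := by
        rw [ha]
        exact sum_le_sum fun x _ => mul_le_of_le_one_right (hvt x) (G.s1 u x)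
      have hphp : ∑ x, b x * (1 - t u x) ≤ ρ * ∑ x, v x * t us x * (1 - t u x) := by
        rw [mul_sum]
        refine sum_le_sum fun x _ => ?_
        have := mul_le_mul_of_nonneg_right (hb1 x) (G.s0 u x)
        linarith
      have hp' : ∑ x, v x * (1 - t us x) * t u x
          = (∑ x, v x * t u x) - a + ∑ x, v x * t us x * (1 - t u x) := by
        rw [ha, ← sum_sub_distrib, ← sum_add_distrib]
        exact sum_congr rfl fun x _ => by ring
      have hPd : y - ∑ x, v x * t u x ≤ max (y0 + ∑ x, v x * (1 - t u x)) 0 := by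
        refine le_trans (le_of_eq ?_) (le_max_left _ _)
        rw [hy]
        have : ∑ x, v x * (1 - t u x) = (∑ x, v x) - ∑ x, v x * t u x := by
          rw [← sum_sub_distrib]
          exact sum_congr rfl fun x _ => by ring
        rw [this]; ring
      have key := sc1 a (∑ x, v x * t u x) (∑ x, v x * t us x * (1 - t u x))
        (∑ x, b x * (1 - t u x)) ρ y z (max (y0 + ∑ x, v x * (1 - t u x)) 0)
        (hph0 u) hphp hp0 hp0a hdu hPd (le_max_right _ _) hyz hρa hρ2 hρ0 hρ1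
      rw [← hp', ← hrp u, ← het] at key
      have := mul_le_mul_of_nonneg_left key (hw u)
      nlinarith
  refine ⟨q, θ * ρ, hγ0, ?_, hq0, ⟨σ * et, mul_nonneg hσ0 het0, fun u => ?_⟩, ?_, ?_, ?_⟩
  · rw [← hθ]; exact mul_le_of_le_one_right hθ0.le hρ1
  · rw [hq]
    have := mul_le_mul_of_nonneg_left (hp u) (mul_nonneg hσ0 (hw u))
    linarith
  · rw [hsumq, hσ]
    -- θ² et Pt / (2C) ≤ θ² et² z /(2C) = θ et² / (2 C) < 1/2
    have a1 : θ ^ 2 * et * Pt ≤ et := by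
      have b1 : θ * Pt ≤ et := by
        have := mul_le_mul_of_nonneg_left hPtz hθ0.le
        have e : θ * (et * z) = (θ * z) * et := by ring
        rw [e, hθz, one_mul] at this
        exact this
      have b2 : θ * et ≤ 1 := by
        rw [← hθz]; exact mul_le_mul_of_nonneg_left (hety.trans hyz) hθ0.le
      have b3 : 0 ≤ θ * Pt := mul_nonneg hθ0.le hPt0
      calc θ ^ 2 * et * Pt = (θ * et) * (θ * Pt) := by ring
        _ ≤ 1 * (θ * Pt) := mul_le_mul_of_nonneg_right b2 b3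
        _ ≤ et := by linarith
    rw [div_mul_eq_mul_div, div_lt_iff₀ (by positivity)]
    linarith
  · rw [← ha]
    have e : θ * ρ * a = et / z := by rw [het, hθ]; ring
    rw [e]
    exact div_le_div_of_nonneg_right hety hz0.le
  · refine le_trans ?_ dg
    rw [hPus]
    have s2 := sc2 y z et Pt θ hz0 hθz hyz hPtz
    refine s2.trans ?_
    -- name the remaining sums
    obtain ⟨A1, hA1⟩ : ∃ X, X = ∑ u, w u * adU us u := ⟨_, rfl⟩
    obtain ⟨A2, hA2⟩ : ∃ X, X = ∑ x, ∑ x', v x * t us x * (v x' * (1 - t us x') * adW x x') :=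
      ⟨_, rfl⟩
    obtain ⟨A2', hA2'⟩ : ∃ X, X = ∑ x, ∑ x', v x * t us x * (v x' * t us x' * adW x x') :=
      ⟨_, rfl⟩
    obtain ⟨A3, hA3⟩ : ∃ X, X = ∑ u, w u * (∑ x, b x * (1 - t u x)) * ∑ u2, w u2 * adU u u2 :=
      ⟨_, rfl⟩
    obtain ⟨X1, hX1⟩ : ∃ X, X = ∑ u, w u * (∑ x, b x * (1 - t u x)) *
      (r u * ∑ x, v x * (1 - t us x) * t u x) := ⟨_, rfl⟩
    obtain ⟨X2, hX2⟩ : ∃ X, X = ∑ u, w u * (∑ x, v x * t us x * (1 - t u x)) *
      ∑ x, b x * (1 - t u x) := ⟨_, rfl⟩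
    obtain ⟨X3, hX3⟩ : ∃ X, X = ∑ u, w u * (∑ x, v x * t us x * (1 - t u x)) *
      max (y0 + ∑ x, v x * (1 - t u x)) 0 := ⟨_, rfl⟩
    obtain ⟨MKa, hMKa⟩ : ∃ X, X = ∑ u, ∑ x, v x * w u * k2 x us u := ⟨_, rfl⟩
    obtain ⟨MKb, hMKb⟩ : ∃ X, X = ∑ x, ∑ x', v x * v x' * k1 us x x' := ⟨_, rfl⟩
    obtain ⟨MKc, hMKc⟩ : ∃ X, X = ∑ x, ∑ u, ∑ u2, v x * t us x * (w u * w u2 * k2 x u u2) :=
      ⟨_, rfl⟩
    obtain ⟨MKh, hMKh⟩ : ∃ X, X = ∑ u, ∑ x, ∑ x', v x * t us x * w u * (v x' * (1 - t us x')) *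
      k1 u x x' := ⟨_, rfl⟩
    obtain ⟨MKg, hMKg⟩ : ∃ X, X = ∑ u, ∑ x, ∑ x', v x * t us x * w u * (v x' * t us x') *
      k1 u x x' := ⟨_, rfl⟩
    have hMK3 : ∑ u, ∑ x, ∑ x', v x * t us x * w u * v x' * k1 u x x' = MKh + MKg := by
      rw [hMKh, hMKg]
      simp only [← sum_add_distrib]
      exact sum_congr rfl fun u _ => sum_congr rfl fun x _ => sum_congr rfl fun x' _ => by ring
    have hA22 : ∑ x, ∑ x', v x * t us x * (v x' * adW x x') = A2 + A2' := by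
      rw [hA2, hA2']
      simp only [← sum_add_distrib]
      exact sum_congr rfl fun x _ => sum_congr rfl fun x' _ => by ring
    have hqA : ∑ u, q u * ∑ u2, w u2 * adU u u2 = σ * A3 := by
      rw [hA3, mul_sum]
      refine sum_congr rfl fun u _ => ?_
      rw [hq]; ring
    rw [hMK3, hA22, hqA, ← hA1, ← hX3, ← hMKa, ← hMKb, ← hMKc]
    rw [← hX1, ← hA1, ← hA2] at i1
    rw [← hMKa, ← hMKb, ← hMKh] at m1
    rw [← hMKc, ← hMKg] at m2
    rw [← hPt, ← hX2, ← hA2', ← hA3] at i2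
    rw [← hX3, ← hX1, ← hX2] at hX
    have hA10 : 0 ≤ A1 := by
      rw [hA1]; exact sum_nonneg fun u _ => mul_nonneg (hw u) (G.aU0 us u)
    have hA20 : 0 ≤ A2 := by
      rw [hA2]
      exact sum_nonneg fun x _ => sum_nonneg fun x' _ =>
        mul_nonneg (hvt x) (mul_nonneg (hvs x') (G.aW0 x x'))
    have hA20' : 0 ≤ A2' := by
      rw [hA2']
      exact sum_nonneg fun x _ => sum_nonneg fun x' _ =>
        mul_nonneg (hvt x) (mul_nonneg (hvt x') (G.aW0 x x'))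
    have f1 : et * A1 ≤ C * A1 := mul_le_mul_of_nonneg_right (by linarith) hA10
    have hθC : 1 ≤ θ * C := by rw [← hθz]; exact mul_le_mul_of_nonneg_left hC.le hθ0.le
    have f2 : ρ * A2 ≤ θ * ρ * (C * A2) := by
      have := mul_le_mul_of_nonneg_right hθC (mul_nonneg hρ0 hA20)
      linarith
    have f3 : θ ^ 2 / 2 * ((ρ * z) ^ 2 * A2') ≤ θ * ρ * (C * A2') := by
      have e : θ ^ 2 / 2 * ((ρ * z) ^ 2 * A2') = (θ * z) ^ 2 * (ρ ^ 2 / 2 * A2') := by ring
      rw [e, hθz]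
      have g1 := mul_le_mul_of_nonneg_right hθC (mul_nonneg hρ0 hA20')
      have g2 : ρ ^ 2 / 2 * A2' ≤ ρ * A2' := by
        have : ρ ^ 2 / 2 ≤ ρ := by nlinarith
        exact mul_le_mul_of_nonneg_right this hA20'
      linarith
    have f4 : C * (σ * A3) = θ ^ 2 / 2 * (et * A3) := by
      have : C * (σ * A3) = C * σ * A3 := by ring
      rw [this, hσC]; ring
    have f5 : θ ^ 2 / 2 * (2 * (ρ * z) * X2) = θ * (ρ * X2) := by
      have : θ ^ 2 / 2 * (2 * (ρ * z) * X2) = (θ * z) * (θ * (ρ * X2)) := by ring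
      rw [this, hθz, one_mul]
    have i2' := (mul_le_mul_of_nonneg_left i2 (by positivity : (0:ℝ) ≤ θ ^ 2 / 2)).trans m2
    have i1' := i1.trans m1
    have hX' := mul_le_mul_of_nonneg_left hX hθ0.le
    linarith

end

end Pool.Agent.Helper35.FdM
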