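import Pool.Agent.Helper35.FdM.LemmaP
import Pool.Agent.Helper35.FdM.OptEx

/-! The corner lemma for marked oriented graphs. -/

set_option autoImplicit false
open Finset
open scoped Classical

namespace Pool.Agent.Helper35.FdM

open Pool.Agent.H122R2.FdF

/-- marked triples with two vertices in one class and one in the other -/
theorem Mk_ge {V : Type} [Fintype V] (K : V → V → V → Prop) (w : V → ℝ) (hw : ∀ v, 0 ≤ w v)
    (s12 : ∀ a b c, kk K a b c = kk K b a c) (s23 : ∀ a b c, kk K a b c = kk K a c b)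
    (ia ib : V → ℝ) (h : ∀ v, (ia v = 0 ∧ ib v = 0) ∨ (ia v = 1 ∧ ib v = 0) ∨
      (ia v = 0 ∧ ib v = 1)) :
    3 * (∑ a, ∑ b, ∑ c, (w a * ia a) * (w b * ib b) * (w c * ib c) * kk K a b c)
      + 3 * (∑ a, ∑ b, ∑ c, (w a * ib a) * (w b * ia b) * (w c * ia c) * kk K a b c)
      ≤ Mk K w := by
  have sw : ∀ p q : V → ℝ, ∑ a, ∑ b, ∑ c, (w a * q a) * (w b * p b) * (w c * q c) * kk K a b c
      = ∑ a, ∑ b, ∑ c, (w a * p a) * (w b * q b) * (w c * q c) * kk K a b c := by
    intro p q
    rw [sum_comm]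
    refine sum_congr rfl fun a _ => sum_congr rfl fun b _ => sum_congr rfl fun c _ => ?_
    rw [s12 b a c]; ring
  have sw2 : ∀ p q : V → ℝ, ∑ a, ∑ b, ∑ c, (w a * q a) * (w b * q b) * (w c * p c) * kk K a b c
      = ∑ a, ∑ b, ∑ c, (w a * p a) * (w b * q b) * (w c * q c) * kk K a b c := by
    intro p q
    rw [← sw]
    refine sum_congr rfl fun a _ => ?_
    rw [sum_comm]
    refine sum_congr rfl fun b _ => sum_congr rfl fun c _ => ?_
    rw [s23 a c b]; ring
  have e : 3 * (∑ a, ∑ b, ∑ c, (w a * ia a) * (w b * ib b) * (w c * ib c) * kk K a b c)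
      + 3 * (∑ a, ∑ b, ∑ c, (w a * ib a) * (w b * ia b) * (w c * ia c) * kk K a b c)
      = (∑ a, ∑ b, ∑ c, (w a * ia a) * (w b * ib b) * (w c * ib c) * kk K a b c)
      + (∑ a, ∑ b, ∑ c, (w a * ib a) * (w b * ia b) * (w c * ib c) * kk K a b c)
      + (∑ a, ∑ b, ∑ c, (w a * ib a) * (w b * ib b) * (w c * ia c) * kk K a b c)
      + (∑ a, ∑ b, ∑ c, (w a * ib a) * (w b * ia b) * (w c * ia c) * kk K a b c)
      + (∑ a, ∑ b, ∑ c, (w a * ia a) * (w b * ib b) * (w c * ia c) * kk K a b c)
      + (∑ a, ∑ b, ∑ c, (w a * ia a) * (w b * ia b) * (w c * ib c) * kk K a b c) := by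
    rw [sw ia ib, sw2 ia ib, sw ib ia, sw2 ib ia]
    ring
  rw [e]
  unfold Mk
  simp only [← sum_add_distrib]
  refine sum_le_sum fun a _ => sum_le_sum fun b _ => sum_le_sum fun c _ => ?_
  have h0 : 0 ≤ w a * w b * w c * kk K a b c :=
    mul_nonneg (mul_nonneg (mul_nonneg (hw a) (hw b)) (hw c)) (kk_nonneg _ _ _)
  have h1 : ia a * ib b * ib c + ib a * ia b * ib c + ib a * ib b * ia c + ib a * ia b * ia c
      + ia a * ib b * ia c + ia a * ia b * ib c ≤ 1 := by
    rcases h a with ⟨a1, a2⟩ | ⟨a1, a2⟩ | ⟨a1, a2⟩ <;>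
    rcases h b with ⟨b1, b2⟩ | ⟨b1, b2⟩ | ⟨b1, b2⟩ <;>
    rcases h c with ⟨c1, c2⟩ | ⟨c1, c2⟩ | ⟨c1, c2⟩ <;>
    rw [a1, a2, b1, b2, c1, c2] <;> norm_num
  have := mul_le_mul_of_nonneg_left h1 h0
  linarith

section
variable {V : Type} [Fintype V] (R : V → V → Prop) (w : V → ℝ) (P : V → Fin 3) (c δ : ℝ)

/-- cost of a vertex -/
noncomputable def cost (v : V) : ℝ := 3 * (c - f R w v) ^ 2 + 0.92 * min (al R w P v) 0.02

/-- the vertex is expensive -/
def Exv (v : V) : Prop := 1.5 * δ ^ 2 ≤ cost R w P c v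

/-- indicator of the cheap vertices of part `i` -/
noncomputable def ic (i : Fin 3) (v : V) : ℝ := if P v = i ∧ ¬ Exv R w P c δ v then 1 else 0

/-- weight of the expensive vertices of part `i` -/
noncomputable def We (i : Fin 3) : ℝ := ∑ v, if P v = i ∧ Exv R w P c δ v then w v else 0

variable {R w P c δ}

theorem al_nn (hw : ∀ v, 0 ≤ w v) (v : V) : 0 ≤ al R w P v := by
  unfold al
  refine sum_nonneg fun y _ => mul_nonneg (hw y) ?_
  split_ifs
  · exact sub_nonneg.mpr (N_le_one R v y)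
  · exact le_rfl

theorem A_le (R : V → V → Prop) (x y : V) : A R x y ≤ 1 := by
  rcases A_01 R x y with h | h <;> rw [h]
  norm_num

theorem A_le_N (R : V → V → Prop) (x y : V) : A R x y ≤ 1 - N R x y := by
  unfold A N
  by_cases a : R x y
  · simp [a]
  · simp only [a, if_false]
    split_ifs <;> norm_num

theorem f_le (hw : ∀ v, 0 ≤ w v) (i j : Fin 3) (hi : i ≠ 0) (hj : j ≠ 0) (hij : i ≠ j) (u : V)
    (hu : P u = i) :
    f R w u ≤ W w P 0 + al R w P u + We R w P c δ j + ∑ v, w v * ic R w P c δ j v * A R u v := by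
  unfold f W al We
  rw [← sum_add_distrib, ← sum_add_distrib, ← sum_add_distrib]
  refine sum_le_sum fun v _ => ?_
  have h1 := A_le R u v
  have h2 := A_le_N R u v
  have h3 := A_nonneg R u v
  have h4 := hw v
  have hN := N_le_one R u v
  have key : P v = 0 ∨ P v = i ∨ P v = j := by
    have := (P v).isLt
    have hi' := Fin.val_ne_of_ne hi
    have hj' := Fin.val_ne_of_ne hj
    have hij' := Fin.val_ne_of_ne hij
    have := i.isLt
    have := j.isLt
    simp only [Fin.ext_iff] at *
    omega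
  have hw1 : w v * A R u v ≤ w v := mul_le_of_le_one_right h4 h1
  have hw2 : w v * A R u v ≤ w v * (1 - N R u v) := mul_le_mul_of_nonneg_left h2 h4
  have hw3 : 0 ≤ w v * (1 - N R u v) := mul_nonneg h4 (by linarith)
  have hw4 : 0 ≤ w v * A R u v := mul_nonneg h4 h3
  unfold ic
  rw [hu]
  rcases key with h | h | h
  · rw [h, if_pos rfl, if_neg (fun h => hi h.symm), if_neg (fun h => hj h.1.symm),
      if_neg (fun h => hj h.1.symm)]
    linarith
  · rw [h, if_neg hi, if_pos rfl, if_neg (fun h => hij h.1), if_neg (fun h => hij h.1)]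
    linarith
  · rw [h, if_neg hj, if_neg (fun h => hij h.symm)]
    by_cases hE : Exv R w P c δ v
    · rw [if_pos ⟨rfl, hE⟩, if_neg (fun h => h.2 hE)]
      linarith
    · rw [if_neg (fun h => hE h.2), if_pos ⟨rfl, hE⟩]
      linarith

theorem cheap_al (hδ0 : 0 < δ) (hδ1 : δ ≤ 0.089) {v : V} (hv : ¬ Exv R w P c δ v) :
    al R w P v ≤ 0.02 := by
  by_contra hc
  push Not at hc
  apply hv
  unfold Exv cost
  rw [min_eq_right hc.le]
  nlinarith [sq_nonneg (c - f R w v)]

theorem sc3 (g p a δ : ℝ) (ha : 0 ≤ a) (hδ0 : 0 < δ) (hδ1 : δ ≤ 0.089) (hp : p ≤ δ)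
    (hg : p - a ≤ g) : 3 * (max p 0) ^ 2 + 0.384 * a ≤ 3 * g ^ 2 + 0.92 * a := by
  rcases le_or_gt p 0 with h | h
  · rw [max_eq_right h]
    nlinarith [sq_nonneg g]
  · rw [max_eq_left h.le]
    rcases le_or_gt p a with h2 | h2
    · nlinarith [sq_nonneg g, mul_nonneg h.le (sub_nonneg.mpr h2), mul_nonneg ha (sub_nonneg.mpr hp)]
    · have h3 : (p - a) ^ 2 ≤ g ^ 2 := by
        have : 0 ≤ p - a := by linarith
        nlinarith
      nlinarith [mul_nonneg ha (sub_nonneg.mpr hp)]

theorem cost_ge (hw : ∀ v, 0 ≤ w v) (hδ : δ = c - W w P 0) (hδ0 : 0 < δ) (hδ1 : δ ≤ 0.089)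
    (i j : Fin 3) (hi : i ≠ 0) (hj : j ≠ 0) (hij : i ≠ j) (u : V) (hu : P u = i)
    (hE : ¬ Exv R w P c δ u) :
    3 * (max (δ - We R w P c δ j - ∑ v, w v * ic R w P c δ j v * A R u v) 0) ^ 2
      + 0.384 * al R w P u ≤ cost R w P c u := by
  have h1 := cheap_al hδ0 hδ1 hE
  have h2 := f_le (c := c) (δ := δ) (R := R) hw i j hi hj hij u hu
  unfold cost
  rw [min_eq_left h1]
  have hWe : 0 ≤ We R w P c δ j := by
    unfold We
    exact sum_nonneg fun v _ => by split_ifs; exacts [hw v, le_rfl]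
  have hS : 0 ≤ ∑ v, w v * ic R w P c δ j v * A R u v := by
    refine sum_nonneg fun v _ => mul_nonneg (mul_nonneg (hw v) ?_) (A_nonneg R u v)
    unfold ic; split_ifs <;> norm_num
  exact sc3 _ _ _ δ (al_nn hw u) hδ0 hδ1 (by linarith) (by linarith)

theorem common_le (hw : ∀ v, 0 ≤ w v) (u x : V) (hu : P u = 1) (hx : P x = 2) :
    ∑ y, w y * ((1 - N R u y) * (1 - N R x y)) ≤ W w P 0 + al R w P u + al R w P x := by
  unfold W al
  rw [← sum_add_distrib, ← sum_add_distrib]
  refine sum_le_sum fun y _ => ?_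
  have h1 := N_le_one R u y
  have h2 := N_le_one R x y
  have h3 := N_nonneg R u y
  have h4 := N_nonneg R x y
  have h5 := hw y
  have q1 : (1 - N R u y) * (1 - N R x y) ≤ 1 := by nlinarith
  have q2 : (1 - N R u y) * (1 - N R x y) ≤ 1 - N R u y := by nlinarith
  have q3 : (1 - N R u y) * (1 - N R x y) ≤ 1 - N R x y := by nlinarith
  have r1 := mul_le_mul_of_nonneg_left q1 h5
  have r2 := mul_le_mul_of_nonneg_left q2 h5
  have r3 := mul_le_mul_of_nonneg_left q3 h5
  have key : P y = 0 ∨ P y = 1 ∨ P y = 2 := by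
    have := (P y).isLt
    simp only [Fin.ext_iff]
    omega
  rw [hu, hx]
  rcases key with h | h | h
  · rw [h, if_pos rfl, if_neg (by decide), if_neg (by decide)]
    linarith
  · rw [h, if_neg (by decide), if_pos rfl, if_neg (by decide)]
    linarith
  · rw [h, if_neg (by decide), if_neg (by decide), if_pos rfl]
    linarith

theorem sc4 (g h s δ : ℝ) (hs : 0 ≤ s) (hδ0 : 0 < δ) (hδ1 : δ ≤ 0.089)
    (hgh : 2 * (δ - s) ≤ g + h) : 3 * δ ^ 2 ≤ 3 * g ^ 2 + 3 * h ^ 2 + 0.92 * s := by
  rcases le_or_gt s δ with h1 | h1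
  · have h2 : (2 * (δ - s)) ^ 2 ≤ (g + h) ^ 2 := by
      have : 0 ≤ 2 * (δ - s) := by linarith
      nlinarith
    nlinarith [sq_nonneg (g - h), sq_nonneg (3 * δ - 4 * s), mul_nonneg hs (sub_nonneg.mpr hδ1)]
  · nlinarith [sq_nonneg g, sq_nonneg h]

theorem cheap_adj (hw : ∀ v, 0 ≤ w v) (hδ : δ = c - W w P 0) (hδ0 : 0 < δ) (hδ1 : δ ≤ 0.089)
    (hsoc : ∀ u v, N R u v = 1 →
      f R w u + f R w v ≤ 2 * ∑ y, w y * ((1 - N R u y) * (1 - N R v y)))
    (u x : V) (hu : P u = 1) (hx : P x = 2) (hEu : ¬ Exv R w P c δ u) (hEx : ¬ Exv R w P c δ x) :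
    R u x ∨ R x u := by
  by_contra hne
  have hN : N R u x = 1 := by unfold N; rw [if_neg hne]
  have h1 := hsoc u x hN
  have h2 := common_le (R := R) hw u x hu hx
  have a1 := cheap_al hδ0 hδ1 hEu
  have a2 := cheap_al hδ0 hδ1 hEx
  unfold Exv cost at hEu hEx
  rw [min_eq_left a1] at hEu
  rw [min_eq_left a2] at hEx
  push Not at hEu hEx
  have := sc4 (c - f R w u) (c - f R w x) (al R w P u + al R w P x) δ
    (add_nonneg (al_nn hw u) (al_nn hw x)) hδ0 hδ1 (by linarith)
  linarith

theorem Gf_lb (y z δ : ℝ) (hδ : 0 < δ) (hy : y ≤ δ) (hz : z ≤ δ) :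
    3 / 4 * δ ^ 3 ≤ 6 * Gf y z + 1.5 * δ ^ 2 * ((δ - y) + (δ - z)) := by
  have key : ∀ y z : ℝ, y ≤ δ → z ≤ δ → y ≤ z →
      3 / 4 * δ ^ 3 ≤ 6 * Gf y z + 1.5 * δ ^ 2 * ((δ - y) + (δ - z)) := by
    intro y z hy hz hyz
    rcases le_or_gt y 0 with h | h
    · rw [Gf_of_nonpos (Or.inl h)]
      have h1 : 0 ≤ δ ^ 2 * (δ - z) := mul_nonneg (sq_nonneg _) (by linarith)
      have h2 : 0 ≤ δ ^ 2 * (-y) := mul_nonneg (sq_nonneg _) (by linarith)
      nlinarith [pow_pos hδ 3]
    · rw [Gf_of_le h.le hyz]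
      have h1 : 0 ≤ δ ^ 2 * (δ - z) := mul_nonneg (sq_nonneg _) (by linarith)
      have h2 : z * ((δ + y) * (δ - y)) ≤ δ * ((2 * δ) * (δ - y)) := by
        have a1 : (δ + y) * (δ - y) ≤ (2 * δ) * (δ - y) :=
          mul_le_mul_of_nonneg_right (by linarith) (by linarith)
        have a2 : 0 ≤ (δ + y) * (δ - y) := mul_nonneg (by linarith) (by linarith)
        calc z * ((δ + y) * (δ - y)) ≤ δ * ((δ + y) * (δ - y)) :=
              mul_le_mul_of_nonneg_right hz a2
          _ ≤ _ := mul_le_mul_of_nonneg_left a1 hδ.le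
      nlinarith
  rcases le_total y z with h | h
  · exact key y z hy hz h
  · have := key z y hz hy h
    rw [Gf_comm]
    linarith

end

theorem cornerM {V : Type} [Fintype V] (R : V → V → Prop) (K : V → V → V → Prop) (w : V → ℝ)
    (hO : Oriented R) (hK : Marks R K) (hpos : ∀ v, 0 < w v) (P : V → Fin 3)
    (hsoc : ∀ u v, N R u v = 1 →
      f R w u + f R w v ≤ 2 * ∑ y, w y * ((1 - N R u y) * (1 - N R v y)))
    (c δ : ℝ) (hδ : δ = c - W w P 0) (hδ0 : 0 < δ) (hδ1 : δ ≤ 0.089)
    (hW1 : δ ≤ W w P 1) (hW2 : δ ≤ W w P 2) :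
    3 / 4 * δ ^ 3 ≤ 3 * (∑ v, w v * (if P v = 0 then 0 else (c - f R w v) ^ 2)) + Mk K w
      + 0.92 * ((∑ v, w v * (if P v = 1 then min (al R w P v) 0.02 else 0))
        + ∑ v, w v * (if P v = 2 then min (al R w P v) 0.02 else 0)) := by
  have hw : ∀ v, 0 ≤ w v := fun v => (hpos v).le
  have k12 : ∀ a b c, kk K a b c = kk K b a c := kk12 hK.s12
  have k23 : ∀ a b c, kk K a b c = kk K a c b := kk23 hK.s23
  set iu : V → ℝ := ic R w P c δ 1 with hiu
  set ix' : V → ℝ := ic R w P c δ 2 with hix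
  have hiu01 : ∀ v, iu v = 0 ∨ iu v = 1 := fun v => by
    rw [hiu]; unfold ic; split_ifs <;> simp
  have hix01 : ∀ v, ix' v = 0 ∨ ix' v = 1 := fun v => by
    rw [hix]; unfold ic; split_ifs <;> simp
  have iu1 : ∀ v, iu v = 1 → P v = 1 ∧ ¬ Exv R w P c δ v := fun v h => by
    by_contra hc
    rw [hiu] at h
    unfold ic at h
    rw [if_neg hc] at h
    norm_num at h
  have ix1 : ∀ v, ix' v = 1 → P v = 2 ∧ ¬ Exv R w P c δ v := fun v h => by
    by_contra hc
    rw [hix] at h
    unfold ic at h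
    rw [if_neg hc] at h
    norm_num at h
  have hadj : ∀ u x, iu u = 1 → ix' x = 1 → R u x ∨ R x u := fun u x h1 h2 =>
    cheap_adj hw hδ hδ0 hδ1 hsoc u x (iu1 u h1).1 (ix1 x h2).1 (iu1 u h1).2 (ix1 x h2).2
  -- the game
  set adU : V → V → ℝ := fun u u' => if iu u = 1 ∧ iu u' = 1 then 1 - N R u u' else 1 with hadU
  set adW : V → V → ℝ := fun x x' => if ix' x = 1 ∧ ix' x' = 1 then 1 - N R x x' else 1 with hadW
  have G : Game (fun u x => A R u x) adU adW (fun u x x' => kk K u x x')
      (fun x u u' => kk K x u u') := by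
    refine ⟨fun u x => A_01 R u x, ?_, ?_, ?_, ?_, ?_, ?_, fun u x x' => kk_nonneg _ _ _,
      fun u x x' => k23 _ _ _, fun x u u' => kk_nonneg _ _ _, fun x u u' => k23 _ _ _, ?_⟩
    · intro u u'
      show 0 ≤ if iu u = 1 ∧ iu u' = 1 then 1 - N R u u' else 1
      split_ifs
      · exact sub_nonneg.mpr (N_le_one R u u')
      · norm_num
    · intro u u'
      show (if iu u = 1 ∧ iu u' = 1 then 1 - N R u u' else 1) ≤ 1
      split_ifs
      · have := N_nonneg R u u'; linarith
      · norm_num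
    · intro u u'
      show (if iu u = 1 ∧ iu u' = 1 then 1 - N R u u' else 1)
        = if iu u' = 1 ∧ iu u = 1 then 1 - N R u' u else 1
      rw [N_comm R u' u]
      exact if_congr and_comm rfl rfl
    · intro u u'
      show 0 ≤ if ix' u = 1 ∧ ix' u' = 1 then 1 - N R u u' else 1
      split_ifs
      · exact sub_nonneg.mpr (N_le_one R u u')
      · norm_num
    · intro u u'
      show (if ix' u = 1 ∧ ix' u' = 1 then 1 - N R u u' else 1) ≤ 1
      split_ifs
      · have := N_nonneg R u u'; linarith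
      · norm_num
    · intro u u'
      show (if ix' u = 1 ∧ ix' u' = 1 then 1 - N R u u' else 1)
        = if ix' u' = 1 ∧ ix' u = 1 then 1 - N R u' u else 1
      rw [N_comm R u' u]
      exact if_congr and_comm rfl rfl
    · intro u u2 x x2 h1 h2 h3 h4
      show (1 - (if iu u = 1 ∧ iu u2 = 1 then 1 - N R u u2 else 1)) *
        (1 - (if ix' x = 1 ∧ ix' x2 = 1 then 1 - N R x x2 else 1)) ≤
        kk K x u u2 + kk K u2 x x2 + kk K x2 u u2 + kk K u x x2
      have p1 := kk_nonneg (K := K) x u u2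
      have p2 := kk_nonneg (K := K) u2 x x2
      have p3 := kk_nonneg (K := K) x2 u u2
      have p4 := kk_nonneg (K := K) u x x2
      by_cases c1 : iu u = 1 ∧ iu u2 = 1
      swap
      · rw [if_neg c1]; linarith
      by_cases c2 : ix' x = 1 ∧ ix' x2 = 1
      swap
      · rw [if_neg c2]; linarith
      rw [if_pos c1, if_pos c2]
      have e1 : (1 - (1 - N R u u2)) * (1 - (1 - N R x x2)) = N R u u2 * N R x x2 := by ring
      rw [e1]
      rcases N_01 R u u2 with n1 | n1
      · rw [n1]; linarith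
      rcases N_01 R x x2 with n2 | n2
      · rw [n2]; linarith
      rw [n1, n2]
      have notR : ∀ a b, A R a b = 0 → ¬ R a b := fun a b h hr => by
        unfold A at h; rw [if_pos hr] at h; norm_num at h
      have isR : ∀ a b, A R a b = 1 → R a b := fun a b h => by
        by_contra hr
        unfold A at h; rw [if_neg hr] at h; norm_num at h
      have nN : ∀ a b, N R a b = 1 → ¬ R a b ∧ ¬ R b a := fun a b h => by
        constructor
        · intro hr; unfold N at h; rw [if_pos (Or.inl hr)] at h; norm_num at h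
        · intro hr; unfold N at h; rw [if_pos (Or.inr hr)] at h; norm_num at h
      have r1 : R u x := isR _ _ h1
      have r2 : R x u2 := (hadj u2 x c1.2 c2.1).resolve_left (notR _ _ h2)
      have r3 : R u2 x2 := isR _ _ h3
      have r4 : R x2 u := (hadj u x2 c1.1 c2.2).resolve_left (notR _ _ h4)
      have kk1 : ∀ a b c, K a b c → kk K a b c = 1 := fun a b c h => by
        unfold kk; rw [if_pos h]
      rcases hK.cov u x u2 x2 r1 r2 r3 r4 (nN _ _ n1).1 (nN _ _ n1).2 (nN _ _ n2).1 (nN _ _ n2).2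
        with h | h | h | h
      · have := kk1 _ _ _ h
        rw [k12] at this
        linarith
      · have := kk1 _ _ _ h
        rw [k12] at this
        linarith
      · have := kk1 _ _ _ h
        rw [k12, k23] at this
        linarith
      · have := kk1 _ _ _ h
        rw [k12, k23] at this
        linarith
  -- masses
  obtain ⟨y, hy⟩ : ∃ y, y = δ - We R w P c δ 2 := ⟨_, rfl⟩
  obtain ⟨z, hz⟩ : ∃ z, z = δ - We R w P c δ 1 := ⟨_, rfl⟩
  have hWe0 : ∀ i, 0 ≤ We R w P c δ i := fun i => by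
    unfold We
    exact sum_nonneg fun v _ => by split_ifs; exacts [hw v, le_rfl]
  have hWs : ∀ i, W w P i = (∑ v, w v * ic R w P c δ i v) + We R w P c δ i := by
    intro i
    unfold W We ic
    rw [← sum_add_distrib]
    refine sum_congr rfl fun v _ => ?_
    by_cases h1 : P v = i
    · by_cases h2 : Exv R w P c δ v
      · rw [if_pos h1, if_neg (fun h => h.2 h2), if_pos ⟨h1, h2⟩]; ring
      · rw [if_pos h1, if_pos ⟨h1, h2⟩, if_neg (fun h => h2 h.2)]; ring
    · rw [if_neg h1, if_neg (fun h => h1 h.1), if_neg (fun h => h1 h.1)]; ring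
  have hV : y ≤ ∑ v, w v * ix' v := by
    have := hWs 2
    rw [hy]
    show _ ≤ ∑ v, w v * ic R w P c δ 2 v
    linarith
  have hU : z ≤ ∑ v, w v * iu v := by
    have := hWs 1
    rw [hz]
    show _ ≤ ∑ v, w v * ic R w P c δ 1 v
    linarith
  have hiu0 : ∀ v, 0 ≤ iu v := fun v => by rcases hiu01 v with h | h <;> rw [h]; norm_num
  have hix0 : ∀ v, 0 ≤ ix' v := fun v => by rcases hix01 v with h | h <;> rw [h]; norm_num
  have hyδ : y ≤ δ := by have := hWe0 2; rw [hy]; linarith
  have hzδ : z ≤ δ := by have := hWe0 1; rw [hz]; linarith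
  have hP := lemmaP G 0.128 y z (fun v => w v * iu v) (fun v => w v * ix' v)
    (fun v => mul_nonneg (hw v) (hiu0 v)) (fun v => mul_nonneg (hw v) (hix0 v)) (by norm_num)
    (by linarith) (by linarith) hV hU
  have hGl := Gf_lb y z δ hδ0 hyδ hzδ
  -- the parts of Phi
  have q1 : ∑ u, w u * iu u * (max (y - (∑ x, w x * ix' x) + ∑ x, w x * ix' x * (1 - A R u x)) 0) ^ 2
      * 3 + 0.384 * (∑ u, w u * iu u * al R w P u) ≤ ∑ u, w u * iu u * cost R w P c u := by
    rw [mul_sum, ← sum_add_distrib]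
    refine sum_le_sum fun u _ => ?_
    rcases hiu01 u with h | h
    · rw [h]; simp
    · have e : y - (∑ x, w x * ix' x) + ∑ x, w x * ix' x * (1 - A R u x)
          = δ - We R w P c δ 2 - ∑ v, w v * ic R w P c δ 2 v * A R u v := by
        rw [hy]
        have : ∑ x, w x * ix' x * (1 - A R u x)
            = (∑ x, w x * ix' x) - ∑ v, w v * ic R w P c δ 2 v * A R u v := by
          rw [← sum_sub_distrib]
          exact sum_congr rfl fun x _ => by ring
        rw [this]; ring
      rw [e]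
      have := cost_ge hw hδ hδ0 hδ1 1 2 (by decide) (by decide) (by decide) u (iu1 u h).1
        (iu1 u h).2
      have h2 := mul_le_mul_of_nonneg_left this (mul_nonneg (hw u) (hiu0 u))
      linarith
  have q2 : ∑ x, w x * ix' x * (max (z - (∑ u, w u * iu u) + ∑ u, w u * iu u * A R u x) 0) ^ 2
      * 3 + 0.384 * (∑ x, w x * ix' x * al R w P x) ≤ ∑ x, w x * ix' x * cost R w P c x := by
    rw [mul_sum, ← sum_add_distrib]
    refine sum_le_sum fun x _ => ?_
    rcases hix01 x with h | h
    · rw [h]; simp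
    · have e : z - (∑ u, w u * iu u) + ∑ u, w u * iu u * A R u x
          = δ - We R w P c δ 1 - ∑ v, w v * ic R w P c δ 1 v * A R x v := by
        rw [hz]
        have : ∑ u, w u * iu u * A R u x
            = (∑ u, w u * iu u) - ∑ v, w v * ic R w P c δ 1 v * A R x v := by
          rw [← sum_sub_distrib]
          refine sum_congr rfl fun u _ => ?_
          show w u * iu u * A R u x = w u * iu u - w u * iu u * A R x u
          rcases hiu01 u with h' | h'
          · rw [h']; ring
          · have hA : A R u x = 1 - A R x u := by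
              rcases hadj u x h' h with hr | hr
              · unfold A; rw [if_pos hr, if_neg (hO _ _ hr)]; norm_num
              · unfold A; rw [if_neg (hO _ _ hr), if_pos hr]; norm_num
            rw [hA]; ring
        rw [this]; ring
      rw [e]
      have := cost_ge hw hδ hδ0 hδ1 2 1 (by decide) (by decide) (by decide) x (ix1 x h).1
        (ix1 x h).2
      have h2 := mul_le_mul_of_nonneg_left this (mul_nonneg (hw x) (hix0 x))
      linarith
  have q3 : ∑ u, ∑ u', (w u * iu u) * (w u' * iu u') * adU u u'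
      ≤ ∑ u, w u * iu u * al R w P u := by
    refine sum_le_sum fun u _ => ?_
    unfold al
    rw [mul_sum]
    refine sum_le_sum fun u' _ => ?_
    rcases hiu01 u with h | h
    · rw [h]; simp
    rcases hiu01 u' with h' | h'
    · rw [h']
      have : 0 ≤ w u * iu u * (w u' * if P u' = P u then 1 - N R u u' else 0) := by
        refine mul_nonneg (mul_nonneg (hw u) (hiu0 u)) (mul_nonneg (hw u') ?_)
        split_ifs
        · exact sub_nonneg.mpr (N_le_one R u u')
        · exact le_rfl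
      linarith
    · have hPP : P u' = P u := by rw [(iu1 u h).1, (iu1 u' h').1]
      have hd : adU u u' = 1 - N R u u' := by
        show (if iu u = 1 ∧ iu u' = 1 then 1 - N R u u' else 1) = _
        rw [if_pos ⟨h, h'⟩]
      rw [if_pos hPP, hd, h']
      apply le_of_eq; ring
  have q4 : ∑ u, ∑ u', (w u * ix' u) * (w u' * ix' u') * adW u u'
      ≤ ∑ u, w u * ix' u * al R w P u := by
    refine sum_le_sum fun u _ => ?_
    unfold al
    rw [mul_sum]
    refine sum_le_sum fun u' _ => ?_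
    rcases hix01 u with h | h
    · rw [h]; simp
    rcases hix01 u' with h' | h'
    · rw [h']
      have : 0 ≤ w u * ix' u * (w u' * if P u' = P u then 1 - N R u u' else 0) := by
        refine mul_nonneg (mul_nonneg (hw u) (hix0 u)) (mul_nonneg (hw u') ?_)
        split_ifs
        · exact sub_nonneg.mpr (N_le_one R u u')
        · exact le_rfl
      linarith
    · have hPP : P u' = P u := by rw [(ix1 u h).1, (ix1 u' h').1]
      have hd : adW u u' = 1 - N R u u' := by
        show (if ix' u = 1 ∧ ix' u' = 1 then 1 - N R u u' else 1) = _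
        rw [if_pos ⟨h, h'⟩]
      rw [if_pos hPP, hd, h']
      apply le_of_eq; ring
  have q5 := Mk_ge K w hw k12 k23 iu ix' (fun v => by
    rcases hiu01 v with h | h
    · rcases hix01 v with h' | h'
      · exact Or.inl ⟨h, h'⟩
      · exact Or.inr (Or.inr ⟨h, h'⟩)
    · rcases hix01 v with h' | h'
      · exact Or.inr (Or.inl ⟨h, h'⟩)
      · exfalso
        have a1 := (iu1 v h).1
        have a2 := (ix1 v h').1
        rw [a1] at a2
        exact absurd a2 (by decide))
  -- the total cost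
  have tot : (∑ u, w u * iu u * cost R w P c u) + (∑ x, w x * ix' x * cost R w P c x)
      + 1.5 * δ ^ 2 * (We R w P c δ 1 + We R w P c δ 2)
      ≤ 3 * (∑ v, w v * (if P v = 0 then 0 else (c - f R w v) ^ 2))
      + 0.92 * ((∑ v, w v * (if P v = 1 then min (al R w P v) 0.02 else 0))
        + ∑ v, w v * (if P v = 2 then min (al R w P v) 0.02 else 0)) := by
    unfold We
    rw [← sum_add_distrib, ← sum_add_distrib, ← sum_add_distrib, mul_sum, mul_sum, mul_sum,
      ← sum_add_distrib, ← sum_add_distrib]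
    refine sum_le_sum fun v _ => ?_
    have hv := hw v
    have hcost : 0 ≤ cost R w P c v := by
      unfold cost
      have := al_nn (R := R) (P := P) hw v
      have h2 : 0 ≤ min (al R w P v) 0.02 := le_min this (by norm_num)
      positivity
    have key : P v = 0 ∨ P v = 1 ∨ P v = 2 := by
      have := (P v).isLt
      simp only [Fin.ext_iff]
      omega
    rw [hiu, hix]
    unfold ic
    rcases key with h | h | h
    · rw [h]
      simp
    · rw [h]
      by_cases hE : Exv R w P c δ v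
      · have hE' : 1.5 * δ ^ 2 ≤ cost R w P c v := hE
        have := mul_le_mul_of_nonneg_left hE' hv
        unfold cost at this
        simp [hE]
        linarith
      · simp [hE]
        unfold cost
        linarith
    · rw [h]
      by_cases hE : Exv R w P c δ v
      · have hE' : 1.5 * δ ^ 2 ≤ cost R w P c v := hE
        have := mul_le_mul_of_nonneg_left hE' hv
        unfold cost at this
        simp [hE]
        linarith
      · simp [hE]
        unfold cost
        linarith
  unfold Phi at hP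
  rw [← sum_mul] at q1 q2
  have hWy : We R w P c δ 2 = δ - y := by rw [hy]; ring
  have hWz : We R w P c δ 1 = δ - z := by rw [hz]; ring
  rw [hWy, hWz] at tot
  linarith

end Pool.Agent.Helper35.FdM
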