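import Pool.Agent.H122R2.FdF.TaskB
import Pool.Agent.H122R2.FdF.TaskC
import Pool.Agent.H122R2.FdF.TaskD
import Pool.Agent.H122R2.FdF.Num
import Pool.Agent.Helper35.FdM.CertsM
import Pool.Agent.Helper35.FdM.Corner

/-! The weighted theorem for marked oriented graphs, at optimal weights. -/

set_option autoImplicit false
open Finset
open scoped Classical

namespace Pool.Agent.Helper35.FdM

open Pool.Agent.H122R2.FdF

theorem al_nonneg {V : Type} [Fintype V] (R : V → V → Prop) (w : V → ℝ)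
    (hw : ∀ v, 0 ≤ w v) (P : V → Fin 3) (v : V) : 0 ≤ al R w P v := by
  unfold al
  refine sum_nonneg fun y _ => mul_nonneg (hw y) ?_
  unfold N
  split_ifs <;> norm_num

theorem be_nonneg {V : Type} [Fintype V] (R : V → V → Prop) (w : V → ℝ)
    (hw : ∀ v, 0 ≤ w v) (P : V → Fin 3) (v : V) : 0 ≤ be R w P v := by
  unfold be
  refine sum_nonneg fun y _ => mul_nonneg (hw y) ?_
  unfold N
  split_ifs <;> norm_num

/-- centred Cauchy-Schwarz -/
theorem cs_half {V : Type} [Fintype V] (w g x : V → ℝ) (hw : ∀ v, 0 ≤ w v)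
    (h1 : ∑ v, w v = 1) (hg : ∑ v, w v * g v = 0) (hx : ∀ v, x v = 0 ∨ x v = 1) :
    (∑ v, w v * x v * g v) ^ 2 ≤ 1 / 4 * ∑ v, w v * g v ^ 2 := by
  have e : ∑ v, w v * x v * g v = ∑ v, w v * (x v - 1 / 2) * g v := by
    have : ∑ v, w v * (x v - 1 / 2) * g v = ∑ v, w v * x v * g v - 1 / 2 * ∑ v, w v * g v := by
      rw [mul_sum, ← sum_sub_distrib]
      exact sum_congr rfl fun v _ => by ring
    rw [this, hg]; ring
  rw [e]
  set S := ∑ v, w v * (x v - 1 / 2) * g v with hS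
  set G := ∑ v, w v * g v ^ 2 with hG
  have hG0 : 0 ≤ G := sum_nonneg fun v _ => mul_nonneg (hw v) (sq_nonneg _)
  -- for all t : 0 ≤ ∑ w ((x-1/2) + t g)^2 = 1/4 + 2 t S + t^2 G
  have key : ∀ t : ℝ, 0 ≤ 1 / 4 + 2 * t * S + t ^ 2 * G := by
    intro t
    have h0 : 0 ≤ ∑ v, w v * ((x v - 1 / 2) + t * g v) ^ 2 :=
      sum_nonneg fun v _ => mul_nonneg (hw v) (sq_nonneg _)
    have h2 : ∑ v, w v * ((x v - 1 / 2) + t * g v) ^ 2
        = ∑ v, (w v * (1 / 4) + (2 * t * (w v * (x v - 1 / 2) * g v) + t ^ 2 * (w v * g v ^ 2))) := by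
      refine sum_congr rfl fun v _ => ?_
      rcases hx v with h | h <;> rw [h] <;> ring
    rw [h2, sum_add_distrib, sum_add_distrib, ← sum_mul, ← mul_sum, ← mul_sum, h1] at h0
    linarith
  rcases eq_or_lt_of_le hG0 with h0 | hpos
  · rw [← h0] at key ⊢
    have : S = 0 := by
      by_contra hne
      have h1 := key (-1 / (S))
      have : 2 * (-1 / S) * S = -2 := by field_simp
      have h2 : 1 / 4 + 2 * (-1 / S) * S + (-1 / S) ^ 2 * 0 = 1 / 4 - 2 := by rw [this]; ring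
      rw [h2] at h1
      linarith
    rw [this]; norm_num
  · have h1 := key (-S / G)
    have h2 : 1 / 4 + 2 * (-S / G) * S + (-S / G) ^ 2 * G = 1 / 4 - S ^ 2 / G := by
      field_simp; ring
    rw [h2] at h1
    have h3 : S ^ 2 / G ≤ 1 / 4 := by linarith
    rw [div_le_iff₀ hpos] at h3
    linarith

theorem coreM {V : Type} [Fintype V] (R : V → V → Prop) (K : V → V → V → Prop) (w : V → ℝ)
    (hO : Oriented R) (hK : Marks R K) (h : OptM R K w) : 4 / 9 ≤ T R w + Mk K w := by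
  by_contra hT
  push Not at hT
  have hw : ∀ v, 0 ≤ w v := fun v => (h.pos v).le
  have h1 := h.sum
  have hMk := Mk_nonneg (K := K) w hw
  have hc1 := cert1M w hO hK hw h1 hT
  have hc2 := cert2M w hO hK hw h1 hT
  have hp0 := p0_le_Em2 R w hw
  have hk4 := k4_nonneg R w hw
  have hTe := T_eq R w hO h1
  have hfs := f_sum R w hO h1
  obtain ⟨c, hc⟩ : ∃ c, c = (1 - M R w) / 2 := ⟨_, rfl⟩
  -- variance of m
  have hmv : M R w ^ 2 ≤ Em2 R w := by
    have h0 : 0 ≤ ∑ v, w v * (m R w v - M R w) ^ 2 :=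
      sum_nonneg fun v _ => mul_nonneg (hw v) (sq_nonneg _)
    have h2 : ∑ v, w v * (m R w v - M R w) ^ 2
        = Em2 R w - 2 * M R w * M R w + M R w ^ 2 := by
      have e : ∑ v, w v * (m R w v - M R w) ^ 2 = ∑ v, (w v * m R w v ^ 2
          - (2 * M R w * (w v * m R w v)) + w v * M R w ^ 2) :=
        sum_congr rfl fun v _ => by ring
      rw [e, sum_add_distrib, sum_sub_distrib, ← mul_sum, ← sum_mul, h1]
      simp only [Em2, M]; ring
    nlinarith
  have hfv : ∑ v, w v * (f R w v - c) ^ 2 = Ef2 R w - c ^ 2 := by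
    have e : ∑ v, w v * (f R w v - c) ^ 2 = ∑ v, (w v * f R w v ^ 2
        - (2 * c * (w v * f R w v)) + w v * c ^ 2) :=
      sum_congr rfl fun v _ => by ring
    rw [e, sum_add_distrib, sum_sub_distrib, ← mul_sum, ← sum_mul, h1, hfs, ← hc]
    simp only [Ef2]; ring
  have hfv0 : 0 ≤ ∑ v, w v * (f R w v - c) ^ 2 :=
    sum_nonneg fun v _ => mul_nonneg (hw v) (sq_nonneg _)
  obtain ⟨Vf, hVf⟩ : ∃ x, x = ∑ v, w v * (f R w v - c) ^ 2 := ⟨_, rfl⟩
  rw [← hVf] at hfv hfv0
  -- M > 1/3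
  have hM1 : 1 / 3 < M R w := by
    by_contra hM
    push Not at hM
    have h2 : M R w ^ 2 + 3 / 4 * (1 - M R w) ^ 2 ≤ T R w := by
      rw [hTe]
      have : Ef2 R w = Vf + c ^ 2 := by linarith
      rw [this, hc]
      nlinarith
    nlinarith [mul_nonneg (sub_nonneg.mpr hM) (sub_nonneg.mpr hM)]
  obtain ⟨q, hq⟩ : ∃ q, q = M R w - 1 / 3 := ⟨_, rfl⟩
  have hq0 : 0 < q := by rw [hq]; linarith
  have hq1 : q ≤ 0.0131 := by rw [hq]; linarith
  have hcq : c = 1 / 3 - q / 2 := by rw [hc, hq]; ring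
  have hVf1 : Vf ≤ 0.000225 := by
    have : 0 ≤ (c - 0.329) ^ 2 := sq_nonneg _
    have e : Ef2 R w - 0.329 * (1 - M R w) + 0.329 ^ 2 = Vf + (c - 0.329) ^ 2 := by
      have : Ef2 R w = Vf + c ^ 2 := by linarith
      rw [this, hc]; ring
    rw [e] at hc2
    linarith
  -- pointwise
  have hpt : ∀ v, (m R w v - c) ^ 2 + (f R w v - c) ^ 2 + 2 * kap R w v ≤ 0.0194525 := by
    intro v
    have hk := h.kkt v
    have hmu := mu_nonneg (K := K) w hw v
    rw [L_eq R w hO h1 v] at hk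
    have hfin := fin_eq R w hO h1 v
    obtain ⟨Pv, hPv⟩ : ∃ x, x = ∑ x, w x * A R x v * (f R w x - c) := ⟨_, rfl⟩
    have hs : ∑ x, w x * A R x v * f R w x = c * (1 - m R w v - f R w v) + Pv := by
      rw [hPv, ← hfin, mul_sum, ← sum_add_distrib]
      exact sum_congr rfl fun x _ => by ring
    have hPsq : Pv ^ 2 ≤ 1 / 4 * Vf := by
      rw [hPv, hVf]
      refine cs_half w (fun x => f R w x - c) (fun x => A R x v) hw h1 ?_ ?_
      · have : ∑ x, w x * (f R w x - c) = ∑ x, w x * f R w x - c * ∑ x, w x := by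
          rw [mul_sum, ← sum_sub_distrib]
          exact sum_congr rfl fun x _ => by ring
        rw [this, h1, hfs, hc]; ring
      · intro x
        unfold A
        split_ifs
        · right; rfl
        · left; rfl
    have hP : -0.0075 ≤ Pv := by nlinarith
    rw [hs] at hk
    have e : (m R w v - c) ^ 2 + (f R w v - c) ^ 2 + 2 * kap R w v
        = (T R w + Mk K w) - mu K w v - 2 * c + 2 * c ^ 2 - 2 * Pv := by rw [← hk]; ring
    rw [e, hcq]
    nlinarith
  have hk : ∀ v, kap R w v ≤ 0.00973 := fun v => by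
    have := hpt v
    nlinarith [sq_nonneg (m R w v - c), sq_nonneg (f R w v - c)]
  have hmm : ∀ v, (m R w v - c) ^ 2 ≤ 0.1395 ^ 2 := fun v => by
    have := hpt v
    have := kap_nonneg R w hw v
    nlinarith [sq_nonneg (f R w v - c)]
  have hm1 : ∀ v, 0.187 ≤ m R w v := fun v => by
    have := abs_le.mp (abs_le_of_sq_le_sq (hmm v) (by norm_num))
    linarith [this.1]
  have hm2 : ∀ v, m R w v ≤ 0.473 := fun v => by
    have := abs_le.mp (abs_le_of_sq_le_sq (hmm v) (by norm_num))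
    linarith [this.2]
  have hC2 : 6 * (Em2 R w - p0 R w) + k4 R w ≤ 0.00225 := by
    have e : Ef2 R w - 0.329 * (1 - M R w) + 0.329 ^ 2 = Vf + (c - 0.329) ^ 2 := by
      have : Ef2 R w = Vf + c ^ 2 := by linarith
      rw [this, hc]; ring
    rw [e] at hc2
    nlinarith [sq_nonneg (c - 0.329)]
  obtain ⟨P, hz, hZ, hWb, hW0⟩ := partition_exists R w hO h.pos h1 hM1 (by linarith) hC2 hk hm1 hm2
  have ha0 := al_nonneg R w hw P
  have hb0 := be_nonneg R w hw P
  have hpl := p0_le R w hO hw P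
  have hme := m_eq R w P
  have hsoc := soc_corM R hO hK w h
  have hsW1 := sum_W w P (fun _ => 1)
  have hsW2 := sum_W w P (fun i => W w P i)
  have hsW3 := sum_W w P (fun i => W w P i ^ 2)
  have hcor := cornerM R K w hO hK h.pos P hsoc c (c - W w P 0) rfl
  simp only [Fin.sum_univ_three, mul_one] at hsW1 hsW2 hsW3 hpl
  rw [h1] at hsW1
  obtain ⟨S1, hS1⟩ : ∃ x, x = ∑ v, w v * (if P v = 1 then min (al R w P v) 0.02 else 0) := ⟨_, rfl⟩
  obtain ⟨S2, hS2⟩ : ∃ x, x = ∑ v, w v * (if P v = 2 then min (al R w P v) 0.02 else 0) := ⟨_, rfl⟩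
  rw [← hS1, ← hS2] at hcor
  have hS1p : 0 ≤ S1 := by
    rw [hS1]
    refine sum_nonneg fun v _ => mul_nonneg (hw v) ?_
    split_ifs
    · exact le_min (ha0 v) (by norm_num)
    · exact le_rfl
  have hS2p : 0 ≤ S2 := by
    rw [hS2]
    refine sum_nonneg fun v _ => mul_nonneg (hw v) ?_
    split_ifs
    · exact le_min (ha0 v) (by norm_num)
    · exact le_rfl
  -- sums
  obtain ⟨sa, hsa⟩ : ∃ x, x = ∑ v, w v * al R w P v := ⟨_, rfl⟩
  obtain ⟨sb, hsb⟩ : ∃ x, x = ∑ v, w v * be R w P v := ⟨_, rfl⟩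
  have hsa0 : 0 ≤ sa := by rw [hsa]; exact sum_nonneg fun v _ => mul_nonneg (hw v) (ha0 v)
  have hsb0 : 0 ≤ sb := by rw [hsb]; exact sum_nonneg fun v _ => mul_nonneg (hw v) (hb0 v)
  have hsab : sa + sb ≤ 0.00345 := by
    have : sa + sb = ∑ v, w v * (al R w P v + be R w P v) := by
      rw [hsa, hsb, ← sum_add_distrib]; exact sum_congr rfl fun v _ => by ring
    rw [this]; exact hZ
  -- M in terms of the partition
  have hMp : M R w = ∑ v, w v * W w P (P v) - sa + sb := by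
    rw [hsa, hsb, ← sum_sub_distrib, ← sum_add_distrib]
    unfold M
    exact sum_congr rfl fun v _ => by rw [hme v]; ring
  -- energy
  have hE1 : ∑ v, w v * (W w P (P v) ^ 2 + 6 * W w P (P v) * be R w P v
      - 3 * (al R w P v + be R w P v) ^ 2) ≤ 3 * Em2 R w - 2 * p0 R w := by
    have e1 : Em2 R w = ∑ v, w v * (W w P (P v) - al R w P v + be R w P v) ^ 2 := by
      unfold Em2
      exact sum_congr rfl fun v _ => by rw [hme v]
    have e2 : 3 * ∑ v, w v * (W w P (P v) - al R w P v + be R w P v) ^ 2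
        - 2 * (∑ v, w v * W w P (P v) ^ 2 + ∑ v, w v * (-3 * W w P (P v) * al R w P v
          + 3 * al R w P v ^ 2 + 3 * be R w P v ^ 2))
        = ∑ v, w v * (W w P (P v) ^ 2 + 6 * W w P (P v) * be R w P v
          - 3 * (al R w P v + be R w P v) ^ 2) := by
      rw [mul_sum, ← sum_add_distrib, mul_sum, ← sum_sub_distrib]
      exact sum_congr rfl fun v _ => by ring
    have e3 : ∑ v, w v * W w P (P v) ^ 2 = W w P 0 ^ 3 + W w P 1 ^ 3 + W w P 2 ^ 3 := by
      rw [hsW3]; ring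
    rw [← e2, e3, e1]
    linarith
  have hE2 : ∑ v, w v * (W w P (P v) * al R w P v + 2 * W w P (P v) * be R w P v
      - 2 * (al R w P v + be R w P v) ^ 2) ≤ Em2 R w - p0 R w := by
    have e1 : Em2 R w = ∑ v, w v * (W w P (P v) - al R w P v + be R w P v) ^ 2 := by
      unfold Em2
      exact sum_congr rfl fun v _ => by rw [hme v]
    have e2 : ∑ v, w v * (W w P (P v) - al R w P v + be R w P v) ^ 2
        - (∑ v, w v * W w P (P v) ^ 2 + ∑ v, w v * (-3 * W w P (P v) * al R w P v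
          + 3 * al R w P v ^ 2 + 3 * be R w P v ^ 2))
        = ∑ v, w v * (W w P (P v) * al R w P v + 2 * W w P (P v) * be R w P v
          - 2 * (al R w P v + be R w P v) ^ 2 + 2 * al R w P v * be R w P v) := by
      rw [← sum_add_distrib, ← sum_sub_distrib]
      exact sum_congr rfl fun v _ => by ring
    have e3 : ∑ v, w v * W w P (P v) ^ 2 = W w P 0 ^ 3 + W w P 1 ^ 3 + W w P 2 ^ 3 := by
      rw [hsW3]; ring
    have e4 : ∑ v, w v * (W w P (P v) * al R w P v + 2 * W w P (P v) * be R w P v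
          - 2 * (al R w P v + be R w P v) ^ 2) ≤ ∑ v, w v * (W w P (P v) * al R w P v
          + 2 * W w P (P v) * be R w P v
          - 2 * (al R w P v + be R w P v) ^ 2 + 2 * al R w P v * be R w P v) := by
      refine sum_le_sum fun v _ => mul_le_mul_of_nonneg_left ?_ (hw v)
      have := mul_nonneg (ha0 v) (hb0 v)
      linarith
    rw [← e2, e3] at e4
    rw [e1]
    linarith
  -- lower bound for Em2 - p0
  have hE3 : 0.078 * (sa + sb) ≤ Em2 R w - p0 R w := by
    refine le_trans ?_ hE2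
    rw [hsa, hsb, ← sum_add_distrib, mul_sum]
    refine sum_le_sum fun v _ => ?_
    have e : 0.078 * (w v * al R w P v + w v * be R w P v)
        = w v * (0.078 * (al R w P v + be R w P v)) := by ring
    rw [e]
    exact mul_le_mul_of_nonneg_left (Num.e3 _ _ _ (ha0 v) (hb0 v) (hz v) (hWb (P v))) (hw v)
  obtain ⟨u, hu⟩ : ∃ u, u = 1 / 3 - W w P 0 := ⟨_, rfl⟩
  obtain ⟨e₁, he₁⟩ : ∃ u, u = W w P 1 - 1 / 3 := ⟨_, rfl⟩
  obtain ⟨e₂, he₂⟩ : ∃ u, u = W w P 2 - 1 / 3 := ⟨_, rfl⟩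
  have hW0e : W w P 0 = 1 / 3 - u := by rw [hu]; ring
  have hW1e : W w P 1 = 1 / 3 + e₁ := by rw [he₁]; ring
  have hW2e : W w P 2 = 1 / 3 + e₂ := by rw [he₂]; ring
  have hsum : e₁ + e₂ = u := by rw [he₁, he₂, hu]; linarith
  have hu1 : -u ≤ e₁ := by have := hW0 1; rw [he₁, hu]; linarith
  have hu2 : -u ≤ e₂ := by have := hW0 2; rw [he₂, hu]; linarith
  have hu0 : 0 ≤ u := by linarith
  have hWu : u ≤ 0.1054 := by have := hWb 0; rw [hu]; linarith
  have he1s : e₁ = u - e₂ := by linarith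
  rw [he1s] at hW1e hu1
  have hqQ : q = u ^ 2 + (u - e₂) ^ 2 + e₂ ^ 2 - sa + sb := by
    rw [hq, hMp, hsW2, hW0e, hW1e, hW2e]
    ring
  -- total
  have hTot : 4 / 9 + ((u - e₂) ^ 3 + e₂ ^ 3 - u ^ 3) + 3 / 4 * q ^ 2 + 3 * Vf
      + ∑ v, w v * (al R w P v - be R w P v + 6 * W w P (P v) * be R w P v
        - 3 * (al R w P v + be R w P v) ^ 2) ≤ T R w := by
    have e1 : Ef2 R w = Vf + c ^ 2 := by linarith
    have e2 : ∑ v, w v * (W w P (P v) ^ 2 + 6 * W w P (P v) * be R w P v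
      - 3 * (al R w P v + be R w P v) ^ 2) = W w P 0 ^ 3 + W w P 1 ^ 3 + W w P 2 ^ 3
        - sa + sb + ∑ v, w v * (al R w P v - be R w P v + 6 * W w P (P v) * be R w P v
        - 3 * (al R w P v + be R w P v) ^ 2) := by
      have e3 : W w P 0 ^ 3 + W w P 1 ^ 3 + W w P 2 ^ 3 = ∑ v, w v * W w P (P v) ^ 2 := by
        rw [hsW3]; ring
      rw [e3, hsa, hsb, ← sum_sub_distrib, ← sum_add_distrib, ← sum_add_distrib]
      exact sum_congr rfl fun v _ => by ring
    rw [e2, hW0e, hW1e, hW2e] at hE1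
    rw [hTe, e1, hcq]
    exact Num.tot_alg u e₂ sa sb _ _ _ Vf q hqQ hE1
  have hPsiS : 0 ≤ ∑ v, w v * (al R w P v - be R w P v + 6 * W w P (P v) * be R w P v
        - 3 * (al R w P v + be R w P v) ^ 2) :=
    sum_nonneg fun v _ => mul_nonneg (hw v)
      (Num.psi0 _ _ _ (ha0 v) (hb0 v) (hz v) (hWb (P v)))
  -- if one of e₁, e₂ is nonpositive we are done
  have hep : 0 < u - e₂ ∧ 0 < e₂ := by
    by_contra hne
    rw [not_and_or, not_lt, not_lt] at hne
    have hcub : 0 ≤ (u - e₂) ^ 3 + e₂ ^ 3 - u ^ 3 := by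
      rcases hne with h0 | h0
      · have := Num.cub_nonneg u (u - e₂) hu0 h0
        have e : (u - (u - e₂)) ^ 3 + (u - e₂) ^ 3 - u ^ 3 = (u - e₂) ^ 3 + e₂ ^ 3 - u ^ 3 := by
          ring
        rw [e] at this
        exact this
      · exact Num.cub_nonneg u e₂ hu0 h0
    have := sq_nonneg q
    linarith
  obtain ⟨he1, he2⟩ := hep
  have hupos : 0 < u := by linarith
  -- size of u
  have hQ : u ^ 2 + (u - e₂) ^ 2 + e₂ ^ 2 ≤ 0.0131 := by
    have hc1' : q + 15 * (Em2 R w - p0 R w) ≤ 0.0131 := by rw [hq]; linarith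
    rw [hqQ] at hc1'
    linarith
  have hu9 : u ≤ 0.0935 := Num.u_le u e₂ hu0 hQ
  obtain ⟨δ, hδ⟩ : ∃ δ, δ = c - W w P 0 := ⟨_, rfl⟩
  have hδu : δ = u - q / 2 := by rw [hδ, hcq, hW0e]; ring
  have hδ89 : δ ≤ 0.089 := by
    rw [hδu]
    refine Num.delta_le u q hu0 hu9 ?_
    have := Num.q15 u e₂
    rw [hqQ]
    linarith
  -- lower bound of the defect term with gain
  have hPsi : ∀ v, 0.01 * al R w P v + 0.92 * ((if P v = 1 then min (al R w P v) 0.02 else 0)
        + (if P v = 2 then min (al R w P v) 0.02 else 0))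
      ≤ al R w P v - be R w P v + 6 * W w P (P v) * be R w P v
        - 3 * (al R w P v + be R w P v) ^ 2 := by
    intro v
    have a1 := ha0 v
    have b1 := hb0 v
    have z1 := hz v
    rcases (by omega : (P v).val = 0 ∨ (P v).val = 1 ∨ (P v).val = 2) with hv | hv | hv
    · have hP0 : P v = 0 := Fin.ext hv
      have := Num.psi_zero _ _ u a1 b1 z1 hu9
      rw [if_neg (by rw [hP0]; decide), if_neg (by rw [hP0]; decide), hP0, hW0e]
      linarith
    · have hP1 : P v = 1 := Fin.ext hv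
      have := Num.psi_pos _ _ (u - e₂) a1 b1 z1 he1.le
      rw [if_pos hP1, if_neg (by rw [hP1]; decide), hP1, hW1e]
      linarith
    · have hP2 : P v = 2 := Fin.ext hv
      have := Num.psi_pos _ _ e₂ a1 b1 z1 he2.le
      rw [if_neg (by rw [hP2]; decide), if_pos hP2, hP2, hW2e]
      linarith
  have hPsiT : 0.01 * sa + 0.92 * (S1 + S2) ≤ ∑ v, w v * (al R w P v - be R w P v
      + 6 * W w P (P v) * be R w P v - 3 * (al R w P v + be R w P v) ^ 2) := by
    have e : 0.01 * sa + 0.92 * (S1 + S2) = ∑ v, w v * (0.01 * al R w P v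
        + 0.92 * ((if P v = 1 then min (al R w P v) 0.02 else 0)
        + (if P v = 2 then min (al R w P v) 0.02 else 0))) := by
      rw [hsa, hS1, hS2, ← sum_add_distrib, mul_sum, mul_sum, ← sum_add_distrib]
      exact sum_congr rfl fun v _ => by ring
    rw [e]
    exact sum_le_sum fun v _ => mul_le_mul_of_nonneg_left (hPsi v) (hw v)
  have hcube := Num.cube_lb u e₂ hu0
  have hTotM : 4 / 9 + ((u - e₂) ^ 3 + e₂ ^ 3 - u ^ 3) + 3 / 4 * q ^ 2 + 3 * (Vf + Mk K w / 3)
      + ∑ v, w v * (al R w P v - be R w P v + 6 * W w P (P v) * be R w P v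
        - 3 * (al R w P v + be R w P v) ^ 2) ≤ T R w + Mk K w := by linarith
  rcases le_or_gt δ 0 with hδ0 | hδ0
  · -- q is large compared with u
    have hq2 : 2 * u ≤ q := by linarith
    have := Num.fin_neg u q sa (Vf + Mk K w / 3) S1 S2 _ _ _ hu0 hu9 hq2 (by linarith) hS1p hS2p
      hsa0 hcube hPsiT hTotM
    linarith
  · have hW1b := hWb 1
    have hW2b := hWb 2
    rw [← hδ] at hcor
    have hcor' := hcor hδ0 hδ89 (by linarith) (by linarith)
    have hle : ∑ v, w v * (if P v = 0 then 0 else (c - f R w v) ^ 2) ≤ Vf := by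
      rw [hVf]
      refine sum_le_sum fun v _ => mul_le_mul_of_nonneg_left ?_ (hw v)
      split_ifs
      · exact sq_nonneg _
      · rw [show (c - f R w v) ^ 2 = (f R w v - c) ^ 2 by ring]
    have hV3 : 3 / 4 * δ ^ 3 ≤ 3 * (Vf + Mk K w / 3) + 0.92 * (S1 + S2) := by linarith
    have := Num.fin_pos u e₂ q sa sb (Vf + Mk K w / 3) S1 S2 _ _ _ δ hu0 hq0.le hq1 hδu hδ0 hqQ
      hsa0 hsb0 hV3 hcube hPsiT hTotM
    linarith

end Pool.Agent.Helper35.FdM
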