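import Pool.Agent.Helper35.FdM.Ideal

/-! The functional of the game and its one-sided derivative in the chosen direction. -/

set_option autoImplicit false
open Finset

namespace Pool.Agent.Helper35.FdM

section defs
variable {α β : Type} [Fintype α] [Fintype β] (t : α → β → ℝ) (adU : α → α → ℝ)
    (adW : β → β → ℝ) (k1 : α → β → β → ℝ) (k2 : β → α → α → ℝ) (C y0 z0 : ℝ)

/-- the functional of the game -/
noncomputable def Phi (w : α → ℝ) (v : β → ℝ) : ℝ :=
  1 / 2 * (∑ u, w u * (max (y0 + ∑ x, v x * (1 - t u x)) 0) ^ 2)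
  + 1 / 2 * (∑ x, v x * (max (z0 + ∑ u, w u * t u x) 0) ^ 2)
  + 1 / 2 * (∑ u, ∑ x, ∑ x', w u * v x * v x' * k1 u x x')
  + 1 / 2 * (∑ x, ∑ u, ∑ u', v x * w u * w u' * k2 x u u')
  + C / 2 * (∑ u, ∑ u', w u * w u' * adU u u')
  + C / 2 * (∑ x, ∑ x', v x * v x' * adW x x')

/-- the linear term in the direction `-(ψ, χ)` -/
noncomputable def dPhi (w : α → ℝ) (v : β → ℝ) (ψ : α → ℝ) (χ : β → ℝ) : ℝ :=
  1 / 2 * (∑ u, (ψ u * (max (y0 + ∑ x, v x * (1 - t u x)) 0) ^ 2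
      + 2 * (w u * (∑ x, χ x * (1 - t u x)) * max (y0 + ∑ x, v x * (1 - t u x)) 0)))
  + 1 / 2 * (∑ x, (χ x * (max (z0 + ∑ u, w u * t u x) 0) ^ 2
      + 2 * (v x * (∑ u, ψ u * t u x) * max (z0 + ∑ u, w u * t u x) 0)))
  + 1 / 2 * (∑ u, ∑ x, ∑ x', (ψ u * v x * v x' + w u * χ x * v x' + w u * v x * χ x') * k1 u x x')
  + 1 / 2 * (∑ x, ∑ u, ∑ u', (χ x * w u * w u' + v x * ψ u * w u' + v x * w u * ψ u') * k2 x u u')
  + C / 2 * (∑ u, ∑ u', (ψ u * w u' + w u * ψ u') * adU u u')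
  + C / 2 * (∑ x, ∑ x', (χ x * v x' + v x * χ x') * adW x x')

end defs

theorem sum_psi {α : Type} [Fintype α] [DecidableEq α] (us : α) (c F : α → ℝ) :
    ∑ u, ((if u = us then 1 else 0) + c u) * F u = F us + ∑ u, c u * F u := by
  simp only [add_mul, sum_add_distrib, ite_mul, one_mul, zero_mul, Finset.sum_ite_eq',
    Finset.mem_univ, if_true]

section
variable {α β : Type} [Fintype α] [Fintype β] {t : α → β → ℝ} {adU : α → α → ℝ}
    {adW : β → β → ℝ} {k1 : α → β → β → ℝ} {k2 : β → α → α → ℝ}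

/-- first simplification of the derivative -/
theorem dPhi_ge [DecidableEq α] (G : Game t adU adW k1 k2) (us : α) (w : α → ℝ) (v : β → ℝ)
    (hw : ∀ u, 0 ≤ w u) (hv : ∀ x, 0 ≤ v x) (C y0 z0 γ : ℝ) (hγ : 0 ≤ γ)
    (q : α → ℝ) (hq : ∀ u, 0 ≤ q u) :
    1 / 2 * (max (y0 + ∑ x, v x * (1 - t us x)) 0) ^ 2
      + (∑ x, v x * t us x * max (z0 + ∑ u, w u * t u x) 0)
      + 1 / 2 * (∑ x, ∑ x', v x * v x' * k1 us x x')
      + (∑ u, ∑ x, v x * w u * k2 x us u)
      + C * (∑ u, w u * adU us u)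
      + γ * (∑ u, w u * (∑ x, v x * t us x * (1 - t u x)) * max (y0 + ∑ x, v x * (1 - t u x)) 0)
      + γ * (∑ u, ∑ x, ∑ x', v x * t us x * w u * v x' * k1 u x x')
      + γ * (1 / 2 * ∑ x, ∑ u, ∑ u2, v x * t us x * (w u * w u2 * k2 x u u2))
      + γ * (C * ∑ x, ∑ x', v x * t us x * (v x' * adW x x'))
      + C * (∑ u, q u * ∑ u2, w u2 * adU u u2)
    ≤ dPhi t adU adW k1 k2 C y0 z0 w v (fun u => (if u = us then 1 else 0) + q u)
        (fun x => γ * (v x * t us x)) := by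
  have hvt : ∀ x, 0 ≤ v x * t us x := fun x => mul_nonneg (hv x) (G.t0 us x)
  set P : α → ℝ := fun u => max (y0 + ∑ x, v x * (1 - t u x)) 0 with hP
  set Q : β → ℝ := fun x => max (z0 + ∑ u, w u * t u x) 0 with hQ
  have hP0 : ∀ u, 0 ≤ P u := fun u => le_max_right _ _
  have hQ0 : ∀ x, 0 ≤ Q x := fun x => le_max_right _ _
  set ψ : α → ℝ := fun u => (if u = us then 1 else 0) + q u with hψ
  set χ : β → ℝ := fun x => γ * (v x * t us x) with hχ
  have hχ0 : ∀ x, 0 ≤ χ x := fun x => mul_nonneg hγ (hvt x)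
  have sp : ∀ F : α → ℝ, ∑ u, ψ u * F u = F us + ∑ u, q u * F u := fun F => sum_psi us q F
  have spge : ∀ F : α → ℝ, (∀ u, 0 ≤ F u) → F us ≤ ∑ u, ψ u * F u := fun F hF => by
    rw [sp]
    have := sum_nonneg fun u (_ : u ∈ univ) => mul_nonneg (hq u) (hF u)
    linarith
  -- term 1
  have T1 : 1 / 2 * P us ^ 2 + γ * (∑ u, w u * (∑ x, v x * t us x * (1 - t u x)) * P u)
      ≤ 1 / 2 * (∑ u, (ψ u * P u ^ 2 + 2 * (w u * (∑ x, χ x * (1 - t u x)) * P u))) := by
    rw [sum_add_distrib, mul_add]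
    have h1 := spge (fun u => P u ^ 2) (fun u => sq_nonneg _)
    have h2 : ∑ u, 2 * (w u * (∑ x, χ x * (1 - t u x)) * P u)
        = 2 * (γ * (∑ u, w u * (∑ x, v x * t us x * (1 - t u x)) * P u)) := by
      rw [mul_sum, mul_sum]
      refine sum_congr rfl fun u _ => ?_
      have : ∑ x, χ x * (1 - t u x) = γ * ∑ x, v x * t us x * (1 - t u x) := by
        rw [mul_sum]
        refine sum_congr rfl fun x _ => ?_
        show γ * (v x * t us x) * (1 - t u x) = _
        ring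
      rw [this]; ring
    rw [h2]
    have h1' : P us ^ 2 ≤ ∑ u, ψ u * P u ^ 2 := h1
    linarith
  -- term 2
  have T2 : (∑ x, v x * t us x * Q x)
      ≤ 1 / 2 * (∑ x, (χ x * Q x ^ 2 + 2 * (v x * (∑ u, ψ u * t u x) * Q x))) := by
    rw [mul_sum]
    refine sum_le_sum fun x _ => ?_
    have h1 := spge (fun u => t u x) (fun u => G.t0 u x)
    have h1' : t us x ≤ ∑ u, ψ u * t u x := h1
    have h2 : v x * t us x * Q x ≤ v x * (∑ u, ψ u * t u x) * Q x :=
      mul_le_mul_of_nonneg_right (mul_le_mul_of_nonneg_left h1' (hv x)) (hQ0 x)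
    have h3 : 0 ≤ χ x * Q x ^ 2 := mul_nonneg (hχ0 x) (sq_nonneg _)
    linarith
  -- term 3
  have T3 : 1 / 2 * (∑ x, ∑ x', v x * v x' * k1 us x x')
      + γ * (∑ u, ∑ x, ∑ x', v x * t us x * w u * v x' * k1 u x x')
      ≤ 1 / 2 * (∑ u, ∑ x, ∑ x',
        (ψ u * v x * v x' + w u * χ x * v x' + w u * v x * χ x') * k1 u x x') := by
    have e : ∑ u, ∑ x, ∑ x', (ψ u * v x * v x' + w u * χ x * v x' + w u * v x * χ x') * k1 u x x'
        = (∑ u, ψ u * ∑ x, ∑ x', v x * v x' * k1 u x x')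
          + (∑ u, ∑ x, ∑ x', w u * χ x * v x' * k1 u x x')
          + ∑ u, ∑ x, ∑ x', w u * v x * χ x' * k1 u x x' := by
      simp only [mul_sum, ← sum_add_distrib]
      exact sum_congr rfl fun u _ => sum_congr rfl fun x _ => sum_congr rfl fun x' _ => by ring
    have e2 : ∑ u, ∑ x, ∑ x', w u * v x * χ x' * k1 u x x'
        = ∑ u, ∑ x, ∑ x', w u * χ x * v x' * k1 u x x' := by
      refine sum_congr rfl fun u _ => ?_
      rw [sum_comm]
      refine sum_congr rfl fun x _ => sum_congr rfl fun x' _ => ?_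
      rw [G.k1s u x' x]; ring
    have e3 : ∑ u, ∑ x, ∑ x', w u * χ x * v x' * k1 u x x'
        = γ * (∑ u, ∑ x, ∑ x', v x * t us x * w u * v x' * k1 u x x') := by
      simp only [mul_sum]
      refine sum_congr rfl fun u _ => sum_congr rfl fun x _ => sum_congr rfl fun x' _ => ?_
      show w u * (γ * (v x * t us x)) * v x' * k1 u x x' = _
      ring
    have h1 := spge (fun u => ∑ x, ∑ x', v x * v x' * k1 u x x')
      (fun u => sum_nonneg fun x _ => sum_nonneg fun x' _ =>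
        mul_nonneg (mul_nonneg (hv x) (hv x')) (G.k10 u x x'))
    have h1' : ∑ x, ∑ x', v x * v x' * k1 us x x'
      ≤ ∑ u, ψ u * ∑ x, ∑ x', v x * v x' * k1 u x x' := h1
    rw [e, e2, e3]
    linarith
  -- term 4
  have T4 : (∑ u, ∑ x, v x * w u * k2 x us u)
      + γ * (1 / 2 * ∑ x, ∑ u, ∑ u2, v x * t us x * (w u * w u2 * k2 x u u2))
      ≤ 1 / 2 * (∑ x, ∑ u, ∑ u',
        (χ x * w u * w u' + v x * ψ u * w u' + v x * w u * ψ u') * k2 x u u') := by
    have e : ∑ x, ∑ u, ∑ u', (χ x * w u * w u' + v x * ψ u * w u' + v x * w u * ψ u') * k2 x u u'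
        = (∑ x, ∑ u, ∑ u', χ x * w u * w u' * k2 x u u')
          + (∑ x, ∑ u, ∑ u', v x * ψ u * w u' * k2 x u u')
          + ∑ x, ∑ u, ∑ u', v x * w u * ψ u' * k2 x u u' := by
      simp only [← sum_add_distrib]
      exact sum_congr rfl fun x _ => sum_congr rfl fun u _ => sum_congr rfl fun u' _ => by ring
    have e2 : ∑ x, ∑ u, ∑ u', v x * w u * ψ u' * k2 x u u'
        = ∑ x, ∑ u, ∑ u', v x * ψ u * w u' * k2 x u u' := by
      refine sum_congr rfl fun x _ => ?_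
      rw [sum_comm]
      refine sum_congr rfl fun u _ => sum_congr rfl fun u' _ => ?_
      rw [G.k2s x u' u]; ring
    have e3 : ∑ x, ∑ u, ∑ u', χ x * w u * w u' * k2 x u u'
        = γ * ∑ x, ∑ u, ∑ u2, v x * t us x * (w u * w u2 * k2 x u u2) := by
      simp only [mul_sum]
      refine sum_congr rfl fun x _ => sum_congr rfl fun u _ => sum_congr rfl fun u' _ => ?_
      show γ * (v x * t us x) * w u * w u' * k2 x u u' = _
      ring
    have h1 : ∑ u, ∑ x, v x * w u * k2 x us u ≤ ∑ x, ∑ u, ∑ u', v x * ψ u * w u' * k2 x u u' := by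
      rw [sum_comm]
      refine sum_le_sum fun x _ => ?_
      have h2 := spge (fun u => ∑ u', v x * w u' * k2 x u u')
        (fun u => sum_nonneg fun u' _ => mul_nonneg (mul_nonneg (hv x) (hw u')) (G.k20 x u u'))
      have h2' : ∑ u', v x * w u' * k2 x us u' ≤ ∑ u, ψ u * ∑ u', v x * w u' * k2 x u u' := h2
      refine h2'.trans (le_of_eq ?_)
      refine sum_congr rfl fun u _ => ?_
      rw [mul_sum]
      exact sum_congr rfl fun u' _ => by ring
    rw [e, e2, e3]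
    linarith
  -- term 5
  have T5 : C * (∑ u, w u * adU us u) + C * (∑ u, q u * ∑ u2, w u2 * adU u u2)
      = C / 2 * (∑ u, ∑ u', (ψ u * w u' + w u * ψ u') * adU u u') := by
    have e : ∑ u, ∑ u', (ψ u * w u' + w u * ψ u') * adU u u'
        = (∑ u, ψ u * ∑ u', w u' * adU u u') + ∑ u, ∑ u', w u * ψ u' * adU u u' := by
      simp only [mul_sum, ← sum_add_distrib]
      exact sum_congr rfl fun u _ => sum_congr rfl fun u' _ => by ring
    have e2 : ∑ u, ∑ u', w u * ψ u' * adU u u' = ∑ u, ψ u * ∑ u', w u' * adU u u' := by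
      rw [sum_comm]
      refine sum_congr rfl fun u _ => ?_
      rw [mul_sum]
      refine sum_congr rfl fun u' _ => ?_
      rw [G.aUs u' u]; ring
    rw [e, e2, sp]
    ring
  -- term 6
  have T6 : γ * (C * ∑ x, ∑ x', v x * t us x * (v x' * adW x x'))
      = C / 2 * (∑ x, ∑ x', (χ x * v x' + v x * χ x') * adW x x') := by
    have e : ∑ x, ∑ x', (χ x * v x' + v x * χ x') * adW x x'
        = (∑ x, ∑ x', χ x * v x' * adW x x') + ∑ x, ∑ x', v x * χ x' * adW x x' := by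
      simp only [← sum_add_distrib]
      exact sum_congr rfl fun u _ => sum_congr rfl fun u' _ => by ring
    have e2 : ∑ x, ∑ x', v x * χ x' * adW x x' = ∑ x, ∑ x', χ x * v x' * adW x x' := by
      rw [sum_comm]
      refine sum_congr rfl fun x _ => sum_congr rfl fun x' _ => ?_
      rw [G.aWs x' x]; ring
    have e3 : ∑ x, ∑ x', χ x * v x' * adW x x'
        = γ * ∑ x, ∑ x', v x * t us x * (v x' * adW x x') := by
      simp only [mul_sum]
      refine sum_congr rfl fun x _ => sum_congr rfl fun x' _ => ?_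
      show γ * (v x * t us x) * v x' * adW x x' = _
      ring
    rw [e, e2, e3]
    ring
  show _ ≤ 1 / 2 * (∑ u, (ψ u * P u ^ 2 + 2 * (w u * (∑ x, χ x * (1 - t u x)) * P u)))
    + 1 / 2 * (∑ x, (χ x * Q x ^ 2 + 2 * (v x * (∑ u, ψ u * t u x) * Q x)))
    + 1 / 2 * (∑ u, ∑ x, ∑ x', (ψ u * v x * v x' + w u * χ x * v x' + w u * v x * χ x') * k1 u x x')
    + 1 / 2 * (∑ x, ∑ u, ∑ u', (χ x * w u * w u' + v x * ψ u * w u' + v x * w u * ψ u') * k2 x u u')
    + C / 2 * (∑ u, ∑ u', (ψ u * w u' + w u * ψ u') * adU u u')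
    + C / 2 * (∑ x, ∑ x', (χ x * v x' + v x * χ x') * adW x x')
  have T1' : 1 / 2 * (max (y0 + ∑ x, v x * (1 - t us x)) 0) ^ 2
      + γ * (∑ u, w u * (∑ x, v x * t us x * (1 - t u x)) * max (y0 + ∑ x, v x * (1 - t u x)) 0)
      ≤ 1 / 2 * (∑ u, (ψ u * P u ^ 2 + 2 * (w u * (∑ x, χ x * (1 - t u x)) * P u))) := T1
  have T2' : (∑ x, v x * t us x * max (z0 + ∑ u, w u * t u x) 0)
      ≤ 1 / 2 * (∑ x, (χ x * Q x ^ 2 + 2 * (v x * (∑ u, ψ u * t u x) * Q x))) := T2
  linarith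

end

end Pool.Agent.Helper35.FdM
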