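import Pool.Agent.Helper35.FdM.Deriv

/-! Second order upper bound for the functional of the game. -/

set_option autoImplicit false
open Finset

namespace Pool.Agent.Helper35.FdM

theorem posPart_step (p c : ℝ) (hc : 0 ≤ c) :
    (max (p - c) 0) ^ 2 ≤ (max p 0) ^ 2 - 2 * c * max p 0 + c ^ 2 := by
  have e : (max p 0) ^ 2 - 2 * c * max p 0 + c ^ 2 = (max p 0 - c) ^ 2 := by ring
  rw [e]
  rcases le_total (p - c) 0 with h | h
  · rw [max_eq_right h]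
    nlinarith [sq_nonneg (max p 0 - c)]
  · have hp : 0 ≤ p := by linarith
    rw [max_eq_left h, max_eq_left hp]

theorem partA {α : Type} [Fintype α] (w ψ p π : α → ℝ) (hψ : ∀ u, 0 ≤ ψ u)
    (hπ : ∀ u, 0 ≤ π u) (s : ℝ) (hs : 0 ≤ s) (hsw : ∀ u, s * ψ u ≤ w u) :
    ∑ u, (w u - s * ψ u) * (max (p u - s * π u) 0) ^ 2 ≤
      (∑ u, w u * (max (p u) 0) ^ 2)
      - s * (∑ u, (ψ u * (max (p u) 0) ^ 2 + 2 * (w u * π u * max (p u) 0)))
      + s ^ 2 * (∑ u, (w u * π u ^ 2 + 2 * (ψ u * π u * max (p u) 0))) := by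
  rw [mul_sum, mul_sum, ← sum_sub_distrib, ← sum_add_distrib]
  refine sum_le_sum fun u _ => ?_
  have h1 := posPart_step (p u) (s * π u) (mul_nonneg hs (hπ u))
  have h2 := mul_le_mul_of_nonneg_left h1 (sub_nonneg.mpr (hsw u))
  refine h2.trans ?_
  have h3 : 0 ≤ s ^ 3 * (ψ u * π u ^ 2) :=
    mul_nonneg (by positivity) (mul_nonneg (hψ u) (sq_nonneg _))
  nlinarith

theorem partB {α β : Type} [Fintype α] [Fintype β] (k : α → β → β → ℝ)
    (hk : ∀ u x x', 0 ≤ k u x x') (w ψ : α → ℝ) (v χ : β → ℝ)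
    (hψ : ∀ u, 0 ≤ ψ u) (hχ : ∀ x, 0 ≤ χ x) (s : ℝ) (hs : 0 ≤ s) :
    ∑ u, ∑ x, ∑ x', (w u - s * ψ u) * (v x - s * χ x) * (v x' - s * χ x') * k u x x' ≤
      (∑ u, ∑ x, ∑ x', w u * v x * v x' * k u x x')
      - s * (∑ u, ∑ x, ∑ x', (ψ u * v x * v x' + w u * χ x * v x' + w u * v x * χ x') * k u x x')
      + s ^ 2 * (∑ u, ∑ x, ∑ x',
        (ψ u * χ x * v x' + ψ u * v x * χ x' + w u * χ x * χ x') * k u x x') := by
  simp only [mul_sum, ← sum_sub_distrib, ← sum_add_distrib]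
  refine sum_le_sum fun u _ => sum_le_sum fun x _ => sum_le_sum fun x' _ => ?_
  have h3 : 0 ≤ s ^ 3 * (ψ u * χ x * χ x' * k u x x') :=
    mul_nonneg (by positivity) (mul_nonneg (mul_nonneg (mul_nonneg (hψ u) (hχ x)) (hχ x'))
      (hk u x x'))
  nlinarith

theorem partC {α : Type} [Fintype α] (k : α → α → ℝ) (w ψ : α → ℝ) (s : ℝ) :
    ∑ u, ∑ u', (w u - s * ψ u) * (w u' - s * ψ u') * k u u' =
      (∑ u, ∑ u', w u * w u' * k u u')
      - s * (∑ u, ∑ u', (ψ u * w u' + w u * ψ u') * k u u')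
      + s ^ 2 * (∑ u, ∑ u', ψ u * ψ u' * k u u') := by
  simp only [mul_sum, ← sum_sub_distrib, ← sum_add_distrib]
  exact sum_congr rfl fun u _ => sum_congr rfl fun x _ => by ring

section
variable {α β : Type} [Fintype α] [Fintype β] {t : α → β → ℝ} {adU : α → α → ℝ}
    {adW : β → β → ℝ} {k1 : α → β → β → ℝ} {k2 : β → α → α → ℝ}

theorem Phi_expand (G : Game t adU adW k1 k2) (C y0 z0 : ℝ) (hC : 0 ≤ C)
    (w ψ : α → ℝ) (v χ : β → ℝ) (hw : ∀ u, 0 ≤ w u) (hv : ∀ x, 0 ≤ v x)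
    (hψ : ∀ u, 0 ≤ ψ u) (hχ : ∀ x, 0 ≤ χ x) :
    ∃ KK : ℝ, 0 ≤ KK ∧ ∀ s : ℝ, 0 ≤ s → (∀ u, s * ψ u ≤ w u) → (∀ x, s * χ x ≤ v x) →
      Phi t adU adW k1 k2 C y0 z0 (fun u => w u - s * ψ u) (fun x => v x - s * χ x) ≤
        Phi t adU adW k1 k2 C y0 z0 w v - s * dPhi t adU adW k1 k2 C y0 z0 w v ψ χ
          + s ^ 2 * KK := by
  obtain ⟨p, hp⟩ : ∃ p : α → ℝ, p = fun u => y0 + ∑ x, v x * (1 - t u x) := ⟨_, rfl⟩
  obtain ⟨q, hq⟩ : ∃ q : β → ℝ, q = fun x => z0 + ∑ u, w u * t u x := ⟨_, rfl⟩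
  obtain ⟨π, hπ⟩ : ∃ π : α → ℝ, π = fun u => ∑ x, χ x * (1 - t u x) := ⟨_, rfl⟩
  obtain ⟨σ, hσ⟩ : ∃ σ : β → ℝ, σ = fun x => ∑ u, ψ u * t u x := ⟨_, rfl⟩
  have hπ0 : ∀ u, 0 ≤ π u := fun u => by
    rw [hπ]; exact sum_nonneg fun x _ => mul_nonneg (hχ x) (G.s0 u x)
  have hσ0 : ∀ x, 0 ≤ σ x := fun x => by
    rw [hσ]; exact sum_nonneg fun u _ => mul_nonneg (hψ u) (G.t0 u x)
  refine ⟨1 / 2 * (∑ u, (w u * π u ^ 2 + 2 * (ψ u * π u * max (p u) 0)))
    + 1 / 2 * (∑ x, (v x * σ x ^ 2 + 2 * (χ x * σ x * max (q x) 0)))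
    + 1 / 2 * (∑ u, ∑ x, ∑ x', (ψ u * χ x * v x' + ψ u * v x * χ x' + w u * χ x * χ x') *
      k1 u x x')
    + 1 / 2 * (∑ x, ∑ u, ∑ u', (χ x * ψ u * w u' + χ x * w u * ψ u' + v x * ψ u * ψ u') *
      k2 x u u')
    + C / 2 * (∑ u, ∑ u', ψ u * ψ u' * adU u u')
    + C / 2 * (∑ x, ∑ x', χ x * χ x' * adW x x'), ?_, ?_⟩
  · have a1 : 0 ≤ ∑ u, (w u * π u ^ 2 + 2 * (ψ u * π u * max (p u) 0)) :=
      sum_nonneg fun u _ => add_nonneg (mul_nonneg (hw u) (sq_nonneg _))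
        (mul_nonneg (by norm_num) (mul_nonneg (mul_nonneg (hψ u) (hπ0 u)) (le_max_right _ _)))
    have a2 : 0 ≤ ∑ x, (v x * σ x ^ 2 + 2 * (χ x * σ x * max (q x) 0)) :=
      sum_nonneg fun x _ => add_nonneg (mul_nonneg (hv x) (sq_nonneg _))
        (mul_nonneg (by norm_num) (mul_nonneg (mul_nonneg (hχ x) (hσ0 x)) (le_max_right _ _)))
    have a3 : 0 ≤ ∑ u, ∑ x, ∑ x', (ψ u * χ x * v x' + ψ u * v x * χ x' + w u * χ x * χ x') *
      k1 u x x' := by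
      refine sum_nonneg fun u _ => sum_nonneg fun x _ => sum_nonneg fun x' _ =>
        mul_nonneg ?_ (G.k10 u x x')
      have := hψ u
      have := hw u
      have := hχ x
      have := hχ x'
      have := hv x
      have := hv x'
      positivity
    have a4 : 0 ≤ ∑ x, ∑ u, ∑ u', (χ x * ψ u * w u' + χ x * w u * ψ u' + v x * ψ u * ψ u') *
      k2 x u u' := by
      refine sum_nonneg fun x _ => sum_nonneg fun u _ => sum_nonneg fun u' _ =>
        mul_nonneg ?_ (G.k20 x u u')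
      have := hψ u
      have := hψ u'
      have := hw u
      have := hw u'
      have := hχ x
      have := hv x
      positivity
    have a5 : 0 ≤ ∑ u, ∑ u', ψ u * ψ u' * adU u u' :=
      sum_nonneg fun u _ => sum_nonneg fun u' _ =>
        mul_nonneg (mul_nonneg (hψ u) (hψ u')) (G.aU0 u u')
    have a6 : 0 ≤ ∑ x, ∑ x', χ x * χ x' * adW x x' :=
      sum_nonneg fun u _ => sum_nonneg fun u' _ =>
        mul_nonneg (mul_nonneg (hχ u) (hχ u')) (G.aW0 u u')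
    positivity
  · intro s hs hsw hsv
    have b1 := partA w ψ p π hψ hπ0 s hs hsw
    have b2 := partA v χ q σ hχ hσ0 s hs hsv
    have b3 := partB k1 G.k10 w ψ v χ hψ hχ s hs
    have b4 := partB k2 G.k20 v χ w ψ hχ hψ s hs
    have b5 := partC adU w ψ s
    have b6 := partC adW v χ s
    have e1 : ∀ u, y0 + ∑ x, (v x - s * χ x) * (1 - t u x) = p u - s * π u := by
      intro u
      rw [hp, hπ]
      show _ = y0 + (∑ x, v x * (1 - t u x)) - s * ∑ x, χ x * (1 - t u x)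
      rw [mul_sum, add_sub_assoc, ← sum_sub_distrib]
      congr 1
      exact sum_congr rfl fun x _ => by ring
    have e2 : ∀ x, z0 + ∑ u, (w u - s * ψ u) * t u x = q x - s * σ x := by
      intro x
      rw [hq, hσ]
      show _ = z0 + (∑ u, w u * t u x) - s * ∑ u, ψ u * t u x
      rw [mul_sum, add_sub_assoc, ← sum_sub_distrib]
      congr 1
      exact sum_congr rfl fun x _ => by ring
    have E1 : Phi t adU adW k1 k2 C y0 z0 (fun u => w u - s * ψ u) (fun x => v x - s * χ x)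
        = 1 / 2 * (∑ u, (w u - s * ψ u) * (max (p u - s * π u) 0) ^ 2)
        + 1 / 2 * (∑ x, (v x - s * χ x) * (max (q x - s * σ x) 0) ^ 2)
        + 1 / 2 * (∑ u, ∑ x, ∑ x', (w u - s * ψ u) * (v x - s * χ x) * (v x' - s * χ x') *
          k1 u x x')
        + 1 / 2 * (∑ x, ∑ u, ∑ u', (v x - s * χ x) * (w u - s * ψ u) * (w u' - s * ψ u') *
          k2 x u u')
        + C / 2 * (∑ u, ∑ u', (w u - s * ψ u) * (w u' - s * ψ u') * adU u u')
        + C / 2 * (∑ x, ∑ x', (v x - s * χ x) * (v x' - s * χ x') * adW x x') := by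
      unfold Phi
      simp only [e1, e2]
    have E2 : Phi t adU adW k1 k2 C y0 z0 w v
        = 1 / 2 * (∑ u, w u * (max (p u) 0) ^ 2) + 1 / 2 * (∑ x, v x * (max (q x) 0) ^ 2)
        + 1 / 2 * (∑ u, ∑ x, ∑ x', w u * v x * v x' * k1 u x x')
        + 1 / 2 * (∑ x, ∑ u, ∑ u', v x * w u * w u' * k2 x u u')
        + C / 2 * (∑ u, ∑ u', w u * w u' * adU u u')
        + C / 2 * (∑ x, ∑ x', v x * v x' * adW x x') := by
      rw [hp, hq]; rfl
    have E3 : dPhi t adU adW k1 k2 C y0 z0 w v ψ χ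
        = 1 / 2 * (∑ u, (ψ u * (max (p u) 0) ^ 2 + 2 * (w u * π u * max (p u) 0)))
        + 1 / 2 * (∑ x, (χ x * (max (q x) 0) ^ 2 + 2 * (v x * σ x * max (q x) 0)))
        + 1 / 2 * (∑ u, ∑ x, ∑ x', (ψ u * v x * v x' + w u * χ x * v x' + w u * v x * χ x') *
          k1 u x x')
        + 1 / 2 * (∑ x, ∑ u, ∑ u', (χ x * w u * w u' + v x * ψ u * w u' + v x * w u * ψ u') *
          k2 x u u')
        + C / 2 * (∑ u, ∑ u', (ψ u * w u' + w u * ψ u') * adU u u')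
        + C / 2 * (∑ x, ∑ x', (χ x * v x' + v x * χ x') * adW x x') := by
      rw [hp, hq, hπ, hσ]; rfl
    rw [E1, E2, E3, b5, b6]
    have hC2 : 0 ≤ C / 2 := by linarith
    nlinarith [b1, b2, b3, b4]

end

end Pool.Agent.Helper35.FdM
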