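import Mathlib

/-! The bipartite game behind the corner lemma: a complete bipartite tournament between the classes
`α` and `β` (`t u x = 1` if `u → x`, `t u x = 0` if `x → u`), adjacency inside the classes, and marked
triples which meet all induced oriented 4-cycles. -/

set_option autoImplicit false
open Finset

namespace Pool.Agent.Helper35.FdM

structure Game {α β : Type} (t : α → β → ℝ) (adU : α → α → ℝ) (adW : β → β → ℝ)
    (k1 : α → β → β → ℝ) (k2 : β → α → α → ℝ) : Prop where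
  t01 : ∀ u x, t u x = 0 ∨ t u x = 1
  aU0 : ∀ u u', 0 ≤ adU u u'
  aU1 : ∀ u u', adU u u' ≤ 1
  aUs : ∀ u u', adU u u' = adU u' u
  aW0 : ∀ x x', 0 ≤ adW x x'
  aW1 : ∀ x x', adW x x' ≤ 1
  aWs : ∀ x x', adW x x' = adW x' x
  k10 : ∀ u x x', 0 ≤ k1 u x x'
  k1s : ∀ u x x', k1 u x x' = k1 u x' x
  k20 : ∀ x u u', 0 ≤ k2 x u u'
  k2s : ∀ x u u', k2 x u u' = k2 x u' u
  cov : ∀ u u2 x x2, t u x = 1 → t u2 x = 0 → t u2 x2 = 1 → t u x2 = 0 →
    (1 - adU u u2) * (1 - adW x x2) ≤ k2 x u u2 + k1 u2 x x2 + k2 x2 u u2 + k1 u x x2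

section
variable {α β : Type} {t : α → β → ℝ} {adU : α → α → ℝ} {adW : β → β → ℝ}
    {k1 : α → β → β → ℝ} {k2 : β → α → α → ℝ}

theorem Game.t0 (G : Game t adU adW k1 k2) (u : α) (x : β) : 0 ≤ t u x := by
  rcases G.t01 u x with h | h <;> rw [h]
  norm_num

theorem Game.t1 (G : Game t adU adW k1 k2) (u : α) (x : β) : t u x ≤ 1 := by
  rcases G.t01 u x with h | h <;> rw [h]
  norm_num

theorem Game.s0 (G : Game t adU adW k1 k2) (u : α) (x : β) : 0 ≤ 1 - t u x :=
  sub_nonneg.mpr (G.t1 u x)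

theorem Game.s1 (G : Game t adU adW k1 k2) (u : α) (x : β) : 1 - t u x ≤ 1 := by
  have := G.t0 u x
  linarith

/-- the same game with the classes exchanged -/
theorem Game.swap (G : Game t adU adW k1 k2) : Game (fun x u => 1 - t u x) adW adU k2 k1 where
  t01 x u := by
    rcases G.t01 u x with h | h
    · right; rw [h]; norm_num
    · left; rw [h]; norm_num
  aU0 := G.aW0
  aU1 := G.aW1
  aUs := G.aWs
  aW0 := G.aU0
  aW1 := G.aU1
  aWs := G.aUs
  k10 := G.k20
  k1s := G.k2s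
  k20 := G.k10
  k2s := G.k1s
  cov x x2 u u2 h1 h2 h3 h4 := by
    have := G.cov u u2 x2 x (by linarith) (by linarith) (by linarith) (by linarith)
    rw [G.aWs x2 x, G.k1s u2 x2 x, G.k1s u x2 x] at this
    linarith

theorem Game.covI (G : Game t adU adW k1 k2) (u u2 : α) (x x2 : β) :
    t u x * (1 - t u2 x) * t u2 x2 * (1 - t u x2) * ((1 - adU u u2) * (1 - adW x x2)) ≤
    t u x * (1 - t u2 x) * t u2 x2 * (1 - t u x2) *
      (k2 x u u2 + k1 u2 x x2 + k2 x2 u u2 + k1 u x x2) := by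
  rcases G.t01 u x with h1 | h1
  · rw [h1]; simp
  rcases G.t01 u2 x with h2 | h2
  swap
  · rw [h2]; simp
  rcases G.t01 u2 x2 with h3 | h3
  · rw [h3]; simp
  rcases G.t01 u x2 with h4 | h4
  swap
  · rw [h4]; simp
  have := G.cov u u2 x x2 h1 h2 h3 h4
  rw [h1, h2, h3, h4]
  linarith

end

end Pool.Agent.Helper35.FdM
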