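import Pool.Agent.Helper35.FdM.Tab2
import Pool.Agent.H122R2.FdF.FlagAux

/-! Gram identities of the flag certificate 2. -/

set_option autoImplicit false
set_option maxRecDepth 100000

namespace Pool.Agent.Helper35.FdM.C2

open Pool.Agent.H122R2.FdF

def tp (c : ℕ) : ℕ := Nat.add (Nat.mul 2147483648000 (chc (Nat.mod c 27))) (Nat.mul 1288490188800 (p1c (Nat.mod c 27)))
def tn (c : ℕ) : ℕ := Nat.add (Nat.mul 706522120192 (adjc (Nat.mod c 27))) (Nat.mul 4497094782080 (Nat.add (pc (Nat.mod c 27)) (mkc c)))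
def gp (k a : ℕ) : ℕ := Nat.mul 322122547200 (gk k a)

def sp (k a b n : ℕ) : ℕ := nsum n fun j => Nat.mul (lc k a j) (lc k b j)
def sl (k a n : ℕ) : ℕ := nsum n fun j => lc k a j

def gg (k a b : ℕ) : Bool :=
  Nat.beq (Nat.add (Nat.add (sp k a b (Nat.succ b)) (Nat.add (Nat.mul 1125899906842624 (Nat.succ b)) 1125899906842624))
      (Nat.add (tp (rp k)) (Nat.add (gp k a) (gp k b))))
    (Nat.add (Nat.add (qc k a b) (tn (rp k)))
      (Nat.mul 33554432 (Nat.add (sl k a (Nat.succ b)) (sl k b (Nat.succ b)))))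
def rowchk (k a : ℕ) : Bool := and (nall (Nat.succ a) fun b => and (gg k a b) (Nat.beq (qc k a b) (qc k b a)))
  (nall 51 fun j => or (Nat.ble j a) (Nat.beq (lc k a j) 33554432))
def gchk (k : ℕ) : Bool := nall 51 fun a => rowchk k a
def tchk : Bool := nall 54 fun c => Nat.beq (Nat.add (tp c) (tn (rp (ty c)))) (Nat.add (tp (rp (ty c))) (tn c))
def g1 (i j : ℕ) : Bool :=
  Nat.beq (Nat.add (nsum 15 fun k => Nat.mul (l1 i k) (l1 j k)) 18014398509481984)
    (Nat.add (q1 i j) (Nat.mul 33554432 (nsum 15 fun k => Nat.add (l1 i k) (l1 j k))))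
def chk1 : Bool := nall 27 fun i => nall 27 fun j => g1 i j

theorem hgc0 : gchk 0 = true := by decide +kernel
theorem hgc1 : gchk 1 = true := by decide +kernel
theorem hgc2 : gchk 2 = true := by decide +kernel
theorem hgc3 : gchk 3 = true := by decide +kernel
theorem hgc4 : gchk 4 = true := by decide +kernel
theorem hgc5 : gchk 5 = true := by decide +kernel
theorem hgc6 : gchk 6 = true := by decide +kernel
theorem hgc7 : gchk 7 = true := by decide +kernel
theorem htc : tchk = true := by decide +kernel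
theorem hg1 : chk1 = true := by decide +kernel

end Pool.Agent.Helper35.FdM.C2
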