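import Pool.Agent.Helper35.FdM.Marks2

/-! Lower bounds for the two packings. -/

set_option autoImplicit false
open Finset

namespace Pool.Agent.Helper35.FdM

variable {α β : Type} [Fintype α] [Fintype β] {t : α → β → ℝ} {adU : α → α → ℝ}
    {adW : β → β → ℝ} {k1 : α → β → β → ℝ} {k2 : β → α → α → ℝ}

theorem one_sub_mul_ge {a b : ℝ} (ha : 0 ≤ a) (hb : 0 ≤ b) : 1 - a - b ≤ (1 - a) * (1 - b) := by
  nlinarith [mul_nonneg ha hb]

theorem ideal1 (G : Game t adU adW k1 k2) (us : α) (w : α → ℝ) (v : β → ℝ)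
    (hw : ∀ u, 0 ≤ w u) (hv : ∀ x, 0 ≤ v x) (θ ρ et : ℝ) (hθ : 0 ≤ θ)
    (b : β → ℝ) (r : α → ℝ)
    (hb0 : ∀ x, 0 ≤ b x) (hr0 : ∀ u, 0 ≤ r u) (hr1 : ∀ u, r u ≤ 1)
    (h1 : ∀ u, θ * (r u * ∑ x, v x * (1 - t us x) * t u x) ≤ 1)
    (hp : ∀ u, ∑ x, b x * (1 - t u x) ≤ et)
    (h3 : ∀ x, θ * (b x * ∑ u, w u * (1 - t u x)) ≤ ρ * (v x * t us x)) :
    θ * (∑ u, w u * (∑ x, b x * (1 - t u x)) * (r u * ∑ x, v x * (1 - t us x) * t u x))
      - et * (∑ u, w u * adU us u)
      - ρ * (∑ x, ∑ x', v x * t us x * (v x' * (1 - t us x') * adW x x')) ≤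
    ∑ u, ∑ x, ∑ x', θ * r u * w u * b x * (v x' * (1 - t us x')) * (1 - t u x) * t u x' *
        ((1 - adU us u) * (1 - adW x x')) := by
  have hvs : ∀ x, 0 ≤ v x * (1 - t us x) := fun x => mul_nonneg (hv x) (G.s0 us x)
  set n : α → β → β → ℝ := fun u x x' =>
    θ * r u * w u * b x * (v x' * (1 - t us x')) * (1 - t u x) * t u x' with hn
  have hn0 : ∀ u x x', 0 ≤ n u x x' := by
    intro u x x'
    rw [hn]
    have := hr0 u
    have := hw u
    have := hb0 x
    have := hvs x'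
    have := G.s0 u x
    have := G.t0 u x'
    positivity
  have S : (∑ u, ∑ x, ∑ x', n u x x') - (∑ u, ∑ x, ∑ x', n u x x' * adU us u)
      - (∑ u, ∑ x, ∑ x', n u x x' * adW x x')
      ≤ ∑ u, ∑ x, ∑ x', n u x x' * ((1 - adU us u) * (1 - adW x x')) := by
    simp only [← sum_sub_distrib]
    refine sum_le_sum fun u _ => sum_le_sum fun x _ => sum_le_sum fun x' _ => ?_
    have := mul_le_mul_of_nonneg_left (one_sub_mul_ge (G.aU0 us u) (G.aW0 x x')) (hn0 u x x')
    linarith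
  have e1 : ∑ u, ∑ x, ∑ x', n u x x' =
      θ * (∑ u, w u * (∑ x, b x * (1 - t u x)) * (r u * ∑ x, v x * (1 - t us x) * t u x)) := by
    rw [mul_sum]
    refine sum_congr rfl fun u _ => ?_
    have : ∀ x, ∑ x', n u x x' = θ * w u * r u * (b x * (1 - t u x)) *
        ∑ x', v x' * (1 - t us x') * t u x' := by
      intro x
      rw [mul_sum]
      refine sum_congr rfl fun x' _ => ?_
      show θ * r u * w u * b x * (v x' * (1 - t us x')) * (1 - t u x) * t u x' = _
      ring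
    simp only [this]
    rw [← sum_mul, ← mul_sum]
    ring
  have e2 : ∑ u, ∑ x, ∑ x', n u x x' * adU us u ≤ et * (∑ u, w u * adU us u) := by
    rw [mul_sum]
    refine sum_le_sum fun u _ => ?_
    have e : ∑ x, ∑ x', n u x x' * adU us u = w u * adU us u * ((∑ x, b x * (1 - t u x)) *
        (θ * (r u * ∑ x, v x * (1 - t us x) * t u x))) := by
      have : ∀ x, ∑ x', n u x x' * adU us u = w u * adU us u * (b x * (1 - t u x)) * (θ * (r u *
          ∑ x', v x' * (1 - t us x') * t u x')) := by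
        intro x
        rw [mul_sum, mul_sum, mul_sum]
        refine sum_congr rfl fun x' _ => ?_
        show θ * r u * w u * b x * (v x' * (1 - t us x')) * (1 - t u x) * t u x' * adU us u = _
        ring
      simp only [this]
      rw [← sum_mul, ← mul_sum]
      ring
    rw [e]
    have hS0 : 0 ≤ ∑ x, b x * (1 - t u x) := sum_nonneg fun x _ => mul_nonneg (hb0 x) (G.s0 u x)
    have h := mul_le_mul (hp u) (h1 u)
      (mul_nonneg hθ (mul_nonneg (hr0 u) (sum_nonneg fun x _ => mul_nonneg (hvs x) (G.t0 u x))))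
      (hS0.trans (hp u))
    have := mul_le_mul_of_nonneg_left h (mul_nonneg (hw u) (G.aU0 us u))
    linarith
  have e3 : ∑ u, ∑ x, ∑ x', n u x x' * adW x x'
      ≤ ρ * (∑ x, ∑ x', v x * t us x * (v x' * (1 - t us x') * adW x x')) := by
    rw [sum_comm, mul_sum]
    refine sum_le_sum fun x _ => ?_
    rw [sum_comm, mul_sum]
    refine sum_le_sum fun x' _ => ?_
    have hk : 0 ≤ v x' * (1 - t us x') * adW x x' := mul_nonneg (hvs x') (G.aW0 x x')
    calc ∑ u, n u x x' * adW x x'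
        ≤ ∑ u, θ * b x * (v x' * (1 - t us x') * adW x x') * (w u * (1 - t u x)) := by
          refine sum_le_sum fun u _ => ?_
          have hrt1 : r u * t u x' ≤ 1 := mul_le_one₀ (hr1 u) (G.t0 u x') (G.t1 u x')
          have h0 : 0 ≤ θ * b x * (v x' * (1 - t us x') * adW x x') * (w u * (1 - t u x)) :=
            mul_nonneg (mul_nonneg (mul_nonneg hθ (hb0 x)) hk) (mul_nonneg (hw u) (G.s0 u x))
          calc n u x x' * adW x x' = r u * t u x' *
                (θ * b x * (v x' * (1 - t us x') * adW x x') * (w u * (1 - t u x))) := by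
                show θ * r u * w u * b x * (v x' * (1 - t us x')) * (1 - t u x) * t u x' *
                  adW x x' = _
                ring
            _ ≤ 1 * (θ * b x * (v x' * (1 - t us x') * adW x x') * (w u * (1 - t u x))) :=
                mul_le_mul_of_nonneg_right hrt1 h0
            _ = _ := one_mul _
      _ = (v x' * (1 - t us x') * adW x x') * (θ * (b x * ∑ u, w u * (1 - t u x))) := by
          rw [mul_sum, mul_sum, mul_sum]
          exact sum_congr rfl fun u _ => by ring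
      _ ≤ (v x' * (1 - t us x') * adW x x') * (ρ * (v x * t us x)) :=
          mul_le_mul_of_nonneg_left (h3 x) hk
      _ = _ := by ring
  have e0 : ∑ u, ∑ x, ∑ x', θ * r u * w u * b x * (v x' * (1 - t us x')) * (1 - t u x) * t u x' *
        ((1 - adU us u) * (1 - adW x x'))
      = ∑ u, ∑ x, ∑ x', n u x x' * ((1 - adU us u) * (1 - adW x x')) := rfl
  rw [e0]
  linarith

theorem reord4 (F : α → α → β → β → ℝ) :
    ∑ u, ∑ u2, ∑ x, ∑ x2, F u u2 x x2 = ∑ x, ∑ x2, ∑ u, ∑ u2, F u u2 x x2 := by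
  have h1 : ∀ u, ∑ u2, ∑ x, ∑ x2, F u u2 x x2 = ∑ x, ∑ x2, ∑ u2, F u u2 x x2 := by
    intro u
    rw [sum_comm]
    exact sum_congr rfl fun x _ => sum_comm
  simp only [h1]
  rw [sum_comm]
  exact sum_congr rfl fun x _ => sum_comm

theorem ideal2 (G : Game t adU adW k1 k2) (us : α) (w : α → ℝ) (v : β → ℝ)
    (hw : ∀ u, 0 ≤ w u) (hv : ∀ x, 0 ≤ v x) (ζ et : ℝ) (hζ : 0 ≤ ζ)
    (b : β → ℝ) (hb0 : ∀ x, 0 ≤ b x)
    (hp : ∀ u, ∑ x, b x * (1 - t u x) ≤ et)
    (hd : ∀ x, b x * (∑ u, w u * (1 - t u x)) ≤ ζ * (v x * t us x)) :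
    (∑ u, w u * ∑ x, b x * (1 - t u x)) ^ 2
      - 2 * ζ * (∑ u, w u * (∑ x, v x * t us x * (1 - t u x)) * ∑ x, b x * (1 - t u x))
      - ζ ^ 2 * (∑ x, ∑ x', v x * t us x * (v x' * t us x' * adW x x'))
      - et * (∑ u, w u * (∑ x, b x * (1 - t u x)) * ∑ u2, w u2 * adU u u2) ≤
    ∑ u, ∑ u2, ∑ x, ∑ x2, b x * b x2 * (w u * w u2) *
        (t u x * (1 - t u2 x) * t u2 x2 * (1 - t u x2)) * ((1 - adU u u2) * (1 - adW x x2)) := by
  have hvt : ∀ x, 0 ≤ v x * t us x := fun x => mul_nonneg (hv x) (G.t0 us x)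
  set m : α → α → β → β → ℝ := fun u u2 x x2 =>
    b x * b x2 * (w u * w u2) * (t u x * (1 - t u2 x) * t u2 x2 * (1 - t u x2)) with hm
  have hm0 : ∀ u u2 x x2, 0 ≤ m u u2 x x2 := by
    intro u u2 x x2
    rw [hm]
    exact mul_nonneg (mul_nonneg (mul_nonneg (hb0 x) (hb0 x2)) (mul_nonneg (hw u) (hw u2)))
      (mul_nonneg (mul_nonneg (mul_nonneg (G.t0 u x) (G.s0 u2 x)) (G.t0 u2 x2)) (G.s0 u x2))
  have S : (∑ u, ∑ u2, ∑ x, ∑ x2, m u u2 x x2)
      - (∑ u, ∑ u2, ∑ x, ∑ x2, m u u2 x x2 * adU u u2)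
      - (∑ u, ∑ u2, ∑ x, ∑ x2, m u u2 x x2 * adW x x2)
      ≤ ∑ u, ∑ u2, ∑ x, ∑ x2, m u u2 x x2 * ((1 - adU u u2) * (1 - adW x x2)) := by
    simp only [← sum_sub_distrib]
    refine sum_le_sum fun u _ => sum_le_sum fun u2 _ => sum_le_sum fun x _ =>
      sum_le_sum fun x2 _ => ?_
    have := mul_le_mul_of_nonneg_left (one_sub_mul_ge (G.aU0 u u2) (G.aW0 x x2)) (hm0 u u2 x x2)
    linarith
  -- out-degrees and common out-degrees
  set D : β → ℝ := fun x => ∑ u, w u * (1 - t u x) with hD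
  set c : β → β → ℝ := fun x x2 => ∑ u, w u * ((1 - t u x) * (1 - t u x2)) with hc
  have hD0 : ∀ x, 0 ≤ D x := fun x => sum_nonneg fun u _ => mul_nonneg (hw u) (G.s0 u x)
  have hc0 : ∀ x x2, 0 ≤ c x x2 := fun x x2 =>
    sum_nonneg fun u _ => mul_nonneg (hw u) (mul_nonneg (G.s0 u x) (G.s0 u x2))
  have hcs : ∀ x x2, c x x2 = c x2 x := fun x x2 => by
    show ∑ u, w u * ((1 - t u x) * (1 - t u x2)) = ∑ u, w u * ((1 - t u x2) * (1 - t u x))
    exact sum_congr rfl fun u _ => by ring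
  have hE : ∀ x x2, ∑ u, w u * ((1 - t u x) * t u x2) = D x - c x x2 := by
    intro x x2
    show _ = (∑ u, w u * (1 - t u x)) - ∑ u, w u * ((1 - t u x) * (1 - t u x2))
    rw [← sum_sub_distrib]
    exact sum_congr rfl fun u _ => by ring
  have e1 : (∑ u, w u * ∑ x, b x * (1 - t u x)) ^ 2
      - 2 * ζ * (∑ u, w u * (∑ x, v x * t us x * (1 - t u x)) * ∑ x, b x * (1 - t u x))
      ≤ ∑ u, ∑ u2, ∑ x, ∑ x2, m u u2 x x2 := by
    rw [reord4]
    have f1 : ∀ x x2, b x * b x2 * (D x * D x2) - b x * b x2 * c x x2 * (D x + D x2)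
        ≤ ∑ u, ∑ u2, m u u2 x x2 := by
      intro x x2
      have g1 : ∑ u, ∑ u2, m u u2 x x2 = b x * b x2 * ((D x2 - c x2 x) * (D x - c x x2)) := by
        rw [← hE x x2, ← hE x2 x, Finset.sum_mul_sum, mul_sum]
        refine sum_congr rfl fun u _ => ?_
        rw [mul_sum]
        refine sum_congr rfl fun u2 _ => ?_
        show b x * b x2 * (w u * w u2) * (t u x * (1 - t u2 x) * t u2 x2 * (1 - t u x2)) = _
        ring
      rw [g1, hcs x2 x]
      have h0 : 0 ≤ b x * b x2 := mul_nonneg (hb0 x) (hb0 x2)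
      have h1 : 0 ≤ b x * b x2 * (c x x2 * c x x2) :=
        mul_nonneg h0 (mul_nonneg (hc0 x x2) (hc0 x x2))
      nlinarith
    have f2 : ∑ x, ∑ x2, (b x * b x2 * (D x * D x2) - b x * b x2 * c x x2 * (D x + D x2))
        ≤ ∑ x, ∑ x2, ∑ u, ∑ u2, m u u2 x x2 :=
      sum_le_sum fun x _ => sum_le_sum fun x2 _ => f1 x x2
    refine le_trans ?_ f2
    have f3 : ∑ u, w u * ∑ x, b x * (1 - t u x) = ∑ x, b x * D x := by
      have : ∀ x, b x * D x = ∑ u, w u * (b x * (1 - t u x)) := by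
        intro x
        show b x * ∑ u, w u * (1 - t u x) = _
        rw [mul_sum]
        exact sum_congr rfl fun u _ => by ring
      simp only [this]
      rw [sum_comm]
      exact sum_congr rfl fun u _ => by rw [mul_sum]
    have f4 : ∑ x, ∑ x2, (b x * b x2 * (D x * D x2) - b x * b x2 * c x x2 * (D x + D x2))
        = (∑ x, b x * D x) ^ 2 - 2 * ∑ x, ∑ x2, b x * D x * (b x2 * c x x2) := by
      simp only [sum_sub_distrib]
      congr 1
      · rw [sq, Finset.sum_mul_sum]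
        exact sum_congr rfl fun x _ => sum_congr rfl fun x2 _ => by ring
      · have g2 : ∑ x, ∑ x2, b x * b x2 * c x x2 * (D x + D x2)
            = (∑ x, ∑ x2, b x * D x * (b x2 * c x x2))
              + ∑ x, ∑ x2, b x2 * D x2 * (b x * c x2 x) := by
          simp only [← sum_add_distrib]
          refine sum_congr rfl fun x _ => sum_congr rfl fun x2 _ => ?_
          rw [hcs x2 x]; ring
        have g3 : ∑ x, ∑ x2, b x2 * D x2 * (b x * c x2 x)
            = ∑ x, ∑ x2, b x * D x * (b x2 * c x x2) := sum_comm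
        rw [g2, g3]; ring
    rw [f3, f4]
    have f5 : ∑ x, ∑ x2, b x * D x * (b x2 * c x x2)
        ≤ ζ * ∑ u, w u * (∑ x, v x * t us x * (1 - t u x)) * ∑ x, b x * (1 - t u x) := by
      have g4 : ∑ x, ∑ x2, b x * D x * (b x2 * c x x2)
          ≤ ∑ x, ∑ x2, ζ * (v x * t us x) * (b x2 * c x x2) := by
        refine sum_le_sum fun x _ => sum_le_sum fun x2 _ => ?_
        exact mul_le_mul_of_nonneg_right (hd x) (mul_nonneg (hb0 x2) (hc0 x x2))
      refine g4.trans (le_of_eq ?_)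
      have g5 : ∀ u, w u * (∑ x, v x * t us x * (1 - t u x)) * ∑ x, b x * (1 - t u x)
          = ∑ x, ∑ x2, w u * ((v x * t us x * (1 - t u x)) * (b x2 * (1 - t u x2))) := by
        intro u
        rw [mul_assoc, Finset.sum_mul_sum, mul_sum]
        exact sum_congr rfl fun x _ => by rw [mul_sum]
      simp only [g5]
      have g6 : ∑ u, ∑ x, ∑ x2, w u * ((v x * t us x * (1 - t u x)) * (b x2 * (1 - t u x2)))
          = ∑ x, ∑ x2, ∑ u, w u * ((v x * t us x * (1 - t u x)) * (b x2 * (1 - t u x2))) := by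
        rw [sum_comm]
        exact sum_congr rfl fun x _ => sum_comm
      rw [g6, mul_sum]
      refine sum_congr rfl fun x _ => ?_
      rw [mul_sum]
      refine sum_congr rfl fun x2 _ => ?_
      show ζ * (v x * t us x) * (b x2 * ∑ u, w u * ((1 - t u x) * (1 - t u x2))) = _
      rw [mul_sum, mul_sum, mul_sum]
      exact sum_congr rfl fun u _ => by ring
    linarith
  have e2 : ∑ u, ∑ u2, ∑ x, ∑ x2, m u u2 x x2 * adU u u2
      ≤ et * (∑ u, w u * (∑ x, b x * (1 - t u x)) * ∑ u2, w u2 * adU u u2) := by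
    rw [mul_sum]
    refine sum_le_sum fun u _ => ?_
    rw [mul_sum, mul_sum]
    refine sum_le_sum fun u2 _ => ?_
    have hS0 : ∀ u, 0 ≤ ∑ x, b x * (1 - t u x) := fun u =>
      sum_nonneg fun x _ => mul_nonneg (hb0 x) (G.s0 u x)
    calc ∑ x, ∑ x2, m u u2 x x2 * adU u u2
        ≤ ∑ x, ∑ x2, w u * (w u2 * adU u u2) * ((b x * (1 - t u2 x)) * (b x2 * (1 - t u x2))) := by
          refine sum_le_sum fun x _ => sum_le_sum fun x2 _ => ?_
          have h0 : 0 ≤ w u * (w u2 * adU u u2) * ((b x * (1 - t u2 x)) * (b x2 * (1 - t u x2))) :=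
            mul_nonneg (mul_nonneg (hw u) (mul_nonneg (hw u2) (G.aU0 u u2)))
              (mul_nonneg (mul_nonneg (hb0 x) (G.s0 u2 x)) (mul_nonneg (hb0 x2) (G.s0 u x2)))
          have h1 : t u x * t u2 x2 ≤ 1 := mul_le_one₀ (G.t1 u x) (G.t0 u2 x2) (G.t1 u2 x2)
          calc m u u2 x x2 * adU u u2 = t u x * t u2 x2 *
                (w u * (w u2 * adU u u2) * ((b x * (1 - t u2 x)) * (b x2 * (1 - t u x2)))) := by
                show b x * b x2 * (w u * w u2) * (t u x * (1 - t u2 x) * t u2 x2 * (1 - t u x2)) *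
                  adU u u2 = _
                ring
            _ ≤ 1 * _ := mul_le_mul_of_nonneg_right h1 h0
            _ = _ := one_mul _
      _ = w u * (w u2 * adU u u2) * ((∑ x, b x * (1 - t u2 x)) * ∑ x, b x * (1 - t u x)) := by
          rw [Finset.sum_mul_sum, mul_sum]
          exact sum_congr rfl fun x _ => by rw [mul_sum]
      _ ≤ w u * (w u2 * adU u u2) * (et * ∑ x, b x * (1 - t u x)) :=
          mul_le_mul_of_nonneg_left (mul_le_mul_of_nonneg_right (hp u2) (hS0 u))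
            (mul_nonneg (hw u) (mul_nonneg (hw u2) (G.aU0 u u2)))
      _ = _ := by ring
  have e3 : ∑ u, ∑ u2, ∑ x, ∑ x2, m u u2 x x2 * adW x x2
      ≤ ζ ^ 2 * (∑ x, ∑ x', v x * t us x * (v x' * t us x' * adW x x')) := by
    rw [reord4 (fun u u2 x x2 => m u u2 x x2 * adW x x2), mul_sum]
    refine sum_le_sum fun x _ => ?_
    rw [mul_sum]
    refine sum_le_sum fun x2 _ => ?_
    calc ∑ u, ∑ u2, m u u2 x x2 * adW x x2
        ≤ ∑ u, ∑ u2, adW x x2 * (b x * b x2) * ((w u * (1 - t u x2)) * (w u2 * (1 - t u2 x))) := by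
          refine sum_le_sum fun u _ => sum_le_sum fun u2 _ => ?_
          have h0 : 0 ≤ adW x x2 * (b x * b x2) * ((w u * (1 - t u x2)) * (w u2 * (1 - t u2 x))) :=
            mul_nonneg (mul_nonneg (G.aW0 x x2) (mul_nonneg (hb0 x) (hb0 x2)))
              (mul_nonneg (mul_nonneg (hw u) (G.s0 u x2)) (mul_nonneg (hw u2) (G.s0 u2 x)))
          have h1 : t u x * t u2 x2 ≤ 1 := mul_le_one₀ (G.t1 u x) (G.t0 u2 x2) (G.t1 u2 x2)
          calc m u u2 x x2 * adW x x2 = t u x * t u2 x2 *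
                (adW x x2 * (b x * b x2) * ((w u * (1 - t u x2)) * (w u2 * (1 - t u2 x)))) := by
                show b x * b x2 * (w u * w u2) * (t u x * (1 - t u2 x) * t u2 x2 * (1 - t u x2)) *
                  adW x x2 = _
                ring
            _ ≤ 1 * _ := mul_le_mul_of_nonneg_right h1 h0
            _ = _ := one_mul _
      _ = adW x x2 * ((b x * D x) * (b x2 * D x2)) := by
          show _ = adW x x2 * ((b x * ∑ u, w u * (1 - t u x)) * (b x2 * ∑ u, w u * (1 - t u x2)))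
          have : adW x x2 * ((b x * ∑ u, w u * (1 - t u x)) * (b x2 * ∑ u, w u * (1 - t u x2)))
              = adW x x2 * (b x * b x2) *
                ((∑ u, w u * (1 - t u x2)) * ∑ u, w u * (1 - t u x)) := by ring
          rw [this, Finset.sum_mul_sum, mul_sum]
          exact sum_congr rfl fun u _ => by rw [mul_sum]
      _ ≤ adW x x2 * ((ζ * (v x * t us x)) * (ζ * (v x2 * t us x2))) := by
          refine mul_le_mul_of_nonneg_left ?_ (G.aW0 x x2)
          exact mul_le_mul (hd x) (hd x2) (mul_nonneg (hb0 x2) (hD0 x2))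
            (mul_nonneg hζ (hvt x))
      _ = _ := by ring
  have e0 : ∑ u, ∑ u2, ∑ x, ∑ x2, b x * b x2 * (w u * w u2) *
        (t u x * (1 - t u2 x) * t u2 x2 * (1 - t u x2)) * ((1 - adU u u2) * (1 - adW x x2))
      = ∑ u, ∑ u2, ∑ x, ∑ x2, m u u2 x x2 * ((1 - adU u u2) * (1 - adW x x2)) := rfl
  rw [e0]
  linarith

end Pool.Agent.Helper35.FdM
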