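import Pool.Agent.Helper35.FdM.CoreIneq
import Pool.Agent.Helper35.FdM.Expand

/-! The lower bound for the functional of the game. -/

set_option autoImplicit false
open Finset Filter Topology

namespace Pool.Agent.Helper35.FdM

/-- the value of the game -/
noncomputable def Gf (y z : ℝ) : ℝ := 1 / 8 * (max 0 (min y z)) ^ 2 * max y z

theorem Gf_comm (y z : ℝ) : Gf y z = Gf z y := by
  unfold Gf
  rw [min_comm, max_comm y z]

theorem Gf_of_le {y z : ℝ} (hy : 0 ≤ y) (hyz : y ≤ z) : Gf y z = 1 / 8 * y ^ 2 * z := by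
  unfold Gf
  rw [min_eq_left hyz, max_eq_right hy, max_eq_right hyz]

theorem Gf_of_nonpos {y z : ℝ} (h : y ≤ 0 ∨ z ≤ 0) : Gf y z = 0 := by
  unfold Gf
  rw [max_eq_left (min_le_iff.mpr h)]
  ring

theorem ev_small (A B : ℝ) (hB : 0 < B) : ∀ᶠ s in 𝓝[>] (0 : ℝ), s * A < B := by
  have h : Tendsto (fun s : ℝ => s * A) (𝓝 0) (𝓝 (0 * A)) :=
    (continuous_id.mul continuous_const).tendsto 0
  rw [zero_mul] at h
  exact (h.eventually (gt_mem_nhds hB)).filter_mono nhdsWithin_le_nhds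

theorem Gf_dec1 (y z dy dz s : ℝ) (hy : 0 < y) (hdy : 0 ≤ dy) (hdz : 0 ≤ dz) (hs : 0 ≤ s)
    (h1 : s * dy < y) (h2 : s * dz < z) (h3 : s * (dz - dy) < z - y) (hyz : y < z)
    (h4 : dy * z ≤ y) : Gf y z - s * (y ^ 2 / 4 + y ^ 2 * dz / 8) ≤ Gf (y - s * dy) (z - s * dz) := by
  rw [Gf_of_le hy.le hyz.le, Gf_of_le (by linarith) (by nlinarith)]
  have e : (y - s * dy) ^ 2 * (z - s * dz) - (y ^ 2 * z - s * (y ^ 2 * dz + 2 * y * z * dy))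
      = (s * dy) ^ 2 * (z - s * dz) + 2 * y * (s * dy) * (s * dz) := by ring
  have h5 : 0 ≤ (s * dy) ^ 2 * (z - s * dz) := mul_nonneg (sq_nonneg _) (by linarith)
  have h6 : 0 ≤ 2 * y * (s * dy) * (s * dz) := by positivity
  have h7 : s * (2 * y * z * dy) ≤ s * (2 * y * y) := by
    refine mul_le_mul_of_nonneg_left ?_ hs
    nlinarith
  nlinarith

theorem Gf_dec2 (y dy dz s : ℝ) (hy : 0 < y) (hdy : 0 ≤ dy) (hdy1 : dy ≤ 1) (hdz : 1 ≤ dz)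
    (hs : 0 ≤ s) (h2 : s * dz < y) :
    Gf y y - s * (y ^ 2 / 8 + y ^ 2 * dz / 4) ≤ Gf (y - s * dy) (y - s * dz) := by
  have hd : s * dy ≤ s * dz := mul_le_mul_of_nonneg_left (by linarith) hs
  rw [Gf_of_le hy.le le_rfl, Gf_comm, Gf_of_le (by linarith) (by linarith)]
  have e : (y - s * dz) ^ 2 * (y - s * dy) - (y ^ 2 * y - s * (y ^ 2 * dy + 2 * y * y * dz))
      = (s * dz) ^ 2 * (y - s * dy) + 2 * y * (s * dz) * (s * dy) := by ring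
  have h5 : 0 ≤ (s * dz) ^ 2 * (y - s * dy) := mul_nonneg (sq_nonneg _) (by linarith)
  have h6 : 0 ≤ 2 * y * (s * dz) * (s * dy) := by positivity
  have h7 : s * (y ^ 2 * dy) ≤ s * (y ^ 2 * 1) :=
    mul_le_mul_of_nonneg_left (mul_le_mul_of_nonneg_left hdy1 (sq_nonneg y)) hs
  nlinarith

section
variable {α β : Type} [Fintype α] [Fintype β] {t : α → β → ℝ} {adU : α → α → ℝ}
    {adW : β → β → ℝ} {k1 : α → β → β → ℝ} {k2 : β → α → α → ℝ}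

theorem Phi_nonneg (G : Game t adU adW k1 k2) (C y0 z0 : ℝ) (hC : 0 ≤ C)
    (w : α → ℝ) (v : β → ℝ) (hw : ∀ u, 0 ≤ w u) (hv : ∀ x, 0 ≤ v x) :
    0 ≤ Phi t adU adW k1 k2 C y0 z0 w v := by
  have a1 : 0 ≤ ∑ u, w u * (max (y0 + ∑ x, v x * (1 - t u x)) 0) ^ 2 :=
    sum_nonneg fun u _ => mul_nonneg (hw u) (sq_nonneg _)
  have a2 : 0 ≤ ∑ x, v x * (max (z0 + ∑ u, w u * t u x) 0) ^ 2 :=
    sum_nonneg fun u _ => mul_nonneg (hv u) (sq_nonneg _)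
  have a3 : 0 ≤ ∑ u, ∑ x, ∑ x', w u * v x * v x' * k1 u x x' :=
    sum_nonneg fun u _ => sum_nonneg fun x _ => sum_nonneg fun x' _ =>
      mul_nonneg (mul_nonneg (mul_nonneg (hw u) (hv x)) (hv x')) (G.k10 u x x')
  have a4 : 0 ≤ ∑ x, ∑ u, ∑ u', v x * w u * w u' * k2 x u u' :=
    sum_nonneg fun x _ => sum_nonneg fun u _ => sum_nonneg fun u' _ =>
      mul_nonneg (mul_nonneg (mul_nonneg (hv x) (hw u)) (hw u')) (G.k20 x u u')
  have a5 : 0 ≤ ∑ u, ∑ u', w u * w u' * adU u u' :=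
    sum_nonneg fun u _ => sum_nonneg fun u' _ =>
      mul_nonneg (mul_nonneg (hw u) (hw u')) (G.aU0 u u')
  have a6 : 0 ≤ ∑ x, ∑ x', v x * v x' * adW x x' :=
    sum_nonneg fun u _ => sum_nonneg fun u' _ =>
      mul_nonneg (mul_nonneg (hv u) (hv u')) (G.aW0 u u')
  unfold Phi
  positivity

theorem Phi_swap (C y0 z0 : ℝ) (w : α → ℝ) (v : β → ℝ) :
    Phi t adU adW k1 k2 C y0 z0 w v
      = Phi (fun x u => 1 - t u x) adW adU k2 k1 C z0 y0 v w := by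
  unfold Phi
  have e : ∀ (x : β), ∑ u, w u * (1 - (1 - t u x)) = ∑ u, w u * t u x := fun x =>
    sum_congr rfl fun u _ => by ring
  simp only [e]
  ring

theorem descent (G : Game t adU adW k1 k2) (C y0 z0 : ℝ)
    (w : α → ℝ) (v : β → ℝ) (hw : ∀ u, 0 ≤ w u) (hv : ∀ x, 0 ≤ v x) (y z : ℝ)
    (hy : y = y0 + ∑ x, v x) (hz : z = z0 + ∑ u, w u) (hy0 : 0 < y) (hyz : y ≤ z) (hC : z < C)
    (hz0 : z0 ≤ 0) :
    ∃ (w' : α → ℝ) (v' : β → ℝ), (∀ u, 0 ≤ w' u ∧ w' u ≤ w u) ∧ (∀ x, 0 ≤ v' x ∧ v' x ≤ v x) ∧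
      Phi t adU adW k1 k2 C y0 z0 w' v' - Gf (y0 + ∑ x, v' x) (z0 + ∑ u, w' u)
        < Phi t adU adW k1 k2 C y0 z0 w v - Gf y z := by
  classical
  have hzpos : 0 < z := hy0.trans_le hyz
  have hC0 : 0 ≤ C := by linarith
  -- a vertex of minimal out-degree
  obtain ⟨u0, hu0⟩ : ∃ u, 0 < w u := by
    by_contra hne
    push Not at hne
    have : ∑ u, w u ≤ 0 := sum_nonpos fun u _ => hne u
    linarith
  obtain ⟨us, hus1, hus2⟩ := Finset.exists_min_image (univ.filter fun u => 0 < w u)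
    (fun u => ∑ x, v x * t u x) ⟨u0, by simp [hu0]⟩
  have hws : 0 < w us := (mem_filter.mp hus1).2
  have hus : ∀ u, 0 < w u → ∑ x, v x * t us x ≤ ∑ x, v x * t u x := fun u hu =>
    hus2 u (mem_filter.mpr ⟨mem_univ _, hu⟩)
  obtain ⟨q, γ, hγ0, hγ1, hq0, ⟨c, hc0, hqc⟩, hsq, hγa, hD⟩ :=
    dPhi_core G us w v hw hv C y0 z0 y z hus hy hz hy0 hyz hC
  set ψ : α → ℝ := fun u => (if u = us then 1 else 0) + q u with hψ
  set χ : β → ℝ := fun x => γ * (v x * t us x) with hχ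
  have hψ0 : ∀ u, 0 ≤ ψ u := fun u => by
    have := hq0 u
    show 0 ≤ (if u = us then (1 : ℝ) else 0) + q u
    split_ifs <;> linarith
  have hχ0 : ∀ x, 0 ≤ χ x := fun x => mul_nonneg hγ0 (mul_nonneg (hv x) (G.t0 us x))
  obtain ⟨KK, hKK, hex⟩ := Phi_expand G C y0 z0 hC0 w ψ v χ hw hv hψ0 hχ0
  obtain ⟨dz, hdz⟩ : ∃ d, d = ∑ u, ψ u := ⟨_, rfl⟩
  obtain ⟨dy, hdy⟩ : ∃ d, d = ∑ x, χ x := ⟨_, rfl⟩
  have hdz2 : dz = 1 + ∑ u, q u := by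
    rw [hdz]
    show ∑ u, ((if u = us then (1 : ℝ) else 0) + q u) = _
    rw [sum_add_distrib, Finset.sum_ite_eq' univ us (fun _ => (1 : ℝ)), if_pos (mem_univ us)]
  have hsq0 : 0 ≤ ∑ u, q u := sum_nonneg fun u _ => hq0 u
  have hdy2 : dy = γ * ∑ x, v x * t us x := by
    rw [hdy, mul_sum]
  have hdy0 : 0 ≤ dy := by rw [hdy]; exact sum_nonneg fun x _ => hχ0 x
  have hdyz : dy * z ≤ y := by
    rw [hdy2]
    have := mul_le_mul_of_nonneg_right hγa hzpos.le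
    rwa [div_mul_cancel₀ y hzpos.ne'] at this
  -- derivative of Gf
  obtain ⟨D, hDlt, hDev⟩ : ∃ D : ℝ, D < y ^ 2 / 2 ∧
      ∀ᶠ s in 𝓝[>] (0 : ℝ), Gf y z - s * D ≤ Gf (y - s * dy) (z - s * dz) := by
    have hy2 : 0 < y ^ 2 := by positivity
    rcases lt_or_eq_of_le hyz with h | h
    · refine ⟨y ^ 2 / 4 + y ^ 2 * dz / 8, ?_, ?_⟩
      · rw [hdz2]; nlinarith
      · filter_upwards [ev_small dy y hy0, ev_small dz z hzpos,
          ev_small (dz - dy) (z - y) (by linarith), self_mem_nhdsWithin] with s h1 h2 h3 h4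
        exact Gf_dec1 y z dy dz s hy0 hdy0 (by linarith) (le_of_lt h4) h1 h2 h3 h hdyz
    · refine ⟨y ^ 2 / 8 + y ^ 2 * dz / 4, ?_, ?_⟩
      · rw [hdz2]; nlinarith
      · rw [← h] at hdyz ⊢
        have hdy1 : dy ≤ 1 := by
          by_contra hc
          push Not at hc
          nlinarith
        filter_upwards [ev_small dz y hy0, self_mem_nhdsWithin] with s h2 h4
        exact Gf_dec2 y dy dz s hy0 hdy0 hdy1 (by linarith) (le_of_lt h4) h2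
  have hη : 0 < y ^ 2 / 2 - D := by linarith
  obtain ⟨s, ⟨⟨⟨⟨⟨hG, h1⟩, h2⟩, h3⟩, h4⟩, hs⟩⟩ := (((((hDev.and (ev_small KK _ hη)).and
    (ev_small c (1 / 2) (by norm_num))).and (ev_small 1 (w us / 2) (by linarith))).and
    (ev_small γ 1 one_pos)).and self_mem_nhdsWithin).exists
  have hs0 : 0 < s := hs
  rw [mul_one] at h3
  have hsψ : ∀ u, s * ψ u ≤ w u := by
    intro u
    have e1 : s * q u ≤ 1 / 2 * w u := by
      have := mul_le_mul_of_nonneg_left (hqc u) hs0.le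
      have := mul_le_mul_of_nonneg_right h2.le (hw u)
      linarith
    show s * ((if u = us then (1 : ℝ) else 0) + q u) ≤ w u
    split_ifs with h
    · rw [h] at e1 ⊢
      linarith
    · have := hw u
      linarith
  have hsχ : ∀ x, s * χ x ≤ v x := by
    intro x
    show s * (γ * (v x * t us x)) ≤ v x
    have e1 : v x * t us x ≤ v x := mul_le_of_le_one_right (hv x) (G.t1 us x)
    have e0 : 0 ≤ v x * t us x := mul_nonneg (hv x) (G.t0 us x)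
    have e2 : s * (γ * (v x * t us x)) = (s * γ) * (v x * t us x) := by ring
    rw [e2]
    have := mul_le_mul_of_nonneg_right h4.le e0
    linarith
  refine ⟨fun u => w u - s * ψ u, fun x => v x - s * χ x, fun u => ⟨sub_nonneg.mpr (hsψ u), ?_⟩,
    fun x => ⟨sub_nonneg.mpr (hsχ x), ?_⟩, ?_⟩
  · have := mul_nonneg hs0.le (hψ0 u)
    show w u - s * ψ u ≤ w u
    linarith
  · have := mul_nonneg hs0.le (hχ0 x)
    show v x - s * χ x ≤ v x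
    linarith
  · have hE := hex s hs0.le hsψ hsχ
    have e1 : y0 + ∑ x, (v x - s * χ x) = y - s * dy := by
      rw [hy, hdy, sum_sub_distrib, mul_sum]; ring
    have e2 : z0 + ∑ u, (w u - s * ψ u) = z - s * dz := by
      rw [hz, hdz, sum_sub_distrib, mul_sum]; ring
    rw [e1, e2]
    have hDs := mul_le_mul_of_nonneg_left hD hs0.le
    have h5 : s ^ 2 * KK < s * (y ^ 2 / 2 - D) := by
      have := mul_lt_mul_of_pos_left h1 hs0
      nlinarith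
    linarith

/-- Lemma P -/
theorem lemmaP (G : Game t adU adW k1 k2) (C y z : ℝ) (w0 : α → ℝ) (v0 : β → ℝ)
    (hw0 : ∀ u, 0 ≤ w0 u) (hv0 : ∀ x, 0 ≤ v0 x) (hC0 : 0 ≤ C) (hyC : y < C) (hzC : z < C)
    (hV : y ≤ ∑ x, v0 x) (hW : z ≤ ∑ u, w0 u) :
    Gf y z ≤ Phi t adU adW k1 k2 C (y - ∑ x, v0 x) (z - ∑ u, w0 u) w0 v0 := by
  obtain ⟨y0, hy0⟩ : ∃ a, a = y - ∑ x, v0 x := ⟨_, rfl⟩
  obtain ⟨z0, hz0⟩ : ∃ a, a = z - ∑ u, w0 u := ⟨_, rfl⟩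
  rw [← hy0, ← hz0]
  by_contra hne
  push Not at hne
  have hcont : Continuous (fun p : (α → ℝ) × (β → ℝ) =>
      Phi t adU adW k1 k2 C y0 z0 p.1 p.2 - Gf (y0 + ∑ x, p.2 x) (z0 + ∑ u, p.1 u)) := by
    unfold Phi Gf
    fun_prop
  have hcomp : IsCompact (Set.Icc (0 : α → ℝ) w0 ×ˢ Set.Icc (0 : β → ℝ) v0) :=
    isCompact_Icc.prod isCompact_Icc
  have hmem : ((w0, v0) : (α → ℝ) × (β → ℝ)) ∈ Set.Icc (0 : α → ℝ) w0 ×ˢ Set.Icc (0 : β → ℝ) v0 :=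
    ⟨⟨fun u => hw0 u, le_rfl⟩, ⟨fun x => hv0 x, le_rfl⟩⟩
  obtain ⟨⟨w1, v1⟩, hm1, hmin⟩ := hcomp.exists_isMinOn ⟨_, hmem⟩ hcont.continuousOn
  have hmin' : ∀ p ∈ Set.Icc (0 : α → ℝ) w0 ×ˢ Set.Icc (0 : β → ℝ) v0,
      Phi t adU adW k1 k2 C y0 z0 w1 v1 - Gf (y0 + ∑ x, v1 x) (z0 + ∑ u, w1 u)
      ≤ Phi t adU adW k1 k2 C y0 z0 p.1 p.2 - Gf (y0 + ∑ x, p.2 x) (z0 + ∑ u, p.1 u) :=
    fun p hp => hmin hp
  obtain ⟨⟨hw1, hw1'⟩, ⟨hv1, hv1'⟩⟩ := hm1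
  have hF := hmin' _ hmem
  have e1 : y0 + ∑ x, v0 x = y := by rw [hy0]; ring
  have e2 : z0 + ∑ u, w0 u = z := by rw [hz0]; ring
  have hF' : Phi t adU adW k1 k2 C y0 z0 w1 v1 - Gf (y0 + ∑ x, v1 x) (z0 + ∑ u, w1 u) < 0 := by
    refine lt_of_le_of_lt hF ?_
    show Phi t adU adW k1 k2 C y0 z0 w0 v0 - Gf (y0 + ∑ x, v0 x) (z0 + ∑ u, w0 u) < 0
    rw [e1, e2]; linarith
  have hPn := Phi_nonneg G C y0 z0 hC0 w1 v1 (fun u => hw1 u) (fun x => hv1 x)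
  have hpos : 0 < y0 + ∑ x, v1 x ∧ 0 < z0 + ∑ u, w1 u := by
    by_contra hc
    rw [not_and_or, not_lt, not_lt] at hc
    rw [Gf_of_nonpos hc] at hF'
    linarith
  obtain ⟨hp1, hp2⟩ := hpos
  have hy1 : y0 + ∑ x, v1 x ≤ y := by
    rw [← e1]
    have : ∑ x, v1 x ≤ ∑ x, v0 x := sum_le_sum fun x _ => hv1' x
    linarith
  have hz1 : z0 + ∑ u, w1 u ≤ z := by
    rw [← e2]
    have : ∑ x, w1 x ≤ ∑ x, w0 x := sum_le_sum fun x _ => hw1' x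
    linarith
  rcases le_total (y0 + ∑ x, v1 x) (z0 + ∑ u, w1 u) with h | h
  · obtain ⟨w', v', hw', hv', hlt⟩ := descent G C y0 z0 w1 v1 (fun u => hw1 u) (fun x => hv1 x)
      _ _ rfl rfl hp1 h (by linarith) (by linarith)
    have := hmin' (w', v') ⟨⟨fun u => (hw' u).1, fun u => (hw' u).2.trans (hw1' u)⟩,
      ⟨fun x => (hv' x).1, fun x => (hv' x).2.trans (hv1' x)⟩⟩
    have h2 : Phi t adU adW k1 k2 C y0 z0 w1 v1 - Gf (y0 + ∑ x, v1 x) (z0 + ∑ u, w1 u)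
      ≤ Phi t adU adW k1 k2 C y0 z0 w' v' - Gf (y0 + ∑ x, v' x) (z0 + ∑ u, w' u) := this
    linarith
  · obtain ⟨v', w', hv', hw', hlt⟩ := descent G.swap C z0 y0 v1 w1 (fun u => hv1 u)
      (fun x => hw1 x) _ _ rfl rfl hp2 h (by linarith) (by linarith)
    have := hmin' (w', v') ⟨⟨fun u => (hw' u).1, fun u => (hw' u).2.trans (hw1' u)⟩,
      ⟨fun x => (hv' x).1, fun x => (hv' x).2.trans (hv1' x)⟩⟩
    have h2 : Phi t adU adW k1 k2 C y0 z0 w1 v1 - Gf (y0 + ∑ x, v1 x) (z0 + ∑ u, w1 u)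
      ≤ Phi t adU adW k1 k2 C y0 z0 w' v' - Gf (y0 + ∑ x, v' x) (z0 + ∑ u, w' u) := this
    rw [← Phi_swap, ← Phi_swap, Gf_comm (z0 + ∑ u, w' u), Gf_comm (z0 + ∑ u, w1 u)] at hlt
    linarith

end

end Pool.Agent.Helper35.FdM
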