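import Pool.Agent.Helper35.FdM.CoreW

/-! The main weighted theorem for marked oriented graphs. -/

set_option autoImplicit false
open Finset
open scoped Classical

namespace Pool.Agent.Helper35.FdM

open Pool.Agent.H122R2.FdF

/-- every Fon-der-Flaass 3-graph with induced 4-cycles allowed: the non-edges together with a set of
deleted triples meeting all induced 4-cycles have density at least `4/9` -/
theorem main_marked {V : Type} [Fintype V] (R : V → V → Prop) (K : V → V → V → Prop) (w : V → ℝ)
    (hO : Oriented R) (hK : Marks R K) (hw : ∀ v, 0 ≤ w v) (h1 : ∑ v, w v = 1) :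
    4 / 9 ≤ T R w + Mk K w := by
  obtain ⟨s, w', hopt, hle⟩ := exists_optM R w hK.s12 hK.s23 hw h1
  refine le_trans ?_ hle
  refine coreM _ _ w' (fun x y h => hO x y h) ⟨fun a b c => hK.s12 a b c, fun a b c => hK.s23 a b c,
    fun a b c h => hK.path a b c h, fun a b c d => hK.cov a b c d⟩ hopt

end Pool.Agent.Helper35.FdM
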