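import Pool.Agent.Helper35.FdM.Game

/-! Packing of the 4-cycles through the chosen vertex. -/

set_option autoImplicit false
open Finset

namespace Pool.Agent.Helper35.FdM

variable {α β : Type} [Fintype α] [Fintype β] {t : α → β → ℝ} {adU : α → α → ℝ}
    {adW : β → β → ℝ} {k1 : α → β → β → ℝ} {k2 : β → α → α → ℝ}

theorem half_sym (v : β → ℝ) (hv : ∀ x, 0 ≤ v x) (c : β → ℝ) (hc : ∀ x, c x = 0 ∨ c x = 1)
    (k : β → β → ℝ) (hk0 : ∀ x x', 0 ≤ k x x') (hks : ∀ x x', k x x' = k x' x) :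
    ∑ x, ∑ x', v x * c x * (v x' * (1 - c x')) * k x x' ≤ 1 / 2 * ∑ x, ∑ x', v x * v x' * k x x' := by
  have e : ∑ x, ∑ x', v x * c x * (v x' * (1 - c x')) * k x x'
      = ∑ x, ∑ x', v x' * c x' * (v x * (1 - c x)) * k x x' := by
    rw [sum_comm]
    refine sum_congr rfl fun x _ => sum_congr rfl fun x' _ => ?_
    rw [hks x' x]
  have e2 : (∑ x, ∑ x', v x * c x * (v x' * (1 - c x')) * k x x')
      + ∑ x, ∑ x', v x' * c x' * (v x * (1 - c x)) * k x x' ≤ ∑ x, ∑ x', v x * v x' * k x x' := by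
    rw [← sum_add_distrib]
    refine sum_le_sum fun x _ => ?_
    rw [← sum_add_distrib]
    refine sum_le_sum fun x' _ => ?_
    have h0 : 0 ≤ v x * v x' * k x x' := mul_nonneg (mul_nonneg (hv x) (hv x')) (hk0 x x')
    rcases hc x with h | h <;> rcases hc x' with h' | h' <;> rw [h, h'] <;> ring_nf <;>
      nlinarith
  rw [← e] at e2
  linarith

theorem marks1 (G : Game t adU adW k1 k2) (us : α) (w : α → ℝ) (v : β → ℝ)
    (hw : ∀ u, 0 ≤ w u) (hv : ∀ x, 0 ≤ v x) (θ ρ : ℝ) (hθ : 0 ≤ θ) (hρ : 0 ≤ ρ) (hρ1 : ρ ≤ 1)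
    (b : β → ℝ) (r : α → ℝ)
    (hb0 : ∀ x, 0 ≤ b x) (hb1 : ∀ x, b x ≤ ρ * (v x * t us x))
    (hr0 : ∀ u, 0 ≤ r u) (hr1 : ∀ u, r u ≤ 1)
    (h1 : ∀ u, θ * (r u * ∑ x, v x * (1 - t us x) * t u x) ≤ 1)
    (h2 : ∀ u, θ * ∑ x, b x * (1 - t u x) ≤ 1)
    (h3 : ∀ x, θ * (b x * ∑ u, w u * (1 - t u x)) ≤ v x * t us x) :
    ∑ u, ∑ x, ∑ x', θ * r u * w u * b x * (v x' * (1 - t us x')) * (1 - t u x) * t u x' *
        ((1 - adU us u) * (1 - adW x x')) ≤
      (∑ u, ∑ x, v x * w u * k2 x us u) + 1 / 2 * (∑ x, ∑ x', v x * v x' * k1 us x x')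
      + θ * ρ * ∑ u, ∑ x, ∑ x', v x * t us x * w u * (v x' * (1 - t us x')) * k1 u x x' := by
  have hvt : ∀ x, 0 ≤ v x * t us x := fun x => mul_nonneg (hv x) (G.t0 us x)
  have hvs : ∀ x, 0 ≤ v x * (1 - t us x) := fun x => mul_nonneg (hv x) (G.s0 us x)
  have hbv : ∀ x, b x ≤ v x * t us x := fun x => by
    have := mul_le_mul_of_nonneg_right hρ1 (hvt x)
    linarith [hb1 x]
  -- the weights of the cycles
  set n : α → β → β → ℝ := fun u x x' =>
    θ * r u * w u * b x * (v x' * (1 - t us x')) * (1 - t u x) * t u x' with hn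
  have hn0 : ∀ u x x', 0 ≤ n u x x' := by
    intro u x x'
    rw [hn]
    have := hr0 u
    have := hw u
    have := hb0 x
    have := hvs x'
    have := G.s0 u x
    have := G.t0 u x'
    positivity
  have pt : ∀ u x x', n u x x' * ((1 - adU us u) * (1 - adW x x')) ≤
      n u x x' * k2 x us u + n u x x' * k1 u x x' + n u x x' * k2 x' us u + n u x x' * k1 us x x' := by
    intro u x x'
    have hc := G.covI us u x x'
    rcases G.t01 us x with h | h
    · have hb : b x = 0 := le_antisymm (by have := hbv x; rw [h] at this; linarith) (hb0 x)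
      have : n u x x' = 0 := by
        show θ * r u * w u * b x * (v x' * (1 - t us x')) * (1 - t u x) * t u x' = 0
        rw [hb]; ring
      rw [this]; simp
    · have e : n u x x' = θ * r u * w u * b x * v x' *
          (t us x * (1 - t u x) * t u x' * (1 - t us x')) := by
        show θ * r u * w u * b x * (v x' * (1 - t us x')) * (1 - t u x) * t u x' = _
        rw [h]; ring
      rw [e]
      have h0 : 0 ≤ θ * r u * w u * b x * v x' := by
        have := hr0 u
        have := hw u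
        have := hb0 x
        have := hv x'
        positivity
      have := mul_le_mul_of_nonneg_left hc h0
      nlinarith
  have S : ∑ u, ∑ x, ∑ x', n u x x' * ((1 - adU us u) * (1 - adW x x')) ≤
      (∑ u, ∑ x, ∑ x', n u x x' * k2 x us u) + (∑ u, ∑ x, ∑ x', n u x x' * k1 u x x')
      + (∑ u, ∑ x, ∑ x', n u x x' * k2 x' us u) + ∑ u, ∑ x, ∑ x', n u x x' * k1 us x x' := by
    simp only [← sum_add_distrib]
    exact sum_le_sum fun u _ => sum_le_sum fun x _ => sum_le_sum fun x' _ => pt u x x'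
  -- part 1
  have S1 : ∑ u, ∑ x, ∑ x', n u x x' * k2 x us u ≤ ∑ u, ∑ x, v x * t us x * w u * k2 x us u := by
    refine sum_le_sum fun u _ => sum_le_sum fun x _ => ?_
    have e : ∑ x', n u x x' * k2 x us u = b x * (1 - t u x) * (w u * k2 x us u) *
        (θ * (r u * ∑ x', v x' * (1 - t us x') * t u x')) := by
      rw [mul_sum, mul_sum, mul_sum]
      refine sum_congr rfl fun x' _ => ?_
      show θ * r u * w u * b x * (v x' * (1 - t us x')) * (1 - t u x) * t u x' * k2 x us u = _
      ring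
    rw [e]
    have hwk : 0 ≤ w u * k2 x us u := mul_nonneg (hw u) (G.k20 x us u)
    have hbs : 0 ≤ b x * (1 - t u x) := mul_nonneg (hb0 x) (G.s0 u x)
    have hbs1 : b x * (1 - t u x) ≤ v x * t us x :=
      (mul_le_of_le_one_right (hb0 x) (G.s1 u x)).trans (hbv x)
    calc b x * (1 - t u x) * (w u * k2 x us u) * (θ * (r u * ∑ x', v x' * (1 - t us x') * t u x'))
        ≤ b x * (1 - t u x) * (w u * k2 x us u) * 1 :=
          mul_le_mul_of_nonneg_left (h1 u) (mul_nonneg hbs hwk)
      _ = b x * (1 - t u x) * (w u * k2 x us u) := mul_one _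
      _ ≤ v x * t us x * (w u * k2 x us u) := mul_le_mul_of_nonneg_right hbs1 hwk
      _ = _ := by ring
  -- part 3
  have S3 : ∑ u, ∑ x, ∑ x', n u x x' * k2 x' us u
      ≤ ∑ u, ∑ x, v x * (1 - t us x) * w u * k2 x us u := by
    refine sum_le_sum fun u _ => ?_
    rw [sum_comm]
    refine sum_le_sum fun x' _ => ?_
    have e : ∑ x, n u x x' * k2 x' us u = r u * t u x' * (v x' * (1 - t us x') * w u * k2 x' us u) *
        (θ * ∑ x, b x * (1 - t u x)) := by
      rw [mul_sum, mul_sum]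
      refine sum_congr rfl fun x _ => ?_
      show θ * r u * w u * b x * (v x' * (1 - t us x')) * (1 - t u x) * t u x' * k2 x' us u = _
      ring
    rw [e]
    have hk : 0 ≤ v x' * (1 - t us x') * w u * k2 x' us u :=
      mul_nonneg (mul_nonneg (hvs x') (hw u)) (G.k20 x' us u)
    have hrt : 0 ≤ r u * t u x' := mul_nonneg (hr0 u) (G.t0 u x')
    have hrt1 : r u * t u x' ≤ 1 := mul_le_one₀ (hr1 u) (G.t0 u x') (G.t1 u x')
    calc r u * t u x' * (v x' * (1 - t us x') * w u * k2 x' us u) * (θ * ∑ x, b x * (1 - t u x))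
        ≤ r u * t u x' * (v x' * (1 - t us x') * w u * k2 x' us u) * 1 :=
          mul_le_mul_of_nonneg_left (h2 u) (mul_nonneg hrt hk)
      _ = r u * t u x' * (v x' * (1 - t us x') * w u * k2 x' us u) := mul_one _
      _ ≤ 1 * (v x' * (1 - t us x') * w u * k2 x' us u) := mul_le_mul_of_nonneg_right hrt1 hk
      _ = _ := by ring
  have S13 : (∑ u, ∑ x, v x * t us x * w u * k2 x us u)
      + ∑ u, ∑ x, v x * (1 - t us x) * w u * k2 x us u = ∑ u, ∑ x, v x * w u * k2 x us u := by
    simp only [← sum_add_distrib]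
    exact sum_congr rfl fun u _ => sum_congr rfl fun x _ => by ring
  -- part 2
  have S2 : ∑ u, ∑ x, ∑ x', n u x x' * k1 u x x'
      ≤ θ * ρ * ∑ u, ∑ x, ∑ x', v x * t us x * w u * (v x' * (1 - t us x')) * k1 u x x' := by
    simp only [mul_sum]
    refine sum_le_sum fun u _ => sum_le_sum fun x _ => sum_le_sum fun x' _ => ?_
    have hk : 0 ≤ θ * w u * (v x' * (1 - t us x')) * k1 u x x' :=
      mul_nonneg (mul_nonneg (mul_nonneg hθ (hw u)) (hvs x')) (G.k10 u x x')
    have hq : r u * (1 - t u x) * t u x' ≤ 1 :=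
      mul_le_one₀ (mul_le_one₀ (hr1 u) (G.s0 u x) (G.s1 u x)) (G.t0 u x') (G.t1 u x')
    have hq0 : 0 ≤ r u * (1 - t u x) * t u x' :=
      mul_nonneg (mul_nonneg (hr0 u) (G.s0 u x)) (G.t0 u x')
    have hqb : r u * (1 - t u x) * t u x' * b x ≤ ρ * (v x * t us x) := by
      calc r u * (1 - t u x) * t u x' * b x ≤ 1 * b x := mul_le_mul_of_nonneg_right hq (hb0 x)
        _ = b x := one_mul _
        _ ≤ _ := hb1 x
    calc n u x x' * k1 u x x'
        = r u * (1 - t u x) * t u x' * b x * (θ * w u * (v x' * (1 - t us x')) * k1 u x x') := by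
          show θ * r u * w u * b x * (v x' * (1 - t us x')) * (1 - t u x) * t u x' * k1 u x x' = _
          ring
      _ ≤ ρ * (v x * t us x) * (θ * w u * (v x' * (1 - t us x')) * k1 u x x') :=
          mul_le_mul_of_nonneg_right hqb hk
      _ = _ := by ring
  -- part 4
  have S4 : ∑ u, ∑ x, ∑ x', n u x x' * k1 us x x'
      ≤ 1 / 2 * ∑ x, ∑ x', v x * v x' * k1 us x x' := by
    refine le_trans ?_ (half_sym v hv (fun x => t us x) (fun x => G.t01 us x)
      (fun x x' => k1 us x x') (fun x x' => G.k10 us x x') (fun x x' => G.k1s us x x'))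
    rw [sum_comm]
    refine sum_le_sum fun x _ => ?_
    rw [sum_comm]
    refine sum_le_sum fun x' _ => ?_
    have hk : 0 ≤ v x' * (1 - t us x') * k1 us x x' := mul_nonneg (hvs x') (G.k10 us x x')
    calc ∑ u, n u x x' * k1 us x x'
        ≤ ∑ u, θ * b x * (v x' * (1 - t us x') * k1 us x x') * (w u * (1 - t u x)) := by
          refine sum_le_sum fun u _ => ?_
          have hrt1 : r u * t u x' ≤ 1 := mul_le_one₀ (hr1 u) (G.t0 u x') (G.t1 u x')
          have h0 : 0 ≤ θ * b x * (v x' * (1 - t us x') * k1 us x x') * (w u * (1 - t u x)) :=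
            mul_nonneg (mul_nonneg (mul_nonneg hθ (hb0 x)) hk) (mul_nonneg (hw u) (G.s0 u x))
          calc n u x x' * k1 us x x' = r u * t u x' *
                (θ * b x * (v x' * (1 - t us x') * k1 us x x') * (w u * (1 - t u x))) := by
                show θ * r u * w u * b x * (v x' * (1 - t us x')) * (1 - t u x) * t u x' *
                  k1 us x x' = _
                ring
            _ ≤ 1 * (θ * b x * (v x' * (1 - t us x') * k1 us x x') * (w u * (1 - t u x))) :=
                mul_le_mul_of_nonneg_right hrt1 h0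
            _ = _ := one_mul _
      _ = (v x' * (1 - t us x') * k1 us x x') * (θ * (b x * ∑ u, w u * (1 - t u x))) := by
          rw [mul_sum, mul_sum, mul_sum]
          exact sum_congr rfl fun u _ => by ring
      _ ≤ (v x' * (1 - t us x') * k1 us x x') * (v x * t us x) :=
          mul_le_mul_of_nonneg_left (h3 x) hk
      _ = _ := by ring
  have e0 : ∑ u, ∑ x, ∑ x', θ * r u * w u * b x * (v x' * (1 - t us x')) * (1 - t u x) * t u x' *
        ((1 - adU us u) * (1 - adW x x'))
      = ∑ u, ∑ x, ∑ x', n u x x' * ((1 - adU us u) * (1 - adW x x')) := rfl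
  rw [e0]
  linarith

end Pool.Agent.Helper35.FdM
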