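import Pool.Agent.Helper35.FdM.Marks1

/-! Packing of the 4-cycles through two out-neighbours of the chosen vertex. -/

set_option autoImplicit false
open Finset

namespace Pool.Agent.Helper35.FdM

variable {α β : Type} [Fintype α] [Fintype β] {t : α → β → ℝ} {adU : α → α → ℝ}
    {adW : β → β → ℝ} {k1 : α → β → β → ℝ} {k2 : β → α → α → ℝ}

theorem swap4 (F : α → α → β → β → ℝ) :
    ∑ u, ∑ u2, ∑ x, ∑ x2, F u u2 x x2 = ∑ u, ∑ u2, ∑ x, ∑ x2, F u2 u x2 x := by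
  rw [sum_comm]
  refine sum_congr rfl fun u _ => sum_congr rfl fun u2 _ => ?_
  exact sum_comm

theorem marks2 (G : Game t adU adW k1 k2) (us : α) (w : α → ℝ) (v : β → ℝ)
    (hw : ∀ u, 0 ≤ w u) (hv : ∀ x, 0 ≤ v x) (θ κ ρ : ℝ) (hθ : 0 ≤ θ) (hκ : 0 ≤ κ)
    (b : β → ℝ)
    (hb0 : ∀ x, 0 ≤ b x) (hb1 : ∀ x, b x ≤ ρ * (v x * t us x))
    (c1 : ∀ u, κ * ∑ x, b x * (1 - t u x) ≤ θ)
    (c2 : ∀ x, κ * (b x * ∑ u, w u * (1 - t u x)) ≤ θ * (v x * t us x)) :
    κ / 2 * ∑ u, ∑ u2, ∑ x, ∑ x2, b x * b x2 * (w u * w u2) *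
        (t u x * (1 - t u2 x) * t u2 x2 * (1 - t u x2)) * ((1 - adU u u2) * (1 - adW x x2)) ≤
      θ * ρ * (1 / 2 * ∑ x, ∑ u, ∑ u2, v x * t us x * (w u * w u2 * k2 x u u2))
      + θ * ρ * ∑ u, ∑ x, ∑ x', v x * t us x * w u * (v x' * t us x') * k1 u x x' := by
  have hvt : ∀ x, 0 ≤ v x * t us x := fun x => mul_nonneg (hv x) (G.t0 us x)
  set m : α → α → β → β → ℝ := fun u u2 x x2 =>
    b x * b x2 * (w u * w u2) * (t u x * (1 - t u2 x) * t u2 x2 * (1 - t u x2)) with hm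
  have pt : ∀ u u2 x x2, m u u2 x x2 * ((1 - adU u u2) * (1 - adW x x2)) ≤
      m u u2 x x2 * k2 x u u2 + m u u2 x x2 * k1 u2 x x2 + m u u2 x x2 * k2 x2 u u2
        + m u u2 x x2 * k1 u x x2 := by
    intro u u2 x x2
    have hc := G.covI u u2 x x2
    have h0 : 0 ≤ b x * b x2 * (w u * w u2) :=
      mul_nonneg (mul_nonneg (hb0 x) (hb0 x2)) (mul_nonneg (hw u) (hw u2))
    have := mul_le_mul_of_nonneg_left hc h0
    show b x * b x2 * (w u * w u2) * (t u x * (1 - t u2 x) * t u2 x2 * (1 - t u x2)) *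
      ((1 - adU u u2) * (1 - adW x x2)) ≤
      b x * b x2 * (w u * w u2) * (t u x * (1 - t u2 x) * t u2 x2 * (1 - t u x2)) * k2 x u u2
      + b x * b x2 * (w u * w u2) * (t u x * (1 - t u2 x) * t u2 x2 * (1 - t u x2)) * k1 u2 x x2
      + b x * b x2 * (w u * w u2) * (t u x * (1 - t u2 x) * t u2 x2 * (1 - t u x2)) * k2 x2 u u2
      + b x * b x2 * (w u * w u2) * (t u x * (1 - t u2 x) * t u2 x2 * (1 - t u x2)) * k1 u x x2
    nlinarith
  have S : ∑ u, ∑ u2, ∑ x, ∑ x2, m u u2 x x2 * ((1 - adU u u2) * (1 - adW x x2)) ≤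
      (∑ u, ∑ u2, ∑ x, ∑ x2, m u u2 x x2 * k2 x u u2)
      + (∑ u, ∑ u2, ∑ x, ∑ x2, m u u2 x x2 * k1 u2 x x2)
      + (∑ u, ∑ u2, ∑ x, ∑ x2, m u u2 x x2 * k2 x2 u u2)
      + ∑ u, ∑ u2, ∑ x, ∑ x2, m u u2 x x2 * k1 u x x2 := by
    simp only [← sum_add_distrib]
    exact sum_le_sum fun u _ => sum_le_sum fun u2 _ => sum_le_sum fun x _ =>
      sum_le_sum fun x2 _ => pt u u2 x x2
  have e3 : ∑ u, ∑ u2, ∑ x, ∑ x2, m u u2 x x2 * k2 x2 u u2
      = ∑ u, ∑ u2, ∑ x, ∑ x2, m u u2 x x2 * k2 x u u2 := by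
    rw [swap4]
    refine sum_congr rfl fun u _ => sum_congr rfl fun u2 _ => sum_congr rfl fun x _ =>
      sum_congr rfl fun x2 _ => ?_
    rw [G.k2s x u2 u]
    show b x2 * b x * (w u2 * w u) * (t u2 x2 * (1 - t u x2) * t u x * (1 - t u2 x)) * k2 x u u2
      = b x * b x2 * (w u * w u2) * (t u x * (1 - t u2 x) * t u2 x2 * (1 - t u x2)) * k2 x u u2
    ring
  have e4 : ∑ u, ∑ u2, ∑ x, ∑ x2, m u u2 x x2 * k1 u x x2
      = ∑ u, ∑ u2, ∑ x, ∑ x2, m u u2 x x2 * k1 u2 x x2 := by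
    rw [swap4]
    refine sum_congr rfl fun u _ => sum_congr rfl fun u2 _ => sum_congr rfl fun x _ =>
      sum_congr rfl fun x2 _ => ?_
    rw [G.k1s u2 x2 x]
    show b x2 * b x * (w u2 * w u) * (t u2 x2 * (1 - t u x2) * t u x * (1 - t u2 x)) * k1 u2 x x2
      = b x * b x2 * (w u * w u2) * (t u x * (1 - t u2 x) * t u2 x2 * (1 - t u x2)) * k1 u2 x x2
    ring
  -- first kind
  have S1 : κ * ∑ u, ∑ u2, ∑ x, ∑ x2, m u u2 x x2 * k2 x u u2 ≤
      θ * ρ * (1 / 2 * ∑ x, ∑ u, ∑ u2, v x * t us x * (w u * w u2 * k2 x u u2)) := by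
    have a1 : κ * ∑ u, ∑ u2, ∑ x, ∑ x2, m u u2 x x2 * k2 x u u2 ≤
        ∑ u, ∑ u2, ∑ x, θ * ρ * (v x * t us x * (w u * t u x * (w u2 * (1 - t u2 x)) * k2 x u u2))
        := by
      rw [mul_sum]
      refine sum_le_sum fun u _ => ?_
      rw [mul_sum]
      refine sum_le_sum fun u2 _ => ?_
      rw [mul_sum]
      refine sum_le_sum fun x _ => ?_
      have hk : 0 ≤ w u * t u x * (w u2 * (1 - t u2 x)) * k2 x u u2 :=
        mul_nonneg (mul_nonneg (mul_nonneg (hw u) (G.t0 u x)) (mul_nonneg (hw u2) (G.s0 u2 x)))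
          (G.k20 x u u2)
      have hin : ∑ x2, b x2 * (t u2 x2 * (1 - t u x2)) ≤ ∑ x2, b x2 * (1 - t u x2) := by
        refine sum_le_sum fun x2 _ => mul_le_mul_of_nonneg_left ?_ (hb0 x2)
        exact mul_le_of_le_one_left (G.s0 u x2) (G.t1 u2 x2)
      have hin2 : κ * ∑ x2, b x2 * (t u2 x2 * (1 - t u x2)) ≤ θ :=
        (mul_le_mul_of_nonneg_left hin hκ).trans (c1 u)
      calc κ * ∑ x2, m u u2 x x2 * k2 x u u2
          = b x * (w u * t u x * (w u2 * (1 - t u2 x)) * k2 x u u2) *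
            (κ * ∑ x2, b x2 * (t u2 x2 * (1 - t u x2))) := by
            rw [mul_sum, mul_sum, mul_sum]
            refine sum_congr rfl fun x2 _ => ?_
            show κ * (b x * b x2 * (w u * w u2) *
              (t u x * (1 - t u2 x) * t u2 x2 * (1 - t u x2)) * k2 x u u2) = _
            ring
        _ ≤ b x * (w u * t u x * (w u2 * (1 - t u2 x)) * k2 x u u2) * θ :=
            mul_le_mul_of_nonneg_left hin2 (mul_nonneg (hb0 x) hk)
        _ = θ * (w u * t u x * (w u2 * (1 - t u2 x)) * k2 x u u2) * b x := by ring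
        _ ≤ θ * (w u * t u x * (w u2 * (1 - t u2 x)) * k2 x u u2) * (ρ * (v x * t us x)) :=
            mul_le_mul_of_nonneg_left (hb1 x) (mul_nonneg hθ hk)
        _ = _ := by ring
    refine a1.trans ?_
    have a2 : ∑ u, ∑ u2, ∑ x, θ * ρ *
          (v x * t us x * (w u * t u x * (w u2 * (1 - t u2 x)) * k2 x u u2))
        = ∑ x, θ * ρ * (v x * t us x) *
          ∑ u, ∑ u2, w u * t u x * (w u2 * (1 - t u2 x)) * k2 x u u2 := by
      have b1 : ∀ u, ∑ u2, ∑ x, θ * ρ *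
          (v x * t us x * (w u * t u x * (w u2 * (1 - t u2 x)) * k2 x u u2))
          = ∑ x, ∑ u2, θ * ρ *
          (v x * t us x * (w u * t u x * (w u2 * (1 - t u2 x)) * k2 x u u2)) := fun u => sum_comm
      simp only [b1]
      rw [sum_comm]
      refine sum_congr rfl fun x _ => ?_
      rw [mul_sum]
      refine sum_congr rfl fun u _ => ?_
      rw [mul_sum]
      exact sum_congr rfl fun u2 _ => by ring
    rw [a2]
    have a3 : θ * ρ * (1 / 2 * ∑ x, ∑ u, ∑ u2, v x * t us x * (w u * w u2 * k2 x u u2))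
        = ∑ x, θ * ρ * (v x * t us x) * (1 / 2 * ∑ u, ∑ u2, w u * w u2 * k2 x u u2) := by
      rw [mul_sum, mul_sum]
      refine sum_congr rfl fun x _ => ?_
      have : ∑ u, ∑ u2, v x * t us x * (w u * w u2 * k2 x u u2)
          = v x * t us x * ∑ u, ∑ u2, w u * w u2 * k2 x u u2 := by
        rw [mul_sum]
        refine sum_congr rfl fun u _ => ?_
        rw [mul_sum]
      rw [this]; ring
    rw [a3]
    refine sum_le_sum fun x _ => ?_
    have hρ : 0 ≤ ρ * (v x * t us x) := (hb0 x).trans (hb1 x)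
    have hc : 0 ≤ θ * ρ * (v x * t us x) := by
      have := mul_nonneg hθ hρ
      linarith
    refine mul_le_mul_of_nonneg_left ?_ hc
    exact half_sym w hw (fun u => t u x) (fun u => G.t01 u x) (fun u u2 => k2 x u u2)
      (fun u u2 => G.k20 x u u2) (fun u u2 => G.k2s x u u2)
  -- second kind
  have S2 : κ * ∑ u, ∑ u2, ∑ x, ∑ x2, m u u2 x x2 * k1 u2 x x2 ≤
      θ * ρ * ∑ u, ∑ x, ∑ x', v x * t us x * w u * (v x' * t us x') * k1 u x x' := by
    have b1 : ∀ u2, ∑ u, ∑ x, ∑ x2, m u u2 x x2 * k1 u2 x x2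
        = ∑ x, ∑ x2, ∑ u, m u u2 x x2 * k1 u2 x x2 := by
      intro u2
      rw [sum_comm]
      exact sum_congr rfl fun x _ => sum_comm
    rw [sum_comm]
    simp only [b1]
    rw [mul_sum, mul_sum]
    refine sum_le_sum fun u2 _ => ?_
    rw [mul_sum, mul_sum]
    refine sum_le_sum fun x _ => ?_
    rw [mul_sum, mul_sum]
    refine sum_le_sum fun x2 _ => ?_
    have hk : 0 ≤ w u2 * k1 u2 x x2 := mul_nonneg (hw u2) (G.k10 u2 x x2)
    have hs : (1 - t u2 x) * t u2 x2 ≤ 1 := mul_le_one₀ (G.s1 u2 x) (G.t0 u2 x2) (G.t1 u2 x2)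
    have hs0 : 0 ≤ (1 - t u2 x) * t u2 x2 := mul_nonneg (G.s0 u2 x) (G.t0 u2 x2)
    have hin : ∑ u, w u * (t u x * (1 - t u x2)) ≤ ∑ u, w u * (1 - t u x2) := by
      refine sum_le_sum fun u _ => mul_le_mul_of_nonneg_left ?_ (hw u)
      exact mul_le_of_le_one_left (G.s0 u x2) (G.t1 u x)
    have hin2 : κ * (b x2 * ∑ u, w u * (t u x * (1 - t u x2))) ≤ θ * (v x2 * t us x2) :=
      (mul_le_mul_of_nonneg_left (mul_le_mul_of_nonneg_left hin (hb0 x2)) hκ).trans (c2 x2)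
    have hg2 : 0 ≤ θ * (v x2 * t us x2) := mul_nonneg hθ (hvt x2)
    calc κ * ∑ u, m u u2 x x2 * k1 u2 x x2
        = b x * ((1 - t u2 x) * t u2 x2) * (w u2 * k1 u2 x x2) *
          (κ * (b x2 * ∑ u, w u * (t u x * (1 - t u x2)))) := by
          rw [mul_sum, mul_sum, mul_sum, mul_sum]
          refine sum_congr rfl fun u _ => ?_
          show κ * (b x * b x2 * (w u * w u2) *
            (t u x * (1 - t u2 x) * t u2 x2 * (1 - t u x2)) * k1 u2 x x2) = _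
          ring
      _ ≤ b x * ((1 - t u2 x) * t u2 x2) * (w u2 * k1 u2 x x2) * (θ * (v x2 * t us x2)) :=
          mul_le_mul_of_nonneg_left hin2 (mul_nonneg (mul_nonneg (hb0 x) hs0) hk)
      _ = ((1 - t u2 x) * t u2 x2) * (b x * ((w u2 * k1 u2 x x2) * (θ * (v x2 * t us x2)))) := by
          ring
      _ ≤ 1 * (b x * ((w u2 * k1 u2 x x2) * (θ * (v x2 * t us x2)))) :=
          mul_le_mul_of_nonneg_right hs (mul_nonneg (hb0 x) (mul_nonneg hk hg2))
      _ = b x * ((w u2 * k1 u2 x x2) * (θ * (v x2 * t us x2))) := one_mul _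
      _ ≤ ρ * (v x * t us x) * ((w u2 * k1 u2 x x2) * (θ * (v x2 * t us x2))) :=
          mul_le_mul_of_nonneg_right (hb1 x) (mul_nonneg hk hg2)
      _ = _ := by ring
  have hκ2 : 0 ≤ κ / 2 := by linarith
  have S' := mul_le_mul_of_nonneg_left S hκ2
  rw [e3, e4] at S'
  have e0 : κ / 2 * ∑ u, ∑ u2, ∑ x, ∑ x2, b x * b x2 * (w u * w u2) *
        (t u x * (1 - t u2 x) * t u2 x2 * (1 - t u x2)) * ((1 - adU u u2) * (1 - adW x x2))
      = κ / 2 * ∑ u, ∑ u2, ∑ x, ∑ x2, m u u2 x x2 * ((1 - adU u u2) * (1 - adW x x2)) := rfl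
  rw [e0]
  linarith

end Pool.Agent.Helper35.FdM
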