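import Pool.Agent.Helper35.FdM.Main

/-! `main_marked` is proved in `Pool.Agent.Helper35.FdM.Main`. -/
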